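import Pool.Agent.Helper42.Game
import Pool.Agent.Helper41.FatMain

set_option autoImplicit false

namespace Pool.Agent.Helper42.Canon

open Pool.Agent.Helper41.Fat Pool.Agent.Helper42.Game

variable {K : Type*} [Field K]

/-- The canonical state: rows `x (q - c) + t + [c < X]` for `c ≤ q`. -/
def S (x q t X c : ℕ) : ℕ := if c ≤ q then x * (q - c) + t + (if c < X then 1 else 0) else 0

theorem good_of_step [CharZero K] {r m k R : ℕ} {n n' : ℕ → ℕ} (hs : Step k n n')
    (h : Good K r m n' R) : Good K r m n R := by
  obtain ⟨B, hB⟩ := hs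
  exact Good.move k B hB h

/-- The move `x` sorts the extra cells to the bottom rows. -/
theorem sort_step (x q t X : ℕ) (n : ℕ → ℕ) (h1 : ∀ c ≤ q, x * (q - c) + t ≤ n c)
    (h2 : X ≤ ((Finset.range (q + 1)).filter (fun c => x * (q - c) + t + 1 ≤ n c)).card) :
    Step x n (S x q t X) := by
  refine ⟨q + 1, fun i => ?_⟩
  by_cases hi : i ≤ q
  · refine ⟨Finset.Ico (x * i) (x * q + t + (if i < X then 1 else 0)), ?_, ?_⟩
    · rw [Nat.card_Ico, S, if_pos hi]
      have e : x * q = x * i + x * (q - i) := by rw [← mul_add]; congr 1; omega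
      omega
    · intro u hu
      rw [Finset.mem_Ico] at hu
      by_cases hlt : u < x * q + t
      · have hsub : Finset.range (i + 1) ⊆ act x (q + 1) n u := by
          intro c hc
          rw [Finset.mem_range] at hc
          rw [mem_act]
          have hcq : c ≤ q := by omega
          have e : x * q = x * c + x * (q - c) := by rw [← mul_add]; congr 1; omega
          have h3 := h1 c hcq
          have h4 : x * c ≤ x * i := Nat.mul_le_mul_left x (by omega)
          refine ⟨by omega, by omega, by omega⟩
        have := Finset.card_le_card hsub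
        rw [Finset.card_range] at this
        omega
      · have hiX : i < X := by
          by_contra hcon
          rw [if_neg hcon] at hu
          omega
        have hsub : (Finset.range (q + 1)).filter (fun c => x * (q - c) + t + 1 ≤ n c)
            ⊆ act x (q + 1) n u := by
          intro c hc
          rw [Finset.mem_filter, Finset.mem_range] at hc
          rw [if_pos hiX] at hu
          rw [mem_act]
          have e : x * q = x * c + x * (q - c) := by rw [← mul_add]; congr 1; omega
          refine ⟨hc.1, by omega, by omega⟩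
        have := Finset.card_le_card hsub
        omega
  · exact ⟨∅, by simp [S, hi], by simp⟩

theorem S_end (x q t X c : ℕ) (hc : c ≤ q) :
    (x + 1) * c + S x q t X c = x * q + t + c + (if c < X then 1 else 0) := by
  rw [S, if_pos hc]
  have e : x * q = x * c + x * (q - c) := by rw [← mul_add]; congr 1; omega
  have e2 : (x + 1) * c = x * c + c := by ring
  omega

theorem act_low (x q t X i u : ℕ) (hi : i ≤ q) (h1 : (x + 1) * i ≤ u) (h2 : u < x * q + t) :
    i < (act (x + 1) (q + 1) (S x q t X) u).card := by
  have hsub : Finset.range (i + 1) ⊆ act (x + 1) (q + 1) (S x q t X) u := by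
    intro c hc
    rw [Finset.mem_range] at hc
    rw [mem_act]
    have hcq : c ≤ q := by omega
    have h3 := S_end x q t X c hcq
    have h4 : (x + 1) * c ≤ (x + 1) * i := Nat.mul_le_mul_left _ (by omega)
    refine ⟨by omega, by omega, by omega⟩
  have := Finset.card_le_card hsub
  rw [Finset.card_range] at this
  omega

theorem act_high (x q t X w : ℕ) (hq : q ≤ x + 1 + t) :
    (if q ≤ t + w then q + 1 else q) - (if w < X then w else w + 1)
      ≤ (act (x + 1) (q + 1) (S x q t X) (x * q + t + w)).card := by
  rw [← Nat.card_Ico]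
  apply Finset.card_le_card
  intro c hc
  rw [Finset.mem_Ico] at hc
  rw [mem_act]
  have hcq : c ≤ q := by
    have := hc.2
    split_ifs at this <;> omega
  have h3 := S_end x q t X c hcq
  refine ⟨by omega, ?_, ?_⟩
  · rcases Nat.lt_or_ge c q with hlt | hge
    · have e : x * q = x * c + x * (q - c) := by rw [← mul_add]; congr 1; omega
      have e2 : (x + 1) * c = x * c + c := by ring
      have e3 : x * 1 ≤ x * (q - c) := Nat.mul_le_mul_left x (by omega)
      have e4 : x ≤ x * (q - c) := by simpa using e3
      rw [e2, e]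
      -- need `c ≤ x (q - c) + t + w`
      have e5 : (q - c) - 1 ≤ x * (q - c) - x ∨ x = 0 := by
        rcases Nat.eq_zero_or_pos x with h | h
        · right; exact h
        · left
          obtain ⟨y, hy⟩ : ∃ y, q - c = y + 1 := ⟨q - c - 1, by omega⟩
          rw [hy]
          have : x * (y + 1) = x * y + x := by ring
          have : y ≤ x * y := Nat.le_mul_of_pos_left y h
          omega
      omega
    · have : c = q := by omega
      subst this
      have h5 : c ≤ t + w := by
        by_contra hcon
        rw [if_neg hcon] at hc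
        omega
      have e2 : (x + 1) * c = x * c + c := by ring
      omega
  · have h6 := hc.1
    split_ifs at h3 h6 <;> omega

/-- No row disappears. -/
theorem growA (x q t X : ℕ) (hq : q ≤ t) (hX : X ≤ q) :
    Step (x + 1) (S x q t X)
      (fun i => if i ≤ q then (x + 2) * (q - i) + (t - q) + (if q < X + i then 1 else 0)
        else 0) := by
  refine ⟨q + 1, fun i => ?_⟩
  by_cases hi : i ≤ q
  · simp only [if_pos hi]
    refine ⟨Finset.Ico ((x + 1) * i) (x * q + t + (q - i) + (if q < X + i then 1 else 0)), ?_, ?_⟩
    · rw [Nat.card_Ico]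
      obtain ⟨j, rfl⟩ : ∃ j, q = i + j := ⟨q - i, by omega⟩
      have e1 : (x + 1) * i = x * i + i := by ring
      have e2 : (x + 2) * (i + j - i) = x * j + 2 * j := by
        rw [Nat.add_sub_cancel_left]; ring
      have e3 : x * (i + j) = x * i + x * j := by ring
      omega
    · intro u hu
      rw [Finset.mem_Ico] at hu
      by_cases hlt : u < x * q + t
      · exact act_low x q t X i u hi hu.1 hlt
      · obtain ⟨w, rfl⟩ : ∃ w, u = x * q + t + w := ⟨u - (x * q + t), by omega⟩
        have h := act_high x q t X w (by omega)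
        have hu2 := hu.2
        rw [if_pos (by omega)] at h
        split_ifs at h hu2 <;> omega
  · simp only [if_neg hi]
    exact ⟨∅, by simp, by simp⟩

/-- One row disappears, few extra cells. -/
theorem growB (x q t X : ℕ) (hq : q ≤ x + 1 + t) (hX : X + t + 1 ≤ q) :
    Step (x + 1) (S x q t X)
      (fun i => if i + 1 ≤ q then (x + 2) * (q - 1 - i) + (x + 1 + t - q)
        + (if i < t ∨ q ≤ X + i then 1 else 0) else 0) := by
  refine ⟨q + 1, fun i => ?_⟩
  by_cases hi : i + 1 ≤ q
  · simp only [if_pos hi]
    refine ⟨Finset.Ico ((x + 1) * i)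
      (x * q + t + (q - 1 - i) + (if i < t ∨ q ≤ X + i then 1 else 0)), ?_, ?_⟩
    · rw [Nat.card_Ico]
      obtain ⟨j, rfl⟩ : ∃ j, q = i + j + 1 := ⟨q - 1 - i, by omega⟩
      have e0 : i + j + 1 - 1 - i = j := by omega
      rw [e0]
      have e1 : (x + 1) * i = x * i + i := by ring
      have e2 : (x + 2) * j = x * j + 2 * j := by ring
      have e3 : x * (i + j + 1) = x * i + x * j + x := by ring
      omega
    · intro u hu
      rw [Finset.mem_Ico] at hu
      by_cases hlt : u < x * q + t
      · exact act_low x q t X i u (by omega) hu.1 hlt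
      · obtain ⟨w, rfl⟩ : ∃ w, u = x * q + t + w := ⟨u - (x * q + t), by omega⟩
        have h := act_high x q t X w hq
        have hu2 := hu.2
        split_ifs at h hu2 <;> omega
  · simp only [if_neg hi]
    exact ⟨∅, by simp, by simp⟩

/-- One row disappears, many extra cells. -/
theorem growC (x q t X : ℕ) (hq : q ≤ x + 1 + t) (ht : t < q) (hXq : X ≤ q) (hX : q ≤ X + t) :
    Step (x + 1) (S x q t X)
      (fun i => if i + 1 ≤ q then (x + 2) * (q - 1 - i) + (x + 2 + t - q)
        + (if q + 1 ≤ X + i ∧ i ≤ t then 1 else 0) else 0) := by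
  refine ⟨q + 1, fun i => ?_⟩
  by_cases hi : i + 1 ≤ q
  · simp only [if_pos hi]
    refine ⟨Finset.Ico ((x + 1) * i)
      (x * q + t + (q - i) + (if q + 1 ≤ X + i ∧ i ≤ t then 1 else 0)), ?_, ?_⟩
    · rw [Nat.card_Ico]
      obtain ⟨j, rfl⟩ : ∃ j, q = i + j + 1 := ⟨q - 1 - i, by omega⟩
      have e0 : i + j + 1 - 1 - i = j := by omega
      rw [e0]
      have e1 : (x + 1) * i = x * i + i := by ring
      have e2 : (x + 2) * j = x * j + 2 * j := by ring
      have e3 : x * (i + j + 1) = x * i + x * j + x := by ring
      omega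
    · intro u hu
      rw [Finset.mem_Ico] at hu
      by_cases hlt : u < x * q + t
      · exact act_low x q t X i u (by omega) hu.1 hlt
      · obtain ⟨w, rfl⟩ : ∃ w, u = x * q + t + w := ⟨u - (x * q + t), by omega⟩
        have h := act_high x q t X w hq
        have hu2 := hu.2
        split_ifs at h hu2 <;> omega
  · simp only [if_neg hi]
    exact ⟨∅, by simp, by simp⟩

theorem goodA [CharZero K] {r m ρ : ℕ} (x q t X : ℕ) (hq : q ≤ t) (hX : X ≤ q)
    (h : Good K r m (S (x + 2) q (t - q) X) ρ) : Good K r m (S x q t X) ρ := by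
  apply good_of_step (growA x q t X hq hX)
  apply good_of_step (sort_step (x + 2) q (t - q) X _ ?_ ?_) h
  · intro c hc
    simp only [if_pos hc]
    omega
  · have hsub : Finset.Ico (q + 1 - X) (q + 1) ⊆ (Finset.range (q + 1)).filter (fun c =>
        (x + 2) * (q - c) + (t - q) + 1 ≤ if c ≤ q then (x + 2) * (q - c) + (t - q)
          + (if q < X + c then 1 else 0) else 0) := by
      intro c hc
      rw [Finset.mem_Ico] at hc
      rw [Finset.mem_filter, Finset.mem_range, if_pos (by omega), if_pos (by omega)]
      exact ⟨hc.2, le_rfl⟩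
    have := Finset.card_le_card hsub
    rw [Nat.card_Ico] at this
    omega

theorem goodB [CharZero K] {r m ρ : ℕ} (x q t X : ℕ) (hq : q ≤ x + 1 + t) (hX : X + t + 1 ≤ q)
    (h : Good K r m (S (x + 2) (q - 1) (x + 1 + t - q) (X + t)) ρ) :
    Good K r m (S x q t X) ρ := by
  apply good_of_step (growB x q t X hq hX)
  apply good_of_step (sort_step (x + 2) (q - 1) (x + 1 + t - q) (X + t) _ ?_ ?_) h
  · intro c hc
    simp only [if_pos (show c + 1 ≤ q by omega)]
    omega
  · have hsub : Finset.range t ∪ Finset.Ico (q - X) q ⊆ (Finset.range (q - 1 + 1)).filter (fun c =>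
        (x + 2) * (q - 1 - c) + (x + 1 + t - q) + 1 ≤ if c + 1 ≤ q then
          (x + 2) * (q - 1 - c) + (x + 1 + t - q)
          + (if c < t ∨ q ≤ X + c then 1 else 0) else 0) := by
      intro c hc
      rw [Finset.mem_union, Finset.mem_range, Finset.mem_Ico] at hc
      rw [Finset.mem_filter, Finset.mem_range, if_pos (by omega), if_pos (by omega)]
      exact ⟨by omega, le_rfl⟩
    have h1 := Finset.card_le_card hsub
    rw [Finset.card_union_of_disjoint, Finset.card_range, Nat.card_Ico] at h1
    · omega
    · rw [Finset.disjoint_left]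
      intro c hc hc2
      rw [Finset.mem_range] at hc
      rw [Finset.mem_Ico] at hc2
      omega

theorem goodC [CharZero K] {r m ρ : ℕ} (x q t X : ℕ) (hq : q ≤ x + 1 + t) (ht : t < q)
    (hXq : X ≤ q) (hX : q ≤ X + t)
    (h : Good K r m (S (x + 2) (q - 1) (x + 2 + t - q) (X + t - q)) ρ) :
    Good K r m (S x q t X) ρ := by
  apply good_of_step (growC x q t X hq ht hXq hX)
  apply good_of_step (sort_step (x + 2) (q - 1) (x + 2 + t - q) (X + t - q) _ ?_ ?_) h
  · intro c hc
    simp only [if_pos (show c + 1 ≤ q by omega)]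
    omega
  · have hsub : Finset.Ico (q + 1 - X) (t + 1) ⊆ (Finset.range (q - 1 + 1)).filter (fun c =>
        (x + 2) * (q - 1 - c) + (x + 2 + t - q) + 1 ≤ if c + 1 ≤ q then
          (x + 2) * (q - 1 - c) + (x + 2 + t - q)
          + (if q + 1 ≤ X + c ∧ c ≤ t then 1 else 0) else 0) := by
      intro c hc
      rw [Finset.mem_Ico] at hc
      rw [Finset.mem_filter, Finset.mem_range, if_pos (by omega), if_pos (by omega)]
      exact ⟨by omega, le_rfl⟩
    have h1 := Finset.card_le_card hsub
    rw [Nat.card_Ico] at h1
    omega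

theorem sum_S (x q t X : ℕ) (hX : X ≤ q + 1) :
    2 * ∑ c ∈ Finset.range (q + 1), S x q t X c = (q + 1) * (x * q + 2 * t) + 2 * X := by
  have h1 : ∑ c ∈ Finset.range (q + 1), S x q t X c
      = ∑ c ∈ Finset.range (q + 1), (x * (q - c) + t)
        + ∑ c ∈ Finset.range (q + 1), (if c < X then 1 else 0) := by
    rw [← Finset.sum_add_distrib]
    refine Finset.sum_congr rfl fun c hc => ?_
    rw [Finset.mem_range] at hc
    rw [S, if_pos (by omega)]
  have h2 : ∑ c ∈ Finset.range (q + 1), (if c < X then 1 else 0) = X := by
    rw [← Finset.card_filter]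
    have : (Finset.range (q + 1)).filter (fun c => c < X) = Finset.range X := by
      ext c
      simp only [Finset.mem_filter, Finset.mem_range]
      omega
    rw [this, Finset.card_range]
  have h3 : ∑ c ∈ Finset.range (q + 1), (x * (q - c) + t)
      = x * (q + 1).choose 2 + (q + 1) * t := by
    rw [Finset.sum_add_distrib, ← Finset.mul_sum, Finset.sum_const, Finset.card_range,
      smul_eq_mul, Finset.sum_range_succ, Nat.sub_self, add_zero, sum_stair]
  rw [h1, h2, h3]
  have h4 := two_mul_choose q
  have h5 : 2 * (x * (q + 1).choose 2 + (q + 1) * t + X)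
      = x * (2 * (q + 1).choose 2) + 2 * ((q + 1) * t) + 2 * X := by ring
  rw [h5, h4]
  ring

/-- The canonical state of slope `r` is exact. -/
theorem good_final {r m ρ : ℕ} (q t X : ℕ) (ht : t < r) (hX : X ≤ q)
    (hρ : ρ ≤ r * (m + 1).choose 2) (hN : 2 * ρ ≤ (q + 1) * (r * q + 2 * t) + 2 * X) :
    Good K r m (S r q t X) ρ := by
  have hf := Good.final (K := K) r m (S r q t X)
  rcases Nat.lt_or_ge q m with hqm | hqm
  · have h1 : ∑ c ∈ Finset.range m, min (S r q t X c) (r * (m - c))
        = ∑ c ∈ Finset.range (q + 1), S r q t X c := by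
      have h2 : ∑ c ∈ Finset.range m, min (S r q t X c) (r * (m - c))
          = ∑ c ∈ Finset.range m, S r q t X c := by
        refine Finset.sum_congr rfl fun c _ => min_eq_left ?_
        rw [S]
        split_ifs with h3 h4
        · have e : r * (m - c) = r * (q - c) + r * (m - q) := by rw [← mul_add]; congr 1; omega
          have e2 : r * 1 ≤ r * (m - q) := Nat.mul_le_mul_left r (by omega)
          omega
        · have e : r * (m - c) = r * (q - c) + r * (m - q) := by rw [← mul_add]; congr 1; omega
          have e2 : r * 1 ≤ r * (m - q) := Nat.mul_le_mul_left r (by omega)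
          omega
        · exact Nat.zero_le _
      rw [h2]
      symm
      apply Finset.sum_subset (Finset.range_subset_range.2 hqm)
      intro c _ hc
      rw [Finset.mem_range] at hc
      rw [S, if_neg (by omega)]
    rw [h1] at hf
    refine Good.le ?_ hf
    have := sum_S r q t X (by omega)
    omega
  · have h1 : ∑ c ∈ Finset.range m, min (S r q t X c) (r * (m - c)) = r * (m + 1).choose 2 := by
      rw [← sum_stair, Finset.mul_sum]
      refine Finset.sum_congr rfl fun c hc => min_eq_right ?_
      rw [Finset.mem_range] at hc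
      rw [S, if_pos (by omega)]
      have : r * (m - c) ≤ r * (q - c) := Nat.mul_le_mul_left r (by omega)
      omega
    rw [h1] at hf
    exact Good.le hρ hf

/-- **Canonical states are exact.** -/
theorem canon_good [CharZero K] {r m ρ : ℕ} (hρ : ρ ≤ r * (m + 1).choose 2) :
    ∀ e x q t X : ℕ, x + 2 * e = r → t < x → X ≤ q → q ≤ x + 1 →
      2 * ρ ≤ (q + 1) * (x * q + 2 * t) + 2 * X → Good K r m (S x q t X) ρ := by
  intro e
  induction e with
  | zero =>
    intro x q t X hx ht hX _ hN
    simp only [mul_zero, add_zero] at hx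
    subst hx
    exact good_final q t X ht hX hρ hN
  | succ e ih =>
    intro x q t X hx ht hX hq hN
    by_cases h1 : q ≤ t
    · apply goodA x q t X h1 hX
      apply ih (x + 2) q (t - q) X (by omega) (by omega) hX (by omega)
      have e1 : (x + 2) * q + 2 * (t - q) = x * q + 2 * t := by
        obtain ⟨s, rfl⟩ : ∃ s, t = q + s := ⟨t - q, by omega⟩
        rw [Nat.add_sub_cancel_left]; ring
      rw [e1]
      exact hN
    · obtain ⟨s, rfl⟩ : ∃ s, q = s + 1 := ⟨q - 1, by omega⟩
      by_cases h2 : X + t + 1 ≤ s + 1
      · apply goodB x (s + 1) t X (by omega) h2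
        have e0 : s + 1 - 1 = s := by omega
        rw [e0]
        apply ih (x + 2) s (x + 1 + t - (s + 1)) (X + t) (by omega) (by omega) (by omega) (by omega)
        obtain ⟨y, hy⟩ : ∃ y, x + t = s + y := ⟨x + t - s, by omega⟩
        have e1 : x + 1 + t - (s + 1) = y := by omega
        rw [e1]
        have e2 : (s + 1) * ((x + 2) * s + 2 * y) + 2 * (X + t)
            = (s + 1 + 1) * (x * (s + 1) + 2 * t) + 2 * X := by
          have e3 : (x + 2) * s + 2 * y = x * s + 2 * (s + y) := by ring
          rw [e3, ← hy]
          ring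
        rw [e2]
        exact hN
      · apply goodC x (s + 1) t X (by omega) (by omega) hX (by omega)
        have e0 : s + 1 - 1 = s := by omega
        rw [e0]
        apply ih (x + 2) s (x + 2 + t - (s + 1)) (X + t - (s + 1)) (by omega) (by omega) (by omega)
          (by omega)
        obtain ⟨y, hy⟩ : ∃ y, x + t + 1 = s + y := ⟨x + t + 1 - s, by omega⟩
        have e1 : x + 2 + t - (s + 1) = y := by omega
        obtain ⟨z, hz⟩ : ∃ z, X + t = s + 1 + z := ⟨X + t - (s + 1), by omega⟩
        have e4 : X + t - (s + 1) = z := by omega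
        rw [e1, e4]
        have e2 : (s + 1) * ((x + 2) * s + 2 * y) + 2 * z
            = (s + 1 + 1) * (x * (s + 1) + 2 * t) + 2 * X := by
          have e3 : (x + 2) * s + 2 * y = x * s + 2 * (s + y) := by ring
          rw [e3, ← hy]
          have e5 : 2 * z + 2 * (s + 1) = 2 * (X + t) := by rw [hz]; ring
          nlinarith
        rw [e2]
        exact hN

end Pool.Agent.Helper42.Canon
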