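import Pool.Agent.Helper42.Greedy

set_option autoImplicit false

namespace Pool.Agent.Helper42.Game

open Pool.Agent.Helper41.Fat

variable {K : Type*} [Field K]

/-- Consequences of `r ≤ ρ² ≤ (r-1)²/(r-2)` for the distance of `ρ` and `r/ρ` to `√r`. -/
theorem rho_bounds {r : ℕ} (hr : 10 ≤ r) {ρ : ℝ} (hρ : 0 < ρ) (h1 : (r : ℝ) ≤ ρ ^ 2)
    (h2 : ρ ^ 2 * ((r : ℝ) - 2) ≤ ((r : ℝ) - 1) ^ 2) :
    √(r : ℝ) ≤ ρ ∧ ρ ≤ √(r : ℝ) + 1 / (2 * (r - 2) * √(r : ℝ)) ∧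
      (√(r : ℝ) - 1 / (2 * (r - 2) * √(r : ℝ))) * ρ ≤ r := by
  have hr' : (10 : ℝ) ≤ r := by exact_mod_cast hr
  set S := √(r : ℝ) with hS
  have hS2 : S ^ 2 = r := Real.sq_sqrt (by linarith)
  have hS0 : 0 < S := Real.sqrt_pos.2 (by linarith)
  have hr2 : (0 : ℝ) < r - 2 := by linarith
  set ε := 1 / (2 * ((r : ℝ) - 2) * S) with hε
  have hε0 : 0 < ε := by positivity
  have e1 : 2 * ((r : ℝ) - 2) * S * ε = 1 := by rw [hε]; field_simp
  have h3 : ρ ≤ S + ε := by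
    refine le_of_sq_le_sq ?_ (by positivity)
    have h4 : ρ ^ 2 * ((r : ℝ) - 2) ≤ (S + ε) ^ 2 * ((r : ℝ) - 2) := by
      have e2 : (S + ε) ^ 2 * ((r : ℝ) - 2)
          = S ^ 2 * (r - 2) + 2 * (r - 2) * S * ε + ε ^ 2 * (r - 2) := by ring
      rw [e2, e1, hS2]
      have : 0 ≤ ε ^ 2 * ((r : ℝ) - 2) := by positivity
      nlinarith
    exact le_of_mul_le_mul_right h4 hr2
  refine ⟨?_, h3, ?_⟩
  · rw [hS]; exact Real.sqrt_le_iff.2 ⟨hρ.le, h1⟩
  · by_cases h5 : 0 ≤ S - ε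
    · have h6 : (S - ε) * ρ ≤ (S - ε) * (S + ε) := mul_le_mul_of_nonneg_left h3 h5
      have h7 : (S - ε) * (S + ε) = S ^ 2 - ε ^ 2 := by ring
      have : 0 ≤ ε ^ 2 := by positivity
      linarith
    · push Not at h5
      have : (S - ε) * ρ ≤ 0 := mul_nonpos_of_nonpos_of_nonneg h5.le hρ.le
      linarith

theorem window_empty [CharZero K] (r p m d : ℕ) (hr : 10 ≤ r) (hp2 : 2 ≤ p) (hpr : p ^ 2 ≤ r)
    (hpar : p % 2 = r % 2) (hm : 1 ≤ m)
    (h : (d : ℝ) + 3 / 2 ≤ √(r : ℝ) * (m + 1 / 2) - (√(r : ℝ) - p) / 2 - √(r : ℝ) / (2 * m)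
      - m / (2 * (r - 2) * √(r : ℝ))) :
    Good K r m (fun b => d + 1 - b) ((d + 2).choose 2) := by
  have hr' : (10 : ℝ) ≤ r := by exact_mod_cast hr
  have hm' : (1 : ℝ) ≤ m := by exact_mod_cast hm
  obtain ⟨ρ, hch, hρ1, hρ2⟩ := exists_chain r p hr hp2 hpr hpar
  have hp : 0 < p := by omega
  have hpR : (0 : ℝ) < p := by exact_mod_cast hp
  have hρ : 0 < ρ := lt_of_lt_of_le hpR hch.le
  obtain ⟨hSρ, hρS, hSr⟩ := rho_bounds hr hρ hρ1 hρ2
  set S := √(r : ℝ) with hS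
  have hS2 : S ^ 2 = r := Real.sq_sqrt (by linarith)
  have hS0 : 0 < S := Real.sqrt_pos.2 (by linarith)
  have hS3 : 3 ≤ S := by
    rw [hS]; apply Real.le_sqrt_of_sq_le; linarith
  have hr2 : (0 : ℝ) < r - 2 := by linarith
  have hpS : (p : ℝ) ≤ S := by
    rw [hS]; apply Real.le_sqrt_of_sq_le; exact_mod_cast hpr
  set ε := 1 / (2 * ((r : ℝ) - 2) * S) with hε
  have hε0 : 0 < ε := by positivity
  have hmε : (m : ℝ) / (2 * (r - 2) * S) = m * ε := by rw [hε]; ring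
  rw [hmε] at h
  have hεS : S * ε ≤ 1 / 16 := by
    have e1 : S * ε = 1 / (2 * (r - 2)) := by rw [hε]; field_simp
    rw [e1]
    apply one_div_le_one_div_of_le (by norm_num)
    linarith
  -- the extremal degree
  set T := S * ((m : ℝ) + 1 / 2) - (S - p) / 2 - S / (2 * m) - m * ε - 3 / 2 with hT
  have hdT : (d : ℝ) ≤ T := by rw [hT]; linarith
  have hT0 : 0 ≤ T := le_trans (Nat.cast_nonneg d) hdT
  set d' := ⌊T⌋₊ with hd'
  have hdd' : d ≤ d' := Nat.le_floor hdT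
  have hd'1 : (d' : ℝ) ≤ T := Nat.floor_le hT0
  have hd'2 : T < d' + 1 := Nat.lt_floor_add_one T
  -- the correction term
  have hcorr : ((p : ℝ) - 1) * (p - 2) / (2 * (d' + 2)) < S / (2 * m) := by
    rw [div_lt_div_iff₀ (by positivity) (by positivity)]
    have hp2' : (2 : ℝ) ≤ p := by exact_mod_cast hp2
    have h2 : ((p : ℝ) - 1) * (p - 2) * m < S * (d' + 2) := by
      have h3 : S * (T + 1) < S * (d' + 2) := mul_lt_mul_of_pos_left (by linarith) hS0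
      refine lt_of_le_of_lt ?_ h3
      have h4 : S * (S / (2 * m)) ≤ S ^ 2 / 2 := by
        rw [sq, ← mul_div_assoc]
        exact div_le_div_of_nonneg_left (by positivity) (by norm_num) (by linarith)
      have h5 : S * (m * ε) ≤ m * (1 / 16) := by
        have : S * (m * ε) = m * (S * ε) := by ring
        rw [this]
        exact mul_le_mul_of_nonneg_left hεS (by linarith)
      have e1 : S * (T + 1) = S ^ 2 * m + S * p / 2 - S / 2 - S * (S / (2 * m)) - S * (m * ε) := by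
        rw [hT]; ring
      rw [e1]
      have h6 : (S ^ 2 - (p : ℝ) ^ 2) * 1 ≤ (S ^ 2 - (p : ℝ) ^ 2) * m :=
        mul_le_mul_of_nonneg_left hm' (by nlinarith)
      have h7 : (3 * (p : ℝ) - 33 / 16) * 1 ≤ (3 * (p : ℝ) - 33 / 16) * m :=
        mul_le_mul_of_nonneg_left hm' (by linarith)
      have h8 : 0 ≤ (S - p) * (S + 2 * p - 1) :=
        mul_nonneg (by linarith) (by linarith)
      nlinarith
    calc ((p : ℝ) - 1) * (p - 2) * (2 * m) = 2 * (((p : ℝ) - 1) * (p - 2) * m) := by ring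
      _ < 2 * (S * (d' + 2)) := by linarith
      _ = S * (2 * (d' + 2)) := by ring
  have hmain : (d' : ℝ) + 3 / 2 - p / 2 + (p - 1) * (p - 2) / (2 * (d' + 2)) < m * (S - ε) := by
    have e1 : (m : ℝ) * (S - ε) = T + 3 / 2 - p / 2 + S / (2 * m) := by rw [hT]; ring
    rw [e1]
    linarith
  have hSε : S - ε ≤ ρ := by linarith
  have hd'good : Good K r m (fun b => d' + 1 - b) ((d' + 2).choose 2) := by
    apply chainFrom_empty hp hch
    · exact lt_of_lt_of_le hmain (mul_le_mul_of_nonneg_left hSε (by linarith))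
    · calc ρ * ((d' : ℝ) + 3 / 2 - p / 2 + (p - 1) * (p - 2) / (2 * (d' + 2)))
          < ρ * (m * (S - ε)) := mul_lt_mul_of_pos_left hmain hρ
        _ = m * ((S - ε) * ρ) := by ring
        _ ≤ m * r := mul_le_mul_of_nonneg_left hSr (by linarith)
        _ = r * m := by ring
  have h8 := Good.shrink (K := K) (d' + 1) (d + 1) (n := fun b => d' + 1 - b)
    (n' := fun b => d + 1 - b) (fun c hc => by omega) (fun c => by omega)
    (by rw [sum_stair]; exact hd'good)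
  rw [sum_stair] at h8
  exact h8

theorem window_regular [CharZero K] (r p m d : ℕ) (hr : 10 ≤ r) (hp2 : 2 ≤ p) (hpr : p ^ 2 ≤ r)
    (hpar : p % 2 = r % 2)
    (h : √(r : ℝ) * (m + 1 / 2) + (√(r : ℝ) - p) / 2 + (m + 1) / (2 * (r - 2) * √(r : ℝ))
      ≤ (d : ℝ) + 3 / 2) :
    Good K r m (fun b => d + 1 - b) (r * (m + 1).choose 2) := by
  have hr' : (10 : ℝ) ≤ r := by exact_mod_cast hr
  have hm' : (0 : ℝ) ≤ m := Nat.cast_nonneg m
  obtain ⟨ρ, hch, hρ1, hρ2⟩ := exists_chain r p hr hp2 hpr hpar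
  have hp : 0 < p := by omega
  have hpR : (0 : ℝ) < p := by exact_mod_cast hp
  have hρ : 0 < ρ := lt_of_lt_of_le hpR hch.le
  obtain ⟨hSρ, hρS, hSr⟩ := rho_bounds hr hρ hρ1 hρ2
  set S := √(r : ℝ) with hS
  have e1 : ((m : ℝ) + 1) / (2 * (r - 2) * S) = (m + 1) * (1 / (2 * (r - 2) * S)) := by ring
  rw [e1] at h
  have h1 : ((m : ℝ) + 1) * ρ ≤ (m + 1) * (S + 1 / (2 * (r - 2) * S)) :=
    mul_le_mul_of_nonneg_left hρS (by linarith)
  have h2 : (m : ℝ) * ρ ≤ d + 3 / 2 + p / 2 - ρ := by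
    have e2 : ((m : ℝ) + 1) * (S + 1 / (2 * (r - 2) * S))
        = S * (m + 1 / 2) + (m + 1) * (1 / (2 * (r - 2) * S)) + S / 2 := by ring
    rw [e2] at h1
    have e3 : ((m : ℝ) + 1) * ρ = m * ρ + ρ := by ring
    rw [e3] at h1
    linarith
  apply chainFrom_regular hp hch h2
  calc (r : ℝ) * m ≤ ρ ^ 2 * m := mul_le_mul_of_nonneg_right hρ1 hm'
    _ = ρ * (m * ρ) := by ring
    _ ≤ ρ * (d + 3 / 2 + p / 2 - ρ) := mul_le_mul_of_nonneg_left h2 hρ.le

end Pool.Agent.Helper42.Game
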