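import Pool.Agent.Helper42.Game
import Pool.Agent.Helper41.FatMain

set_option autoImplicit false

namespace Pool.Agent.Helper42.Game

open Pool.Agent.Helper41.Fat

variable {K : Type*} [Field K]

theorem good_of_step [CharZero K] {r m k R : ℕ} {n n' : ℕ → ℕ} (hs : Step k n n')
    (h : Good K r m n' R) : Good K r m n R := by
  obtain ⟨B, hB⟩ := hs
  exact Good.move k B hB h

/-- A chain of slopes starting at `a`: `ρ ↦ k / ρ` with an integer `k ≥ ρ ^ 2`. -/
inductive Chain (a : ℝ) : ℝ → Prop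
  | base : Chain a a
  | step {ρ ρ' : ℝ} {k : ℕ} : Chain a ρ → ρ ≤ ρ' → ρ * ρ' = k → Chain a ρ'

theorem Chain.le {a ρ : ℝ} (h : Chain a ρ) : a ≤ ρ := by
  induction h with
  | base => exact le_rfl
  | step _ h1 _ ih => exact le_trans ih h1

/-- Rows below the line of slope `ρ ^ 2` and level `D`. -/
def Below (ρ D : ℝ) (n : ℕ → ℕ) : Prop :=
  ∀ c : ℕ, n c ≠ 0 → (n c : ℝ) ≤ ρ * D + 1 - ρ ^ 2 * (c : ℝ)

/-- Rows above the line of slope `ρ ^ 2` and level `D`. -/
def Above (ρ D : ℝ) (n : ℕ → ℕ) : Prop :=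
  ∀ c : ℕ, ρ * D - ρ ^ 2 * (c : ℝ) ≤ n c

theorem below_chain [CharZero K] {r m : ℕ} {a ρ D : ℝ} (ha : 0 < a) (h : Chain a ρ) (B : ℕ)
    (hg : ∀ n : ℕ → ℕ, (∀ c, B ≤ c → n c = 0) → Below ρ D n →
      Good K r m n (∑ c ∈ Finset.range B, n c)) :
    ∀ n : ℕ → ℕ, (∀ c, B ≤ c → n c = 0) → Below a D n →
      Good K r m n (∑ c ∈ Finset.range B, n c) := by
  induction h with
  | base => exact hg
  | @step ρ ρ' k h1 h2 h3 ih =>
    apply ih
    intro n hn hb
    have hpos := lt_of_lt_of_le ha h1.le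
    have h4 := hg (mv k B n) (fun c hc => mv_support k B n c hc)
      (fun i hi => upper_step hpos h3 h2 hb i hi)
    rw [mv_sum] at h4
    exact good_of_step (mv_step k B n) h4

theorem above_chain [CharZero K] {r m R : ℕ} {a ρ D : ℝ} (ha : 0 < a) (h : Chain a ρ)
    (hg : ∀ n : ℕ → ℕ, Above ρ (D - (ρ - a)) n → Good K r m n R) :
    ∀ n : ℕ → ℕ, Above a D n → Good K r m n R := by
  induction h with
  | base => simpa using hg
  | @step ρ ρ' k h1 h2 h3 ih =>
    apply ih
    intro n hn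
    have hpos := lt_of_lt_of_le ha h1.le
    obtain ⟨n', hs, hn'⟩ := lower_step hpos h3 h2 hn
    apply good_of_step hs
    apply hg
    intro i
    have := hn' i
    have e : D - (ρ - a) - (ρ' - ρ) = D - (ρ' - a) := by ring
    rw [e] at this
    exact this

theorem good_of_below {r m : ℕ} {ρ D : ℝ} (hρ : 0 < ρ) (h1 : D < m * ρ)
    (h2 : ρ * D < r * m) (B : ℕ) (n : ℕ → ℕ) (hn : ∀ c, B ≤ c → n c = 0)
    (hb : Below ρ D n) : Good K r m n (∑ c ∈ Finset.range B, n c) := by
  have key : ∀ c : ℕ, n c ≠ 0 → c < m ∧ n c ≤ r * (m - c) := by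
    intro c hc
    have h3 := hb c hc
    have h4 : (1 : ℝ) ≤ n c := by exact_mod_cast Nat.one_le_iff_ne_zero.2 hc
    have h5 : ρ * (ρ * c) ≤ ρ * D := by
      have e : ρ * (ρ * (c : ℝ)) = ρ ^ 2 * c := by ring
      rw [e]; linarith
    have h6 : ρ * c ≤ D := le_of_mul_le_mul_left h5 hρ
    have h7 : (c : ℝ) < m := by
      have : ρ * c < ρ * m := by linarith
      exact lt_of_mul_lt_mul_left this hρ.le
    have h8 : c < m := by exact_mod_cast h7
    refine ⟨h8, ?_⟩
    have h9 : ρ * D - ρ ^ 2 * c < r * (m - c) := by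
      rcases le_total (r : ℝ) (ρ ^ 2) with h | h
      · have : (r : ℝ) * c ≤ ρ ^ 2 * c := mul_le_mul_of_nonneg_right h (Nat.cast_nonneg c)
        have e : (r : ℝ) * (m - c) = r * m - r * c := by ring
        rw [e]
        linarith
      · have h10 : 0 ≤ D - ρ * c := by linarith
        have h11 : (0 : ℝ) < m * ρ - ρ * c := by linarith
        have h12 : ρ * (D - ρ * c) < ρ * (m * ρ - ρ * c) :=
          mul_lt_mul_of_pos_left (by linarith) hρ
        have h13 : ρ ^ 2 * ((m : ℝ) - c) ≤ r * (m - c) :=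
          mul_le_mul_of_nonneg_right h (by linarith)
        have e1 : ρ * (D - ρ * c) = ρ * D - ρ ^ 2 * c := by ring
        have e2 : ρ * (m * ρ - ρ * c) = ρ ^ 2 * ((m : ℝ) - c) := by ring
        rw [e1, e2] at h12
        linarith
    have h14 : (n c : ℝ) < ((r * (m - c) + 1 : ℕ) : ℝ) := by
      push_cast
      rw [Nat.cast_sub h8.le]
      linarith
    have h15 : n c < r * (m - c) + 1 := by exact_mod_cast h14
    omega
  have hf := Good.final (K := K) r m n
  have e : ∑ c ∈ Finset.range B, n c = ∑ c ∈ Finset.range m, min (n c) (r * (m - c)) := by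
    have h1 : ∑ c ∈ Finset.range m, min (n c) (r * (m - c)) = ∑ c ∈ Finset.range m, n c := by
      refine Finset.sum_congr rfl fun c _ => ?_
      by_cases hc : n c = 0
      · rw [hc]; simp
      · exact min_eq_left (key c hc).2
    rw [h1]
    have h2 : ∀ c, c ∉ Finset.range m → n c = 0 := by
      intro c hc
      by_contra h
      exact hc (Finset.mem_range.2 (key c h).1)
    rcases le_total B m with h | h
    · refine Finset.sum_subset (Finset.range_subset_range.2 h) ?_
      intro c _ hc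
      exact hn c (by rw [Finset.mem_range] at hc; omega)
    · symm
      refine Finset.sum_subset (Finset.range_subset_range.2 h) ?_
      intro c _ hc
      exact h2 c hc
  rw [e]
  exact hf

theorem good_of_above {r m : ℕ} {ρ D : ℝ} (hρ : 0 < ρ) (h1 : m * ρ ≤ D)
    (h2 : r * m ≤ ρ * D) (n : ℕ → ℕ) (hb : Above ρ D n) :
    Good K r m n (r * (m + 1).choose 2) := by
  have key : ∀ c : ℕ, c < m → r * (m - c) ≤ n c := by
    intro c hc
    have h3 := hb c
    have hc' : (c : ℝ) ≤ m := by exact_mod_cast hc.le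
    have h4 : ((r * (m - c) : ℕ) : ℝ) ≤ n c := by
      push_cast
      rw [Nat.cast_sub hc.le]
      rcases le_total (r : ℝ) (ρ ^ 2) with h | h
      · have h5 : (r : ℝ) * (m - c) ≤ ρ ^ 2 * (m - c) :=
          mul_le_mul_of_nonneg_right h (by linarith)
        have h6 : ρ * (m * ρ) ≤ ρ * D := mul_le_mul_of_nonneg_left h1 hρ.le
        have e : ρ ^ 2 * ((m : ℝ) - c) = ρ * (m * ρ) - ρ ^ 2 * c := by ring
        rw [e] at h5
        linarith
      · have h5 : ρ ^ 2 * (c : ℝ) ≤ r * c := mul_le_mul_of_nonneg_right h (Nat.cast_nonneg c)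
        have e : (r : ℝ) * (m - c) = r * m - r * c := by ring
        rw [e]
        linarith
    exact_mod_cast h4
  have hf := Good.final (K := K) r m n
  have e : ∑ c ∈ Finset.range m, min (n c) (r * (m - c)) = r * (m + 1).choose 2 := by
    rw [← sum_stair, Finset.mul_sum]
    refine Finset.sum_congr rfl fun c hc => ?_
    exact min_eq_right (key c (Finset.mem_range.1 hc))
  rw [e] at hf
  exact hf

theorem Chain.div {a ρ : ℝ} {k : ℕ} (ha : 0 < a) (h : Chain a ρ) (hk : ρ ^ 2 ≤ k) :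
    Chain a (k / ρ) := by
  have hρ : 0 < ρ := lt_of_lt_of_le ha h.le
  refine Chain.step (k := k) h ?_ ?_
  · rw [le_div_iff₀ hρ, ← sq]; exact hk
  · field_simp

/-- **Emptiness criterion for chains starting at `1`.** -/
theorem chain_empty [CharZero K] {r m d : ℕ} {ρ : ℝ} (h : Chain 1 ρ) (h1 : (d : ℝ) < m * ρ)
    (h2 : ρ * d < r * m) : Good K r m (fun b => d + 1 - b) ((d + 2).choose 2) := by
  have hρ : 0 < ρ := lt_of_lt_of_le one_pos h.le
  have h3 := below_chain (K := K) (r := r) (m := m) (D := (d : ℝ)) one_pos h (d + 1)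
    (fun n hn hb => good_of_below hρ h1 h2 (d + 1) n hn hb) (fun b => d + 1 - b)
    (fun c hc => by omega) ?_
  · rw [sum_stair] at h3
    exact h3
  · intro c hc
    beta_reduce at hc ⊢
    have hc' : c ≤ d + 1 := by omega
    have : ((d + 1 - c : ℕ) : ℝ) = (d : ℝ) + 1 - c := by
      rw [Nat.cast_sub hc']; push_cast; ring
    rw [this]
    linarith

/-- **Regularity criterion for chains starting at `1`.** -/
theorem chain_regular [CharZero K] {r m d : ℕ} {ρ : ℝ} (h : Chain 1 ρ)
    (h1 : m * ρ ≤ d + 2 - ρ) (h2 : r * m ≤ ρ * (d + 2 - ρ)) :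
    Good K r m (fun b => d + 1 - b) (r * (m + 1).choose 2) := by
  have hρ : 0 < ρ := lt_of_lt_of_le one_pos h.le
  have e : (d : ℝ) + 1 - (ρ - 1) = d + 2 - ρ := by ring
  refine above_chain (K := K) (D := (d : ℝ) + 1) one_pos h
    (fun n hn => good_of_above hρ ?_ ?_ n hn) (fun b => d + 1 - b) ?_
  · rw [e]; exact h1
  · rw [e]; exact h2
  · intro c
    have : (d : ℝ) + 1 - c ≤ ((d + 1 - c : ℕ) : ℝ) := by
      rw [sub_le_iff_le_add]
      have : d + 1 ≤ (d + 1 - c) + c := by omega
      exact_mod_cast this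
    linarith

end Pool.Agent.Helper42.Game
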