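import Pool.Agent.Helper7.FatShell
import Pool.Agent.Helper42.Window

set_option autoImplicit false

namespace Pool.Agent.Helper42.AllRWindowChar0

open Pool.Agent.Helper7.Shell Pool.Agent.Helper42.Game Pool.Agent.Helper41.Fat

/-- **Maximal rank outside a short interval of degrees, for all `r ≥ 10` and all `m`.**  Here `p`
is any integer with `2 ≤ p ≤ √r` and `p ≡ r` modulo `2`. -/
theorem result (K : Type*) [Field K] [CharZero K] (r p m d : ℕ) (hr : 10 ≤ r) (hp : 2 ≤ p)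
    (hpr : p ^ 2 ≤ r) (hpar : p % 2 = r % 2) (hm : 1 ≤ m)
    (h : (d : ℝ) + 3 / 2 ≤ √(r : ℝ) * (m + 1 / 2) - (√(r : ℝ) - p) / 2 - √(r : ℝ) / (2 * m)
          - m / (2 * (r - 2) * √(r : ℝ)) ∨
      √(r : ℝ) * (m + 1 / 2) + (√(r : ℝ) - p) / 2 + (m + 1) / (2 * (r - 2) * √(r : ℝ))
        ≤ (d : ℝ) + 3 / 2) :
    ∃ Φ : MvPolynomial (Fin 2 × Idx r m) K, Φ ≠ 0 ∧
      ∀ α : Fin 2 × Idx r m → K, MvPolynomial.eval α Φ ≠ 0 →
        Function.Surjective (psi α) ∧
        Module.finrank K (H0 d α) = (d + 2).choose 2 - r * (m + 1).choose 2 := by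
  apply shell
  rcases h with h | h
  · exact Good.le (min_le_left _ _) (window_empty r p m d hr hp hpr hpar hm h)
  · exact Good.le (min_le_right _ _) (window_regular r p m d hr hp hpr hpar h)

end Pool.Agent.Helper42.AllRWindowChar0
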