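import Pool.Agent.Helper42.Triangle

set_option autoImplicit false

namespace Pool.Agent.Helper42.Canon

open Pool.Agent.Helper41.Fat Pool.Agent.Helper42.Game

variable {K : Type*} [Field K]

/-- The choice of the first move. -/
theorem exists_first (d : ℕ) : ∀ p : ℕ, 2 ≤ p → d + 1 ≤ p ^ 3 →
    ∃ P : ℕ, 2 ≤ P ∧ P ≤ p ∧ P % 2 = p % 2 ∧ d + 1 ≤ P ^ 3 ∧ (P ≤ 3 ∨ (P - 2) ^ 3 ≤ d) := by
  intro p
  induction p using Nat.strong_induction_on with
  | _ p ih =>
    intro hp hd
    by_cases h3 : p ≤ 3
    · exact ⟨p, hp, le_rfl, rfl, hd, Or.inl h3⟩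
    · by_cases h4 : (p - 2) ^ 3 ≤ d
      · exact ⟨p, hp, le_rfl, rfl, hd, Or.inr h4⟩
      · obtain ⟨P, h5, h6, h7, h8, h9⟩ := ih (p - 2) (by omega) (by omega) (by omega)
        exact ⟨P, h5, by omega, by omega, h8, h9⟩

/-- **Exactness in all degrees `d < p ^ 3`.** -/
theorem exact_deg [CharZero K] {r m d p : ℕ} (hp : 2 ≤ p) (hpr : p ^ 2 ≤ r)
    (hpar : p % 2 = r % 2) (hd : d + 1 ≤ p ^ 3) :
    Good K r m (fun b => d + 1 - b) (min ((d + 2).choose 2) (r * (m + 1).choose 2)) := by
  obtain ⟨P, hP2, hPp, hPpar, hdP, hP⟩ := exists_first d p hp hd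
  have hPr : P ^ 2 ≤ r := le_trans (Nat.pow_le_pow_left hPp 2) hpr
  have hPP : P ^ 2 % 2 = r % 2 := by
    rw [Nat.pow_mod, hPpar, hpar]
    rcases Nat.mod_two_eq_zero_or_one r with h | h <;> rw [h]
  obtain ⟨e, he⟩ : ∃ e, P ^ 2 + 2 * e = r := ⟨(r - P ^ 2) / 2, by omega⟩
  set ρ := min ((d + 2).choose 2) (r * (m + 1).choose 2) with hρ
  have hρ1 : 2 * ρ ≤ (d + 1) * (d + 2) := by
    have h1 : ρ ≤ (d + 2).choose 2 := min_le_left _ _
    have h2 := two_mul_choose (d + 1)
    have h3 : (d + 1 + 1).choose 2 = (d + 2).choose 2 := rfl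
    rw [h3] at h2
    have h4 : (d + 1) * (d + 1 + 1) = (d + 1) * (d + 2) := rfl
    omega
  have hρ2 : ρ ≤ r * (m + 1).choose 2 := min_le_right _ _
  obtain ⟨Q, τ, hdQ, hτ⟩ : ∃ Q τ, d + 1 = P * Q + τ ∧ τ < P :=
    ⟨(d + 1) / P, (d + 1) % P, (Nat.div_add_mod _ _).symm, Nat.mod_lt _ (by omega)⟩
  have hQP : Q ≤ P ^ 2 := by
    by_contra hcon
    push Not at hcon
    have h1 : P * (P ^ 2 + 1) ≤ P * Q := Nat.mul_le_mul_left P hcon
    have h2 : P * (P ^ 2 + 1) = P ^ 3 + P := by ring
    omega
  rcases Nat.eq_zero_or_pos Q with hQ0 | hQ0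
  · -- a single row
    subst hQ0
    apply good_start P d (by omega)
    have hlast := strip_last P 0 τ d (by omega) hτ.le
    obtain ⟨b, hb⟩ : ∃ b, τ * (τ + 1) = 2 * b := by
      obtain ⟨w, hw⟩ := (Nat.even_mul_succ_self τ).two_dvd
      exact ⟨w, by nlinarith⟩
    have hbP : b < P ^ 2 := by
      have : τ * (τ + 1) ≤ P * P := Nat.mul_le_mul (by omega) (by omega)
      have h3 : 0 < P * P := by positivity
      rw [sq]; omega
    have h5 : Good K r m (S (P ^ 2) 0 b 0) ρ := by
      apply canon_good hρ2 e _ 0 b 0 he hbP le_rfl (by omega)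
      have : (d + 1) * (d + 2) = 2 * b := by
        rw [show d + 2 = d + 1 + 1 by ring, hdQ, mul_zero, zero_add]; exact hb
      omega
    refine Good.mono ?_ h5
    intro c
    rw [S]
    by_cases hc : c ≤ 0
    · have : c = 0 := by omega
      subst this
      simp
      omega
    · rw [if_neg hc]; exact Nat.zero_le _
  · apply good_triangle hdQ hτ he (by omega) _ _ hρ1 hρ2
    · -- case A
      intro h
      rcases hP with hP | hP
      · interval_cases P
        · interval_cases τ <;> omega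
        · interval_cases τ <;> omega
      · obtain ⟨s, rfl⟩ : ∃ s, P = s + 2 := ⟨P - 2, by omega⟩
        rw [Nat.add_sub_cancel] at hP
        obtain ⟨f, hf⟩ : ∃ f, s + 2 = τ + 1 + f := ⟨s + 2 - τ - 1, by omega⟩
        have e1 : s + 2 - τ = f + 1 := by omega
        have e2 : s + 2 - τ - 1 = f := by omega
        rw [e2, e1]
        -- 2 f ≤ s + 1
        have hf2 : 2 * f ≤ s + 1 := by omega
        have h3 : s ^ 3 + 1 ≤ (s + 2) * Q + τ := by omega
        rcases Nat.lt_or_ge s 3 with hs | hs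
        · have : (f + 1) * f ≤ 2 * 1 := Nat.mul_le_mul (by omega) (by omega)
          omega
        · -- 4 (f+1) f ≤ (s+3)(s+1), and 8 Q ≥ (s+3)(s+1)
          have h4 : (2 * (f + 1)) * (2 * f) ≤ (s + 3) * (s + 1) :=
            Nat.mul_le_mul (by omega) hf2
          have h4' : (2 * (f + 1)) * (2 * f) = 4 * ((f + 1) * f) := by ring
          have h5 : (s + 3) * (s + 1) ≤ 8 * Q := by
            by_contra hcon
            push Not at hcon
            have h6 : (s + 2) * (8 * Q + 1) ≤ (s + 2) * ((s + 3) * (s + 1)) :=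
              Nat.mul_le_mul_left _ hcon
            obtain ⟨t, rfl⟩ : ∃ t, s = t + 3 := ⟨s - 3, by omega⟩
            have h7 : (t + 3 + 2) * (8 * Q + 1) = 8 * ((t + 3 + 2) * Q) + (t + 5) := by ring
            have h8 : (t + 3 + 2) * ((t + 3 + 3) * (t + 3 + 1))
                = t ^ 3 + 15 * t ^ 2 + 74 * t + 120 := by ring
            have h9 : (t + 3) ^ 3 = t ^ 3 + 9 * t ^ 2 + 27 * t + 27 := by ring
            have h10 : 0 ≤ t ^ 3 := Nat.zero_le _
            omega
          omega
    · -- case B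
      intro h
      rcases hP with hP | hP
      · interval_cases P
        · have : τ = 0 := by omega
          subst this
          omega
        · have : τ = 0 := by omega
          subst this
          omega
      · obtain ⟨s, rfl⟩ : ∃ s, P = s + 2 := ⟨P - 2, by omega⟩
        rw [Nat.add_sub_cancel] at hP
        have h3 : s ^ 3 + 1 ≤ (s + 2) * Q + τ := by omega
        have hτ2 : 2 * τ ≤ s := by omega
        rcases Nat.lt_or_ge s 3 with hs | hs
        · interval_cases s
          · have : τ = 0 := by omega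
            subst this
            omega
          · have : τ = 0 := by omega
            subst this
            omega
          · have : τ = 0 ∨ τ = 1 := by omega
            rcases this with h | h <;> subst h <;> omega
        · have h4 : (2 * τ) * (2 * (τ + 1)) ≤ s * (s + 2) :=
            Nat.mul_le_mul hτ2 (by omega)
          have h4' : (2 * τ) * (2 * (τ + 1)) = 4 * (τ * (τ + 1)) := by ring
          obtain ⟨t, rfl⟩ : ∃ t, s = t + 3 := ⟨s - 3, by omega⟩
          have h9 : (t + 3) ^ 3 = t ^ 3 + 9 * t ^ 2 + 27 * t + 27 := by ring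
          have h10 : (t + 3) * (t + 3 + 2) = t ^ 2 + 8 * t + 15 := by ring
          constructor
          · by_contra hcon
            push Not at hcon
            have h5 : 8 * Q + 1 ≤ t ^ 2 + 8 * t + 23 := by omega
            have h6 : (t + 3 + 2) * (8 * Q + 1) ≤ (t + 3 + 2) * (t ^ 2 + 8 * t + 23) :=
              Nat.mul_le_mul_left _ h5
            have h7 : (t + 3 + 2) * (8 * Q + 1) = 8 * ((t + 3 + 2) * Q) + (t + 5) := by ring
            have h8 : (t + 3 + 2) * (t ^ 2 + 8 * t + 23)
                = t ^ 3 + 13 * t ^ 2 + 63 * t + 115 := by ring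
            omega
          · by_contra hcon
            push Not at hcon
            obtain ⟨hc1, hc2⟩ := hcon
            obtain ⟨f, hf⟩ : ∃ f, t + 3 + 2 = τ + 1 + f := ⟨t + 3 + 2 - τ - 1, by omega⟩
            have e1 : t + 3 + 2 - τ = f + 1 := by omega
            have e2 : t + 3 + 2 - τ - 1 = f := by omega
            rw [e2, e1] at hc2
            rw [hf] at hc1
            have h11 : 2 * ((τ + 1 + f) * τ) + (f + 1) * f + (τ + 1 + f)
              = (τ + 1 + f) * (τ + 1 + f) + τ * (τ + 1) := by ring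
            have h5 : 4 * (Q + 1) + 2 ≤ t ^ 2 + 8 * t + 15 := by omega
            have h6 : (t + 3 + 2) * (4 * (Q + 1) + 2) ≤ (t + 3 + 2) * (t ^ 2 + 8 * t + 15) :=
              Nat.mul_le_mul_left _ h5
            have h7 : (t + 3 + 2) * (4 * (Q + 1) + 2)
                = 4 * ((t + 3 + 2) * Q) + (6 * t + 30) := by ring
            have h8 : (t + 3 + 2) * (t ^ 2 + 8 * t + 15)
                = t ^ 3 + 13 * t ^ 2 + 55 * t + 75 := by ring
            omega

end Pool.Agent.Helper42.Canon
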