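import Mathlib

/-!
Choice of a two-speed start `x0 = b/a` whose square is close (modulo even integers) to `r`.
-/

namespace Pool.Agent.Helper42.StartNum

open Finset

theorem circ_up (y : ℕ → ℝ) (w c : ℝ) (T : ℕ)
    (hw : 0 ≤ w) (hstep : ∀ t, t < T → |y (t+1) - y t| ≤ w) (h : y 0 + 1 ≤ y T) :
    ∃ t ≤ T, ∃ z : ℤ, c ≤ y t - z ∧ y t - z ≤ c + w := by
  classical
  set z : ℤ := ⌈y 0 - c⌉ with hz
  have hz1 : y 0 - c ≤ z := Int.le_ceil _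
  have hz2 : (z:ℝ) < y 0 - c + 1 := Int.ceil_lt_add_one _
  have hex : ∃ t, z + c ≤ y t := ⟨T, by linarith⟩
  obtain ⟨t, ht, hmin⟩ : ∃ t, z + c ≤ y t ∧ ∀ u, u < t → y u < z + c := by
    refine ⟨Nat.find hex, Nat.find_spec hex, ?_⟩
    intro u hu
    exact not_le.mp (Nat.find_min hex hu)
  have htT : t ≤ T := by
    by_contra hcon
    push Not at hcon
    have := hmin T hcon
    linarith
  refine ⟨t, htT, z, by linarith, ?_⟩
  rcases Nat.eq_zero_or_pos t with h0 | h0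
  · subst h0
    linarith
  · obtain ⟨u, rfl⟩ : ∃ u, t = u + 1 := ⟨t - 1, by omega⟩
    have h1 := hmin u (by omega)
    have h2 := abs_le.mp (hstep u (by omega))
    linarith [h2.2]

theorem circ_ivt (y : ℕ → ℝ) (w c : ℝ) (T : ℕ)
    (hw : 0 ≤ w) (hstep : ∀ t, t < T → |y (t+1) - y t| ≤ w) (h : 1 ≤ |y T - y 0|) :
    ∃ t ≤ T, ∃ z : ℤ, c ≤ y t - z ∧ y t - z ≤ c + w := by
  rcases le_abs.mp h with h1 | h1
  · exact circ_up y w c T hw hstep (by linarith)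
  · obtain ⟨t, ht, z, h2, h3⟩ := circ_up (fun t => - y t) w (-c - w) T hw
      (by
        intro t ht
        have := hstep t ht
        rw [show - y (t+1) - - y t = -(y (t+1) - y t) by ring, abs_neg]
        exact this) (by linarith)
    refine ⟨t, ht, -z, ?_, ?_⟩
    · push_cast; linarith
    · push_cast; linarith

/-! small real inequalities -/

theorem aux1 (δ : ℝ) (hδ0 : 0 < δ) (hδ1 : δ ≤ 1/8) : δ^2 ≤ 1/64 := by
  have := pow_le_pow_left₀ hδ0.le hδ1 2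
  norm_num at this ⊢
  exact this

theorem auxK (δ K : ℝ) (hδ0 : 0 < δ) (hδ1 : δ ≤ 1/8) (hK : 1024 ≤ K * δ^2) : 65536 ≤ K := by
  have h := aux1 δ hδ0 hδ1
  by_contra hcon
  push Not at hcon
  have h0 : 0 < δ^2 := by positivity
  have h1 : K * δ^2 < 65536 * δ^2 := mul_lt_mul_of_pos_right hcon h0
  linarith

theorem auxa (δ K a : ℝ) (hδ0 : 0 < δ) (hδ1 : δ ≤ 1/8) (hK : 0 < K) (ha : 512 * K ≤ a * δ^2) :
    0 < a ∧ 512 * K ≤ a * δ ∧ 512 * K ≤ a := by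
  have h := aux1 δ hδ0 hδ1
  have h0 : 0 < δ^2 := by positivity
  have hapos : 0 < a := by
    by_contra hcon
    push Not at hcon
    have := mul_nonpos_of_nonpos_of_nonneg hcon h0.le
    linarith
  refine ⟨hapos, ?_, ?_⟩
  · have : a * δ^2 ≤ a * δ := by
      apply mul_le_mul_of_nonneg_left _ hapos.le
      have := mul_le_mul_of_nonneg_left (show δ ≤ 1 by linarith) hδ0.le
      linarith [pow_two δ]
    linarith
  · have : a * δ^2 ≤ a * 1 := by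
      apply mul_le_mul_of_nonneg_left _ hapos.le
      linarith
    linarith

theorem aux_base (δ s a b0 : ℝ) (hδ0 : 0 < δ) (ha : 0 < a) (haδ : 512 ≤ a * δ)
    (hb1 : a * (s - 3*δ/2) ≤ b0) (hb2 : b0 < a * (s - 3*δ/2) + 1) :
    |s - b0/a| ≤ 3*δ/2 := by
  rw [abs_le]
  constructor
  · have h1 : b0/a ≤ s - 3*δ/2 + 1/a := by
      rw [div_le_iff₀ ha]
      have : (s - 3*δ/2 + 1/a) * a = a * (s - 3*δ/2) + 1 := by
        field_simp
      rw [this]; exact hb2.le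
    have h4 : 1/a ≤ 3 * δ := by
      rw [div_le_iff₀ ha]
      linarith
    linarith
  · have : s - 3*δ/2 ≤ b0/a := by
      rw [le_div_iff₀ ha]
      linarith
    linarith

theorem aux_step (δ K k a t γ T : ℝ) (hδ0 : 0 < δ) (hδ1 : δ ≤ 1/8) (hK0 : 0 < K)
    (hK' : 1024 ≤ K * δ^2)
    (ha : 512 * K ≤ a * δ^2) (hk : 1 ≤ k) (hkK : k ≤ K) (ht : 0 ≤ t) (htT : t + 1 ≤ T)
    (hkT : k * T ≤ δ * a/2 - 1) (hγ1 : |γ| * K ≤ 1) :
    |γ + k^2 * (2*t+1)/(2*a^2)| ≤ 3*δ^2/1024 := by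
  obtain ⟨hapos, haδ, ha5⟩ := auxa δ K a hδ0 hδ1 hK0 ha
  have hkt : k * (t + 1) ≤ δ * a/2 := by
    have := mul_le_mul_of_nonneg_left htT (show 0 ≤ k by linarith)
    linarith
  have e2 : |γ + k^2 * (2*t+1)/(2*a^2)| ≤ |γ| + k^2 * (2*t+1)/(2*a^2) := by
    refine (abs_add_le _ _).trans ?_
    rw [abs_of_nonneg (a := k^2 * (2*t+1)/(2*a^2)) (by positivity)]
  refine e2.trans ?_
  have e3 : |γ| ≤ δ^2/1024 := by
    have h1 : |γ| * K * (δ^2) ≤ 1 * δ^2 := mul_le_mul_of_nonneg_right hγ1 (by positivity)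
    have h2 : |γ| * 1024 ≤ |γ| * (K * δ^2) := by
      apply mul_le_mul_of_nonneg_left hK' (abs_nonneg _)
    linarith
  have e4 : k^2 * (2*t+1)/(2*a^2) ≤ 2*δ^2/1024 := by
    rw [div_le_iff₀ (by positivity)]
    have f1 : k^2 * (2*t+1) ≤ K * (δ * a) := by
      have g1 : k * (2*t+1) ≤ δ * a := by
        have : k * (2 * t + 1) = 2 * (k * (t+1)) - k := by ring
        linarith
      calc k^2 * (2*t+1) = k * (k * (2*t+1)) := by ring
        _ ≤ K * (δ * a) := by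
            apply mul_le_mul hkK g1 (by positivity) hK0.le
    have f2 : K * (δ * a) ≤ 2*δ^2/1024 * (2*a^2) := by
      have g2 : 512 * K * (δ * a) ≤ a * δ^2 * (δ * a) := by
        apply mul_le_mul_of_nonneg_right ha (by positivity)
      have g3 : a^2 * δ^2 * δ ≤ a^2 * δ^2 * 1 := by
        apply mul_le_mul_of_nonneg_left (by linarith) (by positivity)
      have g4 : a * δ^2 * (δ * a) = a^2 * δ^2 * δ := by ring
      have g5 : 0 ≤ a^2 * δ^2 := by positivity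
      have g6 : 2*δ^2/1024 * (2*a^2) = a^2 * δ^2 / 256 := by ring
      rw [g6]
      rw [g4] at g2
      linarith
    linarith
  linarith

theorem aux_tot (δ K k a γ T : ℝ) (hδ0 : 0 < δ) (hδ1 : δ ≤ 1/8) (hK1 : 1 ≤ K)
    (ha : 512 * K ≤ a * δ^2) (hk : 1 ≤ k) (hkK : k ≤ K) (hT0 : 0 ≤ T)
    (hkT : k * T ≤ δ * a/2 - 1) (hkT2 : δ * a/2 - 1 < k * T + k) (hγ2 : 8 * K ≤ a * |γ| * δ) :
    1 ≤ |γ * T + k^2 * T^2/(2*a^2)| := by
  obtain ⟨hapos, haδ, ha5⟩ := auxa δ K a hδ0 hδ1 (by linarith) ha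
  have e2 : |γ| * T - k^2 * T^2/(2*a^2) ≤ |γ * T + k^2 * T^2/(2*a^2)| := by
    have h1 := abs_sub_abs_le_abs_sub (γ * T) (-(k^2 * T^2/(2*a^2)))
    rw [sub_neg_eq_add, abs_neg, abs_mul, abs_of_nonneg hT0,
      abs_of_nonneg (a := k^2 * T^2/(2*a^2)) (by positivity)] at h1
    exact h1
  refine le_trans ?_ e2
  have e3 : k^2 * T^2/(2*a^2) ≤ 1/2 := by
    rw [div_le_iff₀ (by positivity)]
    have : (k * T)^2 ≤ (a)^2 := by
      apply pow_le_pow_left₀ (by positivity)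
      have := mul_le_mul_of_nonneg_right (show δ ≤ 1 by linarith) hapos.le
      linarith
    rw [mul_pow] at this
    linarith
  have e4 : 2 ≤ |γ| * T := by
    have f1 : δ * a / 4 ≤ k * T := by
      have h1 : 1 + K ≤ δ * a/4 := by linarith
      linarith
    have f2 : δ * a / 4 ≤ K * T := by
      refine f1.trans ?_
      gcongr
    have f4 : |γ| * (δ * a/4) ≤ |γ| * (K * T) := by
      apply mul_le_mul_of_nonneg_left f2 (abs_nonneg _)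
    have f5 : 2 * K ≤ (|γ| * T) * K := by
      have : |γ| * (δ * a/4) = (a * |γ| * δ)/4 := by ring
      rw [this] at f4
      have : |γ| * (K * T) = |γ| * T * K := by ring
      linarith
    exact le_of_mul_le_mul_right f5 (by linarith)
  linarith

theorem aux_range (δ s X : ℝ) (hδ0 : 0 < δ) (hδ1 : δ ≤ 1/8) (hs : 1 ≤ s)
    (hxlo : s - 3*δ/2 ≤ X) (hxhi : X ≤ s - δ) :
    2 * δ * s - 3*δ^2 ≤ s^2 - X^2 ∧ s^2 - X^2 ≤ 3 * δ * s := by
  constructor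
  · have h1 : 0 ≤ s - X - δ := by linarith
    have h2 : 0 ≤ s + X - (2*s - 3*δ/2) := by linarith
    have h3 : 0 ≤ 2*s - 3*δ/2 := by linarith
    have h4 : 0 ≤ s - X := by linarith
    have h5 := mul_nonneg h1 h3
    have h6 := mul_nonneg h4 h2
    have e : s^2 - X^2 = (s - X - δ) * (2*s - 3*δ/2) + (s - X) * (s + X - (2*s - 3*δ/2))
      + (2 * δ * s - 3*δ^2/2) := by ring
    rw [e]
    have : 0 ≤ δ^2 := by positivity
    linarith
  · have h1 : 0 ≤ 3*δ/2 - (s - X) := by linarith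
    have h2 : 0 ≤ s + X := by linarith
    have h3 : s + X ≤ 2 * s := by linarith
    have h5 := mul_nonneg h1 h2
    have h6 := mul_le_mul_of_nonneg_left h3 (show 0 ≤ 3*δ/2 by linarith)
    have e : s^2 - X^2 = 3*δ/2 * (s + X) - (3*δ/2 - (s - X)) * (s + X) := by ring
    rw [e]
    linarith

theorem aux_fin (δ s D e : ℝ) (hδ0 : 0 < δ) (hδ1 : δ ≤ 1/8) (hs : 1 ≤ s)
    (h1 : 2 * δ * s - 3*δ^2 ≤ D) (h2 : D ≤ 3 * δ * s)
    (h3 : 0 ≤ D - 2 * e) (h4 : D - 2 * e ≤ δ^2/128) :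
    δ * s ≤ 2 * e ∧ 2 * e ≤ 4 * δ * s ∧ 0 ≤ e := by
  have h5 : δ * δ ≤ δ * (s/8) := mul_le_mul_of_nonneg_left (by linarith) hδ0.le
  have h6 : 0 < δ * s := by positivity
  have e1 : δ^2 = δ * δ := by ring
  rw [e1] at h1 h4
  have h7 : δ * (s/8) = δ * s / 8 := by ring
  have h8 : 2 * δ * s = 2 * (δ * s) := by ring
  have h9 : 3 * δ * s = 3 * (δ * s) := by ring
  have h10 : 4 * δ * s = 4 * (δ * s) := by ring
  rw [h7] at h5; rw [h8] at h1; rw [h9] at h2; rw [h10]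
  refine ⟨by linarith, by linarith, by linarith⟩

theorem core (δ s : ℝ) (K C a : ℕ) (hδ0 : 0 < δ) (hδ1 : δ ≤ 1/8) (hK : 1024 / δ^2 ≤ K)
    (hC : 8 * K / δ + 2 * K + 2 ≤ C) (ha : 512 * K / δ^2 ≤ a) (has : (a:ℝ) ≤ s - 1)
    (hP : ∀ k : ℕ, 1 ≤ k → k ≤ K → ∀ j : ℤ, (C:ℝ) ≤ |k * s - j * a|) :
    ∃ b e : ℕ, a^2 ≤ b ∧ δ * s ≤ 2 * e ∧ 2 * (e:ℝ) ≤ 4 * δ * s ∧
      δ^2/512 ≤ s^2 - ((b:ℝ)/a)^2 - 2*e ∧ s^2 - ((b:ℝ)/a)^2 - 2*e ≤ δ^2/128 := by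
  have hδ2 : 0 < δ^2 := by positivity
  have hK' : 1024 ≤ K * δ^2 := by
    rw [div_le_iff₀ hδ2] at hK; exact hK
  have hK1 : (65536:ℝ) ≤ K := auxK δ K hδ0 hδ1 hK'
  have hKpos : (0:ℝ) < K := by linarith
  have hKn : 0 < K := by exact_mod_cast hKpos
  have ha' : 512 * K ≤ a * δ^2 := by
    rw [div_le_iff₀ hδ2] at ha; exact ha
  obtain ⟨hapos, haδ, ha512⟩ := auxa δ K a hδ0 hδ1 hKpos ha'
  have hspos : 0 < s := by linarith
  -- base point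
  obtain ⟨b0, hb0⟩ : ∃ b0 : ℕ, b0 = ⌈(a:ℝ) * (s - 3*δ/2)⌉₊ := ⟨_, rfl⟩
  have hb1 : (a:ℝ) * (s - 3*δ/2) ≤ b0 := by rw [hb0]; exact Nat.le_ceil _
  have hb2 : (b0:ℝ) < (a:ℝ) * (s - 3*δ/2) + 1 := by
    rw [hb0]
    apply Nat.ceil_lt_add_one
    apply mul_nonneg hapos.le
    linarith
  obtain ⟨k, hk0, hkK, hk⟩ := Real.exists_nat_abs_mul_sub_round_le ((b0:ℝ)/a^2) hKn
  have hk1 : (1:ℝ) ≤ k := by exact_mod_cast hk0
  have hkK' : (k:ℝ) ≤ K := by exact_mod_cast hkK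
  obtain ⟨R, hR⟩ : ∃ R : ℤ, R = round ((k:ℝ) * ((b0:ℝ)/a^2)) := ⟨_, rfl⟩
  rw [← hR] at hk
  obtain ⟨γ, hγ⟩ : ∃ γ : ℝ, γ = (k:ℝ) * ((b0:ℝ)/a^2) - R := ⟨_, rfl⟩
  rw [← hγ] at hk
  have hγ1 : |γ| * K ≤ 1 := by
    have h1 : |γ| * (K + 1) ≤ 1 := by
      rw [le_div_iff₀ (by positivity)] at hk
      exact hk
    linarith [abs_nonneg γ]
  -- lower bound on a*|γ|
  have hγ2 : 8 * K ≤ a * |γ| * δ := by
    have h1 := hP k (by omega) hkK R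
    have h2 : (k:ℝ) * s - R * a = a * γ + k * (s - b0/a) := by
      rw [hγ]; field_simp; ring
    have h3 : |s - b0/a| ≤ 3*δ/2 := aux_base δ s a b0 hδ0 hapos (by linarith) hb1 hb2
    have h5 : |(k:ℝ) * s - R * a| ≤ a * |γ| + k * (3*δ/2) := by
      rw [h2]
      calc |a * γ + k * (s - b0/a)| ≤ |a * γ| + |k * (s - b0/a)| := abs_add_le _ _
        _ = a * |γ| + k * |s - b0/a| := by
            rw [abs_mul, abs_mul, Nat.abs_cast, Nat.abs_cast]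
        _ ≤ a * |γ| + k * (3*δ/2) := by
            gcongr
    have h6 : (k:ℝ) * (3*δ/2) ≤ K * 1 :=
      mul_le_mul hkK' (by linarith) (by linarith) hKpos.le
    have h7 : 8 * K / δ ≤ a * |γ| := by linarith
    rw [div_le_iff₀ hδ0] at h7
    exact h7
  -- number of steps
  obtain ⟨T, hT⟩ : ∃ T : ℕ, T = ⌊(δ * a/2 - 1)/k⌋₊ := ⟨_, rfl⟩
  have hkp : (0:ℝ) < k := by linarith
  have hT0 : 0 ≤ (δ * a/2 - 1)/k := by
    apply div_nonneg _ hkp.le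
    linarith
  have hT1 : (T:ℝ) ≤ (δ * a/2 - 1)/k := by rw [hT]; exact Nat.floor_le hT0
  have hT2 : (δ * a/2 - 1)/k < T + 1 := by rw [hT]; exact Nat.lt_floor_add_one _
  have hkT : (k:ℝ) * T ≤ δ * a/2 - 1 := by
    rw [le_div_iff₀ hkp] at hT1; linarith
  have hkT2 : δ * a/2 - 1 < k * T + k := by
    rw [div_lt_iff₀ hkp] at hT2; linarith
  -- the sequence
  obtain ⟨t, htT, z, hz1, hz2⟩ := circ_ivt
    (fun t : ℕ => (s^2 - ((b0:ℝ)/a)^2)/2 - (γ * t + k^2 * t^2/(2*a^2))) (3*δ^2/1024) (δ^2/1024) T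
    (by positivity)
    (by
      intro t ht
      have htT : ((t:ℝ) + 1) ≤ T := by exact_mod_cast ht
      have e1 : (s^2 - ((b0:ℝ)/a)^2)/2 - (γ * ((t+1:ℕ):ℝ) + k^2 * ((t+1:ℕ):ℝ)^2/(2*a^2)) -
          ((s^2 - ((b0:ℝ)/a)^2)/2 - (γ * (t:ℝ) + k^2 * (t:ℝ)^2/(2*a^2)))
          = -(γ + k^2 * (2*t+1)/(2*a^2)) := by
        push_cast; field_simp; ring
      rw [e1, abs_neg]
      exact aux_step δ K k a t γ T hδ0 hδ1 hKpos hK' ha' hk1 hkK' (Nat.cast_nonneg _) htT hkT hγ1)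
    (by
      have e1 : (s^2 - ((b0:ℝ)/a)^2)/2 - (γ * (T:ℝ) + k^2 * (T:ℝ)^2/(2*a^2)) -
          ((s^2 - ((b0:ℝ)/a)^2)/2 - (γ * ((0:ℕ):ℝ) + k^2 * ((0:ℕ):ℝ)^2/(2*a^2)))
          = -(γ * T + k^2 * T^2/(2*a^2)) := by
        push_cast; ring
      rw [e1, abs_neg]
      exact aux_tot δ K k a γ T hδ0 hδ1 (by linarith) ha' hk1 hkK' (Nat.cast_nonneg _) hkT hkT2 hγ2)
  -- conclusion
  have htT' : (t:ℝ) ≤ T := by exact_mod_cast htT
  have hkt : (k:ℝ) * t ≤ δ * a/2 - 1 := (mul_le_mul_of_nonneg_left htT' hkp.le).trans hkT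
  have hkt0 : (0:ℝ) ≤ k * t := by positivity
  have hx : (((b0 + k * t : ℕ):ℝ)/a)^2 = (b0/a)^2 + 2 * (t * (γ + R)) + k^2*t^2/a^2 := by
    rw [hγ]; push_cast; field_simp; ring
  have hxlo : s - 3*δ/2 ≤ ((b0 + k * t : ℕ):ℝ)/a := by
    rw [le_div_iff₀ hapos]; push_cast
    linarith
  have hxhi : ((b0 + k * t : ℕ):ℝ)/a ≤ s - δ := by
    rw [div_le_iff₀ hapos]; push_cast
    linarith
  obtain ⟨X, hX⟩ : ∃ X : ℝ, X = ((b0 + k * t : ℕ):ℝ)/a := ⟨_, rfl⟩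
  rw [← hX] at hx hxlo hxhi
  have hkey : s^2 - X^2 - 2 * ((z - t * R : ℤ):ℝ) =
      2 * ((s^2 - ((b0:ℝ)/a)^2)/2 - (γ * t + k^2 * t^2/(2*a^2)) - z) := by
    rw [hx]; push_cast; field_simp; ring
  obtain ⟨hlo1, hhi1⟩ := aux_range δ s X hδ0 hδ1 (by linarith) hxlo hxhi
  have hD1 : δ^2/512 ≤ s^2 - X^2 - 2 * ((z - t * R : ℤ):ℝ) := by rw [hkey]; linarith
  have hD2 : s^2 - X^2 - 2 * ((z - t * R : ℤ):ℝ) ≤ δ^2/128 := by rw [hkey]; linarith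
  obtain ⟨hf1, hf2, hf3⟩ := aux_fin δ s (s^2 - X^2) ((z - t * R : ℤ):ℝ) hδ0 hδ1 (by linarith)
    hlo1 hhi1 (by linarith) hD2
  have hznn : 0 ≤ z - t * R := by exact_mod_cast hf3
  obtain ⟨e, he⟩ := Int.eq_ofNat_of_zero_le hznn
  have heR : ((z - t * R : ℤ):ℝ) = (e:ℝ) := by rw [he]; norm_cast
  rw [heR] at hf1 hf2 hD1 hD2
  refine ⟨b0 + k * t, e, ?_, hf1, hf2, ?_, ?_⟩
  · have h1 : (a:ℝ)^2 ≤ b0 := by
      refine le_trans ?_ hb1
      rw [pow_two]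
      apply mul_le_mul_of_nonneg_left _ hapos.le
      linarith
    have h2 : a^2 ≤ b0 := by exact_mod_cast h1
    exact h2.trans (Nat.le_add_right _ _)
  · rw [← hX]; linarith
  · rw [← hX]; linarith

end Pool.Agent.Helper42.StartNum
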