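import Mathlib
import Pool.Agent.Helper42.StartNum

/-!
Existence of a suitable denominator `a` (a prime avoiding the multiples of `√r`), and of the start.
-/

namespace Pool.Agent.Helper42.StartNum

open Finset

theorem good_prime (K C L : ℕ) (hK : 1 ≤ K) : ∃ r0 : ℕ, ∀ r : ℕ, r0 ≤ r → ∃ a : ℕ,
    L ≤ a ∧ a^5 ≤ r ∧
    ∀ k : ℕ, 1 ≤ k → k ≤ K → ∀ j : ℤ, (C:ℝ) ≤ |k * √(r:ℝ) - j * a| := by
  classical
  obtain ⟨N0, hN0⟩ : ∃ N0, N0 = K * (2*C+1) := ⟨_, rfl⟩
  obtain ⟨M, hM⟩ : ∃ M, M = 4 * N0 + 1 := ⟨_, rfl⟩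
  obtain ⟨X, hX⟩ : ∃ X, X = 8 * K + C + 2^(5*M) + L + 1 := ⟨_, rfl⟩
  refine ⟨X^6, ?_⟩
  intro r hr
  obtain ⟨A, hA⟩ : ∃ A, A = Nat.findGreatest (fun A => A^6 ≤ r) r := ⟨_, rfl⟩
  have hXr : X ≤ r := (Nat.le_self_pow (by norm_num) X).trans hr
  have hXA : X ≤ A := by
    rw [hA]; exact Nat.le_findGreatest hXr hr
  have hA6 : A^6 ≤ r := by
    rw [hA]
    exact Nat.findGreatest_spec (P := fun A => A^6 ≤ r) hXr hr
  have hA7 : r < (A+1)^6 := by
    by_contra hcon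
    push Not at hcon
    have h1 : A + 1 ≤ r := (Nat.le_self_pow (by norm_num) (A+1)).trans hcon
    have h2 : A + 1 ≤ Nat.findGreatest (fun A => A^6 ≤ r) r := Nat.le_findGreatest h1 hcon
    omega
  have hXA1 : 8 * K + C + L + 1 ≤ A := by
    have : 0 < 2^(5*M) := by positivity
    omega
  have hA2 : 2^(5*M) ≤ A := by
    refine le_trans ?_ hXA
    rw [hX]
    have : 2^(5*M) ≤ 8 * K + C + 2^(5*M) := Nat.le_add_left _ _
    omega
  have hApos : 0 < A := by omega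
  have hA1 : 8 * K + C ≤ A := by omega
  have hprime : ∀ i : ℕ, ∃ p, Nat.Prime p ∧ 2^i * A < p ∧ p ≤ 2 * (2^i * A) := by
    intro i
    apply Nat.exists_prime_lt_and_le_two_mul
    positivity
  choose p hp hp1 hp2 using hprime
  have hmono : StrictMono p := by
    apply strictMono_nat_of_lt_succ
    intro i
    have h1 := hp2 i
    have h2 := hp1 (i+1)
    rw [pow_succ] at h2
    calc p i ≤ 2 * (2^i * A) := h1
      _ = 2^i * 2 * A := by ring
      _ < p (i+1) := h2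
  obtain ⟨P, hPdef⟩ : ∃ P : ℕ, P = ∏ k ∈ Icc 1 K, ∏ i ∈ range (2*C+1),
    (⌊(k:ℝ) * √(r:ℝ)⌋₊ + i - C) := ⟨_, rfl⟩
  have hs0 : (0:ℝ) ≤ √(r:ℝ) := Real.sqrt_nonneg _
  have hsC : ((C:ℝ) + 1) ≤ √(r:ℝ) := by
    apply Real.le_sqrt_of_sq_le
    have h1 : (C+1)^2 ≤ r := by
      calc (C+1)^2 ≤ A^2 := Nat.pow_le_pow_left (by omega) 2
        _ ≤ A^6 := Nat.pow_le_pow_right hApos (by norm_num)
        _ ≤ r := hA6
    exact_mod_cast h1
  have hsA : √(r:ℝ) ≤ 8 * (A:ℝ)^3 := by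
    rw [Real.sqrt_le_left (by positivity)]
    have h1 : r ≤ (8 * A^3)^2 := by
      calc r ≤ (A+1)^6 := hA7.le
        _ ≤ (2*A)^6 := Nat.pow_le_pow_left (by omega) 6
        _ = (8 * A^3)^2 := by ring
    exact_mod_cast h1
  have hks : ∀ k : ℕ, 1 ≤ k → (C:ℝ) + 1 ≤ k * √(r:ℝ) := by
    intro k hk
    have : (1:ℝ) ≤ k := by exact_mod_cast hk
    calc (C:ℝ) + 1 ≤ 1 * √(r:ℝ) := by rw [one_mul]; exact hsC
      _ ≤ k * √(r:ℝ) := mul_le_mul_of_nonneg_right this hs0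
  have hPpos : 0 < P := by
    rw [hPdef]
    apply Finset.prod_pos
    intro k hk
    apply Finset.prod_pos
    intro i _
    have h1 : C + 1 ≤ ⌊(k:ℝ) * √(r:ℝ)⌋₊ := by
      apply Nat.le_floor
      push_cast
      exact hks k (Finset.mem_Icc.mp hk).1
    omega
  have hPle : P ≤ (A^4)^N0 := by
    rw [hPdef]
    calc ∏ k ∈ Icc 1 K, ∏ i ∈ range (2*C+1), (⌊(k:ℝ) * √(r:ℝ)⌋₊ + i - C)
        ≤ ∏ k ∈ Icc 1 K, ∏ i ∈ range (2*C+1), A^4 := by
          apply Finset.prod_le_prod' 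
          intro k hk
          apply Finset.prod_le_prod'
          intro i hi
          have h1 : ⌊(k:ℝ) * √(r:ℝ)⌋₊ ≤ 8 * K * A^3 := by
            apply Nat.floor_le_of_le
            push_cast
            have : (k:ℝ) ≤ K := by exact_mod_cast (Finset.mem_Icc.mp hk).2
            calc (k:ℝ) * √(r:ℝ) ≤ K * (8 * (A:ℝ)^3) :=
                  mul_le_mul this hsA hs0 (by positivity)
              _ = 8 * K * (A:ℝ)^3 := by ring
          have h2 : i ≤ 2 * C := by have := Finset.mem_range.mp hi; omega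
          have h3 : 1 ≤ A^3 := Nat.one_le_pow _ _ hApos
          calc ⌊(k:ℝ) * √(r:ℝ)⌋₊ + i - C ≤ 8 * K * A^3 + C := by omega
            _ ≤ 8 * K * A^3 + C * A^3 := by
                have := Nat.le_mul_of_pos_right C h3
                omega
            _ = (8 * K + C) * A^3 := by ring
            _ ≤ A * A^3 := Nat.mul_le_mul_right _ hA1
            _ = A^4 := by ring
      _ = (A^4)^N0 := by
          rw [Finset.prod_const, Finset.prod_const, Nat.card_Icc, Finset.card_range, ← pow_mul,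
            hN0]
          congr 1
          rw [show K + 1 - 1 = K by omega]; ring
  have hex : ∃ i ∈ range M, ¬ p i ∣ P := by
    by_contra hcon
    push Not at hcon
    have h1 : ∏ q ∈ (range M).image p, q ∣ P := by
      apply Finset.prod_primes_dvd
      · intro q hq
        obtain ⟨i, _, rfl⟩ := Finset.mem_image.mp hq
        exact (hp i).prime
      · intro q hq
        obtain ⟨i, hi, rfl⟩ := Finset.mem_image.mp hq
        exact hcon i hi
    rw [Finset.prod_image (fun x _ y _ h => hmono.injective h)] at h1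
    have h2 : A^M ≤ ∏ i ∈ range M, p i := by
      calc A^M = ∏ i ∈ range M, A := by rw [Finset.prod_const, Finset.card_range]
        _ ≤ ∏ i ∈ range M, p i := by
            apply Finset.prod_le_prod'
            intro i _
            have h3 := hp1 i
            have h4 : A ≤ 2^i * A := Nat.le_mul_of_pos_left A (by positivity)
            omega
    have h3 := Nat.le_of_dvd hPpos h1
    have h4 : A^M ≤ A^(4*N0) := by
      rw [pow_mul]; exact h2.trans (h3.trans hPle)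
    have hA2' : 1 < A := by omega
    have h5 := (Nat.pow_le_pow_iff_right hA2').mp h4
    omega
  obtain ⟨i, hi, hndvd⟩ := hex
  have hi' : i < M := Finset.mem_range.mp hi
  refine ⟨p i, ?_, ?_, ?_⟩
  · have h3 := hp1 i
    have h4 : A ≤ 2^i * A := Nat.le_mul_of_pos_left A (by positivity)
    omega
  · have h1 : p i ≤ 2^M * A := by
      calc p i ≤ 2 * (2^i * A) := hp2 i
        _ = 2^(i+1) * A := by ring
        _ ≤ 2^M * A := by
            apply Nat.mul_le_mul_right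
            exact Nat.pow_le_pow_right (by norm_num) (by omega)
    calc (p i)^5 ≤ (2^M * A)^5 := Nat.pow_le_pow_left h1 5
      _ = 2^(5*M) * A^5 := by rw [mul_pow, ← pow_mul, Nat.mul_comm M 5]
      _ ≤ A * A^5 := Nat.mul_le_mul_right _ hA2
      _ = A^6 := by ring
      _ ≤ r := hA6
  · intro k hk1 hkK j
    by_contra hcon
    push Not at hcon
    rw [abs_lt] at hcon
    obtain ⟨hc1, hc2⟩ := hcon
    have h1 := hks k hk1
    have hjpos : (0:ℝ) < j * p i := by linarith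
    have hppos : (0:ℝ) < p i := by exact_mod_cast (hp i).pos
    have hj0 : (0:ℝ) < j := by
      by_contra h
      push Not at h
      have := mul_nonpos_of_nonpos_of_nonneg h hppos.le
      linarith
    have hj1 : 0 < j := by exact_mod_cast hj0
    obtain ⟨n, rfl⟩ := Int.eq_ofNat_of_zero_le hj1.le
    apply hndvd
    obtain ⟨f, hf⟩ : ∃ f : ℕ, f = ⌊(k:ℝ) * √(r:ℝ)⌋₊ := ⟨_, rfl⟩
    have hf1 : (f:ℝ) ≤ k * √(r:ℝ) := by
      rw [hf]; exact Nat.floor_le (by positivity)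
    have hf2 : k * √(r:ℝ) < (f:ℝ) + 1 := by
      rw [hf]; exact Nat.lt_floor_add_one _
    rw [Int.cast_natCast] at hc1 hc2
    have g1 : f < n * p i + C := by
      have : (f:ℝ) < n * p i + C := by
        linarith
      exact_mod_cast this
    have g2 : n * p i < f + 1 + C := by
      have : (n:ℝ) * p i < f + 1 + C := by
        linarith
      exact_mod_cast this
    have g3 : f + (n * p i + C - f) - C = n * p i := by omega
    have d1 : p i ∣ (f + (n * p i + C - f) - C) := by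
      rw [g3]; exact Dvd.intro_left n rfl
    refine d1.trans ?_
    rw [hPdef, hf]
    refine Dvd.dvd.trans (b := ∏ i ∈ range (2*C+1), (⌊(k:ℝ) * √(r:ℝ)⌋₊ + i - C))
      (Finset.dvd_prod_of_mem (s := range (2*C+1))
      (fun i => ⌊(k:ℝ) * √(r:ℝ)⌋₊ + i - C) (a := n * p i + C - ⌊(k:ℝ) * √(r:ℝ)⌋₊) ?_) ?_
    · rw [Finset.mem_range]; omega
    · exact Finset.dvd_prod_of_mem
        (fun k : ℕ => ∏ i ∈ range (2*C+1), (⌊(k:ℝ) * √(r:ℝ)⌋₊ + i - C))
        (Finset.mem_Icc.mpr ⟨hk1, hkK⟩)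

theorem exists_start (δ : ℝ) (hδ0 : 0 < δ) (hδ1 : δ ≤ 1/8) :
    ∃ r0 : ℕ, ∀ r : ℕ, r0 ≤ r → ∃ a b e : ℕ, 0 < a ∧ a^5 ≤ r ∧ a^2 ≤ b ∧
      δ * √(r:ℝ) ≤ 2 * e ∧ 2 * (e:ℝ) ≤ 4 * δ * √(r:ℝ) ∧
      δ^2/512 ≤ (r:ℝ) - ((b:ℝ)/a)^2 - 2*e ∧ (r:ℝ) - ((b:ℝ)/a)^2 - 2*e ≤ δ^2/128 := by
  obtain ⟨K, hK⟩ : ∃ K : ℕ, K = ⌈1024 / δ^2⌉₊ + 1 := ⟨_, rfl⟩
  obtain ⟨C, hC⟩ : ∃ C : ℕ, C = ⌈8 * K / δ + 2 * K + 2⌉₊ := ⟨_, rfl⟩
  obtain ⟨L, hL⟩ : ∃ L : ℕ, L = ⌈512 * K / δ^2⌉₊ + 2 := ⟨_, rfl⟩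
  have hK1 : 1024 / δ^2 ≤ K := by
    rw [hK]; push_cast
    linarith [Nat.le_ceil (1024 / δ^2)]
  have hC1 : 8 * K / δ + 2 * K + 2 ≤ C := by
    rw [hC]; exact Nat.le_ceil _
  have hL1 : 512 * K / δ^2 ≤ L := by
    rw [hL]; push_cast
    linarith [Nat.le_ceil (512 * K / δ^2)]
  obtain ⟨r0, hr0⟩ := good_prime K C L (by omega)
  refine ⟨r0, ?_⟩
  intro r hr
  obtain ⟨a, haL, ha5, hP⟩ := hr0 r hr
  have ha2 : 2 ≤ a := by omega
  have haR : (L:ℝ) ≤ a := by exact_mod_cast haL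
  have has : (a:ℝ) ≤ √(r:ℝ) - 1 := by
    have h1 : ((a:ℝ) + 1) ≤ √(r:ℝ) := by
      apply Real.le_sqrt_of_sq_le
      have h2 : (a+1)^2 ≤ r := by
        calc (a+1)^2 ≤ (2*a)^2 := Nat.pow_le_pow_left (by omega) 2
          _ = 4 * a^2 := by ring
          _ ≤ a^3 * a^2 := by
              apply Nat.mul_le_mul_right
              have := Nat.pow_le_pow_left ha2 3
              omega
          _ = a^5 := by ring
          _ ≤ r := ha5
      exact_mod_cast h2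
    linarith
  obtain ⟨b, e, h1, h2, h3, h4, h5⟩ := core δ (√(r:ℝ)) K C a hδ0 hδ1 hK1 hC1 (by linarith) has hP
  rw [Real.sq_sqrt (Nat.cast_nonneg r)] at h4 h5
  exact ⟨a, b, e, by omega, ha5, h1, h2, h3, h4, h5⟩

end Pool.Agent.Helper42.StartNum
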