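import Pool.Agent.Helper42.StartThree
import Pool.Agent.Helper42.StartExists
import Pool.Agent.Helper42.Exact

set_option autoImplicit false

/-!
The window of width `ε` (for `r` large): assembly of the two-speed start, of its choice, and of the
fine tuning of the chain.
-/

namespace Pool.Agent.Helper42.Eps

open Pool.Agent.Helper41.Fat Pool.Agent.Helper42.Game Pool.Agent.Helper42.Canon

/-- The fine tuning statement. -/
def FineTune (δ : ℝ) (ν : ℕ) : Prop :=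
  ∃ r0 : ℕ, ∀ r : ℕ, r0 ≤ r → ∀ x0 : ℝ, 1 ≤ x0 → ∀ e : ℕ, δ * √(r : ℝ) ≤ 2 * e →
    2 * (e : ℝ) ≤ 4 * δ * √(r : ℝ) → δ ^ 2 / 512 ≤ (r : ℝ) - x0 ^ 2 - 2 * e →
    (r : ℝ) - x0 ^ 2 - 2 * e ≤ δ ^ 2 / 128 →
    ∃ x : ℝ, Chain x0 x ∧ Real.log r - 1 / (r : ℝ) ^ ν ≤ 2 * Real.log x ∧
      2 * Real.log x ≤ Real.log r

variable {K : Type*} [Field K]

/-- All degrees, for small `m`. -/
theorem exact_small [CharZero K] {r m d p : ℕ} (hp : 2 ≤ p) (hpr : p ^ 2 ≤ r)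
    (hpar : p % 2 = r % 2) (h : r * (m * (m + 1)) ≤ p ^ 3 * (p ^ 3 + 1)) :
    Good K r m (fun b => d + 1 - b) (min ((d + 2).choose 2) (r * (m + 1).choose 2)) := by
  rcases Nat.lt_or_ge d (p ^ 3) with hd | hd
  · exact exact_deg hp hpr hpar hd
  · have h8 : 0 < p ^ 3 := by positivity
    have h1 := exact_deg (K := K) (m := m) (d := p ^ 3 - 1) hp hpr hpar (by omega)
    have h2 : r * (m + 1).choose 2 ≤ (p ^ 3 - 1 + 2).choose 2 := by
      have h3 := two_mul_choose m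
      have h4 := two_mul_choose (p ^ 3)
      have h5 : p ^ 3 - 1 + 2 = p ^ 3 + 1 := by omega
      rw [h5]
      have h6 : 2 * (r * (m + 1).choose 2) = r * (m * (m + 1)) := by
        rw [← h3]; ring
      omega
    rw [min_eq_right h2] at h1
    apply Good.le (min_le_right _ _)
    exact Good.mono (fun i => by omega) h1

/-- `x` is very close to `√r`. -/
theorem tuned_bounds {r N : ℕ} {x : ℝ} (hr : 16 ≤ r) (hx : 0 < x)
    (h1 : Real.log r - 1 / (r : ℝ) ^ (N + 1) ≤ 2 * Real.log x)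
    (h2 : 2 * Real.log x ≤ Real.log r) :
    x ≤ √(r : ℝ) ∧ √(r : ℝ) - 1 / (r : ℝ) ^ N / 2 ≤ x ∧
      (r : ℝ) ≤ x * (√(r : ℝ) + 1 / (r : ℝ) ^ N) := by
  have hr' : (16 : ℝ) ≤ r := by exact_mod_cast hr
  have hr0 : (0 : ℝ) < r := by linarith
  have hx2 : 2 * Real.log x = Real.log (x ^ 2) := by rw [Real.log_pow]; push_cast; ring
  rw [hx2] at h1 h2
  have hxp : 0 < x ^ 2 := by positivity
  have h3 : x ^ 2 ≤ r := (Real.log_le_log_iff hxp hr0).mp h2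
  obtain ⟨τ, hτ⟩ : ∃ τ : ℝ, τ = 1 / (r : ℝ) ^ N := ⟨_, rfl⟩
  have hτ0 : 0 < τ := by rw [hτ]; positivity
  have hτ1 : τ ≤ 1 := by
    rw [hτ, div_le_one (by positivity)]
    exact one_le_pow₀ (by linarith)
  have hrτ : (r : ℝ) * (1 / (r : ℝ) ^ (N + 1)) = τ := by
    rw [hτ, pow_succ]; field_simp
  have h4 : (r : ℝ) - τ ≤ x ^ 2 := by
    have h5 : Real.log r + -(1 / (r : ℝ) ^ (N + 1)) ≤ Real.log (x ^ 2) := by linarith
    have h6 := Real.exp_le_exp.mpr h5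
    rw [Real.exp_add, Real.exp_log hr0, Real.exp_log hxp] at h6
    have h7 := Real.one_sub_le_exp_neg (1 / (r : ℝ) ^ (N + 1))
    have h8 := mul_le_mul_of_nonneg_left h7 hr0.le
    have h9 : (r : ℝ) * (1 - 1 / (r : ℝ) ^ (N + 1)) = r - τ := by rw [mul_sub, hrτ, mul_one]
    linarith
  rw [← hτ]
  obtain ⟨S, hS⟩ : ∃ S : ℝ, S = √(r : ℝ) := ⟨_, rfl⟩
  have hS2 : S ^ 2 = r := by rw [hS]; exact Real.sq_sqrt hr0.le
  have hS4 : 4 ≤ S := by
    rw [hS]; apply Real.le_sqrt_of_sq_le; linarith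
  rw [← hS, ← hS2]
  rw [← hS2] at h3 h4
  have h10 : S - τ / 2 ≤ x := by
    refine le_of_sq_le_sq ?_ hx.le
    refine le_trans ?_ h4
    have e1 : (S - τ / 2) ^ 2 = S ^ 2 - τ - (τ * (S - 1 - τ / 4)) := by ring
    have : 0 ≤ τ * (S - 1 - τ / 4) := mul_nonneg hτ0.le (by linarith)
    linarith
  refine ⟨le_of_sq_le_sq h3 (by linarith), h10, ?_⟩
  have h11 : (S - τ / 2) * (S + τ) ≤ x * (S + τ) := mul_le_mul_of_nonneg_right h10 (by linarith)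
  have e1 : (S - τ / 2) * (S + τ) = S ^ 2 + τ / 2 * (S - τ) := by ring
  have : 0 ≤ τ / 2 * (S - τ) := mul_nonneg (by linarith) (by linarith)
  linarith

/-- Bounds on the start. -/
theorem start_bounds {r a : ℕ} {δ x0 e : ℝ} (hδ0 : 0 < δ) (hδ1 : δ ≤ 1 / 16)
    (hS : 1024 / δ ^ 5 ≤ √(r : ℝ)) (ha : 0 < a) (ha5 : a ^ 5 ≤ r) (hx0 : 0 < x0)
    (he2 : 2 * e ≤ 4 * δ * √(r : ℝ)) (h0 : δ * √(r : ℝ) ≤ 2 * e)
    (h1 : δ ^ 2 / 512 ≤ (r : ℝ) - x0 ^ 2 - 2 * e)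
    (h2 : (r : ℝ) - x0 ^ 2 - 2 * e ≤ δ ^ 2 / 128) :
    x0 ≤ √(r : ℝ) ∧ √(r : ℝ) - 5 * δ ≤ x0 ∧ 1 ≤ x0 ∧ 4 * (a : ℝ) ^ 2 ≤ δ * √(r : ℝ) ∧
      ((a : ℝ) ^ 2 + 1) / x0 ≤ δ ∧ (a : ℝ) ^ 2 / (8 * x0) ≤ δ ∧ (a : ℝ) ≤ √(r : ℝ) / 64 := by
  have hr0 : (0 : ℝ) ≤ r := Nat.cast_nonneg r
  obtain ⟨S, hSd⟩ : ∃ S : ℝ, S = √(r : ℝ) := ⟨_, rfl⟩
  have hS2 : S ^ 2 = r := by rw [hSd]; exact Real.sq_sqrt hr0
  rw [← hSd] at hS he2 h0 ⊢
  have hS1 : 1024 ≤ S := by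
    refine le_trans ?_ hS
    rw [le_div_iff₀ (by positivity)]
    have : δ ^ 5 ≤ 1 := pow_le_one₀ hδ0.le (by linarith)
    linarith
  have hS0 : 0 < S := by linarith
  have hδS : 1024 ≤ S * δ ^ 5 := by rwa [div_le_iff₀ (by positivity)] at hS
  have ha1 : (1 : ℝ) ≤ a := by exact_mod_cast ha
  have haR : (a : ℝ) ^ 5 ≤ S ^ 2 := by rw [hS2]; exact_mod_cast ha5
  have ha4 : 4 * (a : ℝ) ^ 2 ≤ δ * S := by
    have h3 : (4 * (a : ℝ) ^ 2) ^ 5 ≤ (δ * S) ^ 5 := by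
      calc (4 * (a : ℝ) ^ 2) ^ 5 = 1024 * ((a : ℝ) ^ 5) ^ 2 := by ring
        _ ≤ 1024 * (S ^ 2) ^ 2 := by
            apply mul_le_mul_of_nonneg_left _ (by norm_num)
            exact pow_le_pow_left₀ (by positivity) haR 2
        _ ≤ (S * δ ^ 5) * (S ^ 2) ^ 2 := mul_le_mul_of_nonneg_right hδS (by positivity)
        _ = (δ * S) ^ 5 := by ring
    exact le_of_pow_le_pow_left₀ (by norm_num) (by positivity) h3
  have hx0S : x0 ≤ S := by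
    refine le_of_sq_le_sq ?_ hS0.le
    rw [hS2]
    have : 0 ≤ δ ^ 2 / 512 := by positivity
    have : 0 < δ * S := by positivity
    linarith
  have hδ2 : δ ^ 2 ≤ δ := by
    have := mul_le_mul_of_nonneg_left (show δ ≤ 1 by linarith) hδ0.le
    linarith [pow_two δ]
  have hlow : S - 5 * δ ≤ x0 := by
    by_contra hcon
    push Not at hcon
    have h3 : x0 * S ≤ (S - 5 * δ) * S := mul_le_mul_of_nonneg_right hcon.le hS0.le
    have h4 : x0 ^ 2 ≤ x0 * S := by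
      rw [pow_two]; exact mul_le_mul_of_nonneg_left hx0S hx0.le
    have h5 : (S - 5 * δ) * S = S ^ 2 - 5 * (δ * S) := by ring
    have h6 : δ * 1024 ≤ δ * S := mul_le_mul_of_nonneg_left hS1 hδ0.le
    have h7 : 4 * δ * S = 4 * (δ * S) := by ring
    rw [← hS2] at h2
    linarith
  have hx0h : S / 2 ≤ x0 := by linarith
  have ha2 : (1 : ℝ) ≤ (a : ℝ) ^ 2 := one_le_pow₀ ha1
  have hδx : δ * (S / 2) ≤ δ * x0 := mul_le_mul_of_nonneg_left hx0h hδ0.le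
  refine ⟨hx0S, hlow, by linarith, ha4, ?_, ?_, ?_⟩
  · rw [div_le_iff₀ hx0]
    linarith
  · rw [div_le_iff₀ (by positivity)]
    linarith
  · have h8 : (a : ℝ) ≤ a ^ 2 := by
      rw [pow_two]; exact le_mul_of_one_le_left (by positivity) ha1
    have h9 : δ * S ≤ 1 / 16 * S := mul_le_mul_of_nonneg_right hδ1 hS0.le
    linarith

theorem eps_empty [CharZero K] {r m d a b : ℕ} {ε δ τ x : ℝ} (hδ0 : 0 < δ)
    (hεδ : 16 * δ ≤ ε) (hε1 : ε ≤ 1)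
    (hτ0 : 0 ≤ τ) (hτ1 : τ ≤ 1) (hS : 4 ≤ √(r : ℝ)) (hm : √(r : ℝ) ≤ m * δ)
    (ha : 0 < a) (hab : a ^ 2 ≤ b) (hx0S : (b : ℝ) / a ≤ √(r : ℝ))
    (hlow : √(r : ℝ) - 5 * δ ≤ (b : ℝ) / a)
    (ha2 : ((a : ℝ) ^ 2 + 1) / ((b : ℝ) / a) ≤ δ) (haS : (a : ℝ) ≤ √(r : ℝ) / 64)
    (hch : Chain ((b : ℝ) / a) x) (hxS : x ≤ √(r : ℝ)) (hxl : √(r : ℝ) - τ / 2 ≤ x)
    (h : (d : ℝ) + 3 / 2 ≤ √(r : ℝ) * (m + 1 / 2) - ε - m * τ) :
    Good K r m (fun b => d + 1 - b) ((d + 2).choose 2) := by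
  obtain ⟨S, hSd⟩ : ∃ S : ℝ, S = √(r : ℝ) := ⟨_, rfl⟩
  have hS2 : S ^ 2 = r := by rw [hSd]; exact Real.sq_sqrt (Nat.cast_nonneg r)
  rw [← hSd] at hS hm hx0S hlow haS hxS hxl h
  have hS0 : 0 < S := by linarith
  have hmpos : (0 : ℝ) < m := by
    by_contra hcon
    push Not at hcon
    have := mul_nonpos_of_nonpos_of_nonneg hcon hδ0.le
    linarith
  have hm1 : (1 : ℝ) ≤ m := by
    have : 0 < m := by exact_mod_cast hmpos
    exact_mod_cast this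
  have ha0 : (0 : ℝ) < a := by exact_mod_cast ha
  have hb0 : 0 < b := lt_of_lt_of_le (by positivity) hab
  have hb0' : (0 : ℝ) < b := by exact_mod_cast hb0
  obtain ⟨x0, hx0d⟩ : ∃ x0 : ℝ, x0 = (b : ℝ) / a := ⟨_, rfl⟩
  have hx0 : 0 < x0 := by rw [hx0d]; positivity
  have hx : 0 < x := lt_of_lt_of_le (by rw [hx0d] at hx0; exact hx0) hch.le
  obtain ⟨T, hT⟩ : ∃ T : ℝ, T = S * ((m : ℝ) + 1 / 2) - ε - m * τ - 3 / 2 := ⟨_, rfl⟩
  have hdT : (d : ℝ) ≤ T := by rw [hT]; linarith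
  have hT0 : 0 ≤ T := le_trans (Nat.cast_nonneg d) hdT
  obtain ⟨d', hd'⟩ : ∃ d' : ℕ, d' = ⌊T⌋₊ := ⟨_, rfl⟩
  have hdd' : d ≤ d' := by rw [hd']; exact Nat.le_floor hdT
  have hd'1 : (d' : ℝ) ≤ T := by rw [hd']; exact Nat.floor_le hT0
  have hd'2 : T < d' + 1 := by rw [hd']; exact Nat.lt_floor_add_one T
  have hmτ : (m : ℝ) * τ ≤ m * 1 := mul_le_mul_of_nonneg_left hτ1 hmpos.le
  have hSm : 4 * (m : ℝ) ≤ S * m := mul_le_mul_of_nonneg_right hS hmpos.le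
  have hden : S * m / 2 ≤ (d' : ℝ) + 3 / 2 - a / 2 := by
    rw [hT] at hd'2
    have e1 : S * ((m : ℝ) + 1 / 2) = S * m + S / 2 := by ring
    rw [e1] at hd'2
    linarith
  have hdenpos : 0 < S * m / 2 := by positivity
  have hloss : x0 ^ 2 / (2 * ((d' : ℝ) + 3 / 2 - a / 2)) ≤ δ := by
    rw [div_le_iff₀ (by linarith)]
    have h1 : x0 ^ 2 ≤ S ^ 2 := pow_le_pow_left₀ hx0.le (by rw [hx0d]; exact hx0S) 2
    have h2 : S ^ 2 ≤ δ * (S * m) := by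
      have := mul_le_mul_of_nonneg_left hm hS0.le
      calc S ^ 2 = S * S := by ring
        _ ≤ S * (m * δ) := this
        _ = δ * (S * m) := by ring
    have h3 : δ * (S * m) ≤ δ * (2 * ((d' : ℝ) + 3 / 2 - a / 2)) :=
      mul_le_mul_of_nonneg_left (by linarith) hδ0.le
    linarith
  have had : a ≤ d' + 1 := by
    have : (a : ℝ) ≤ d' + 1 := by linarith
    exact_mod_cast this
  obtain ⟨D, hD⟩ : ∃ D : ℝ, D = (d' : ℝ) + 3 / 2 - (b : ℝ) / a / 2 + ((a : ℝ) ^ 2 + 1) / ((b : ℝ) / a)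
      + ((b : ℝ) / a) ^ 2 / (2 * ((d' : ℝ) + 3 / 2 - a / 2)) := ⟨_, rfl⟩
  have hDlt : D < m * x := by
    have h1 : (m : ℝ) * (S - τ / 2) ≤ m * x := mul_le_mul_of_nonneg_left hxl hmpos.le
    have h2 : (m : ℝ) * (S - τ / 2) = S * m - m * τ / 2 := by ring
    have h3 : 0 ≤ (m : ℝ) * τ := by positivity
    rw [← hx0d] at hD ha2 hlow
    rw [hT] at hd'1
    have e1 : S * ((m : ℝ) + 1 / 2) = S * m + S / 2 := by ring
    rw [e1] at hd'1
    linarith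
  have hgood : Good K r m (fun b => d' + 1 - b) ((d' + 2).choose 2) := by
    apply twoStart_empty ha hab had hch hD.ge hDlt
    calc x * D < x * (m * x) := mul_lt_mul_of_pos_left hDlt hx
      _ = m * x ^ 2 := by ring
      _ ≤ m * S ^ 2 := by
          apply mul_le_mul_of_nonneg_left _ hmpos.le
          exact pow_le_pow_left₀ hx.le hxS 2
      _ = r * m := by rw [hS2]; ring
  have h8 := Good.shrink (K := K) (d' + 1) (d + 1) (n := fun b => d' + 1 - b)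
    (n' := fun b => d + 1 - b) (fun c hc => by omega) (fun c => by omega)
    (by rw [sum_stair]; exact hgood)
  rw [sum_stair] at h8
  exact h8

theorem eps_regular [CharZero K] {r m d a b : ℕ} {ε δ τ x : ℝ} (hδ0 : 0 < δ)
    (hεδ : 16 * δ ≤ ε) (hτ0 : 0 ≤ τ) (hS : 4 ≤ √(r : ℝ))
    (ha : 0 < a) (hab : a ^ 2 ≤ b)
    (hlow : √(r : ℝ) - 5 * δ ≤ (b : ℝ) / a)
    (ha2 : (a : ℝ) ^ 2 / (8 * ((b : ℝ) / a)) ≤ δ)
    (hch : Chain ((b : ℝ) / a) x) (hxS : x ≤ √(r : ℝ)) (hrx : (r : ℝ) ≤ x * (√(r : ℝ) + τ))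
    (h : √(r : ℝ) * (m + 1 / 2) + ε + m * τ ≤ (d : ℝ) + 3 / 2) :
    Good K r m (fun b => d + 1 - b) (r * (m + 1).choose 2) := by
  obtain ⟨S, hSd⟩ : ∃ S : ℝ, S = √(r : ℝ) := ⟨_, rfl⟩
  rw [← hSd] at hS hlow hxS hrx h
  have ha0 : (0 : ℝ) < a := by exact_mod_cast ha
  have hb0 : 0 < b := lt_of_lt_of_le (by positivity) hab
  have hb0' : (0 : ℝ) < b := by exact_mod_cast hb0
  have hx : 0 < x := lt_of_lt_of_le (by positivity) hch.le
  have hm0 : (0 : ℝ) ≤ m := Nat.cast_nonneg m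
  obtain ⟨E, hE⟩ : ∃ E : ℝ, E = (d : ℝ) + 3 / 2 + (b : ℝ) / a / 2
    - (a : ℝ) ^ 2 / (8 * ((b : ℝ) / a)) - x := ⟨_, rfl⟩
  have hE1 : m * (S + τ) ≤ E := by
    have e1 : S * ((m : ℝ) + 1 / 2) = S * m + S / 2 := by ring
    have e2 : (m : ℝ) * (S + τ) = S * m + m * τ := by ring
    rw [e1] at h
    linarith
  have hmx : m * x ≤ E := by
    have h1 : (m : ℝ) * x ≤ m * (S + τ) := mul_le_mul_of_nonneg_left (by linarith) hm0
    linarith
  have hrm : (r : ℝ) * m ≤ x * E := by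
    calc (r : ℝ) * m ≤ x * (S + τ) * m := mul_le_mul_of_nonneg_right hrx hm0
      _ = x * (m * (S + τ)) := by ring
      _ ≤ x * E := mul_le_mul_of_nonneg_left hE1 hx.le
  rw [hE] at hmx hrm
  exact twoStart_regular ha hab hch hmx hrm

/-- **The `ε` window**, given the fine tuning. -/
theorem eps_window {ε δ : ℝ} {N : ℕ} (hδ0 : 0 < δ) (hεδ : 16 * δ ≤ ε) (hε1 : ε ≤ 1)
    (hft : FineTune δ (N + 1)) :
    ∃ r0 : ℕ, ∀ r : ℕ, r0 ≤ r → ∀ (K : Type*) [Field K] [CharZero K] (m d : ℕ),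
      ((d : ℝ) + 3 / 2 ≤ √(r : ℝ) * (m + 1 / 2) - ε - m / (r : ℝ) ^ N ∨
        √(r : ℝ) * (m + 1 / 2) + ε + m / (r : ℝ) ^ N ≤ (d : ℝ) + 3 / 2) →
      Good K r m (fun b => d + 1 - b) (min ((d + 2).choose 2) (r * (m + 1).choose 2)) := by
  have hδ1 : δ ≤ 1 / 16 := by linarith
  obtain ⟨r1, hr1⟩ := hft
  obtain ⟨r2, hr2⟩ := StartNum.exists_start δ hδ0 (by linarith)
  obtain ⟨r3, hr3⟩ : ∃ r3 : ℕ, r3 = (⌈1024 / δ ^ 5⌉₊ + 1) ^ 2 := ⟨_, rfl⟩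
  refine ⟨max r1 (max r2 r3), ?_⟩
  intro r hr K _ _ m d h
  have hrr1 : r1 ≤ r := le_trans (le_max_left _ _) hr
  have hrr2 : r2 ≤ r := le_trans (le_trans (le_max_left _ _) (le_max_right _ _)) hr
  have hrr3 : r3 ≤ r := le_trans (le_trans (le_max_right _ _) (le_max_right _ _)) hr
  obtain ⟨S, hSd⟩ : ∃ S : ℝ, S = √(r : ℝ) := ⟨_, rfl⟩
  have hS2 : S ^ 2 = r := by rw [hSd]; exact Real.sq_sqrt (Nat.cast_nonneg r)
  have hS5 : 1024 / δ ^ 5 ≤ S := by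
    have h1 : ((⌈1024 / δ ^ 5⌉₊ : ℝ) + 1) ≤ S := by
      rw [hSd]
      apply Real.le_sqrt_of_sq_le
      rw [hr3] at hrr3
      exact_mod_cast hrr3
    have h2 := Nat.le_ceil (1024 / δ ^ 5)
    linarith
  have hδ5 : δ ^ 5 ≤ 1 := pow_le_one₀ hδ0.le (by linarith)
  have hS1 : 1024 ≤ S := by
    refine le_trans ?_ hS5
    rw [le_div_iff₀ (by positivity)]
    linarith
  have hS0 : 0 < S := by linarith
  have hr16 : 16 ≤ r := by
    have : (16 : ℝ) ≤ r := by rw [← hS2]; nlinarith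
    exact_mod_cast this
  by_cases hm : S ≤ m * δ
  · obtain ⟨a, b, e, ha, ha5, hab, he0, he2, hx1, hx2⟩ := hr2 r hrr2
    have ha0 : (0 : ℝ) < a := by exact_mod_cast ha
    have hb0 : 0 < b := lt_of_lt_of_le (by positivity) hab
    have hb0' : (0 : ℝ) < b := by exact_mod_cast hb0
    have hx0 : (0 : ℝ) < (b : ℝ) / a := by positivity
    obtain ⟨hx0S, hlow, hx01, ha4, hab1, hab2, haS⟩ := start_bounds hδ0 hδ1 (by rw [← hSd]; exact hS5)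
      ha ha5 hx0 he2 he0 hx1 hx2
    obtain ⟨x, hch, hxl, hxu⟩ := hr1 r hrr1 ((b : ℝ) / a) hx01 e he0 he2 hx1 hx2
    have hx : 0 < x := lt_of_lt_of_le hx0 hch.le
    obtain ⟨hb1, hb2, hb3⟩ := tuned_bounds hr16 hx hxl hxu
    have hτ0 : (0 : ℝ) ≤ 1 / (r : ℝ) ^ N := by positivity
    have hτ1 : 1 / (r : ℝ) ^ N ≤ 1 := by
      have : (0:ℝ) < r := by rw [← hS2]; positivity
      rw [div_le_one (by positivity)]
      apply one_le_pow₀
      have : (16 : ℝ) ≤ r := by exact_mod_cast hr16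
      linarith
    have hmτ : (m : ℝ) / (r : ℝ) ^ N = m * (1 / (r : ℝ) ^ N) := by ring
    rw [hmτ] at h
    rcases h with h | h
    · apply Good.le (min_le_left _ _)
      exact eps_empty hδ0 hεδ hε1 hτ0 hτ1 (by rw [← hSd]; linarith) (by rw [← hSd]; exact hm) ha hab
        hx0S hlow hab1 haS hch hb1 hb2 h
    · apply Good.le (min_le_right _ _)
      exact eps_regular hδ0 hεδ hτ0 (by rw [← hSd]; linarith) ha hab hlow hab2 hch hb1 hb3 h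
  · push Not at hm
    -- small `m`
    obtain ⟨p, hp1, hp2, hp3⟩ : ∃ p : ℕ, p ^ 2 ≤ r ∧ p % 2 = r % 2 ∧ Nat.sqrt r ≤ p + 1 := by
      have h1 : Nat.sqrt r ^ 2 ≤ r := Nat.sqrt_le' r
      rcases Nat.mod_two_eq_zero_or_one (Nat.sqrt r) with h2 | h2 <;>
      rcases Nat.mod_two_eq_zero_or_one r with h3 | h3
      · exact ⟨Nat.sqrt r, h1, by omega, by omega⟩
      · have h4 : 4 ≤ Nat.sqrt r := by rw [Nat.le_sqrt']; omega
        exact ⟨Nat.sqrt r - 1, le_trans (Nat.pow_le_pow_left (by omega) 2) h1, by omega, by omega⟩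
      · have h4 : 4 ≤ Nat.sqrt r := by rw [Nat.le_sqrt']; omega
        exact ⟨Nat.sqrt r - 1, le_trans (Nat.pow_le_pow_left (by omega) 2) h1, by omega, by omega⟩
      · exact ⟨Nat.sqrt r, h1, by omega, by omega⟩
    have hpS : S / 2 ≤ p := by
      have h1 : r < (Nat.sqrt r + 1) ^ 2 := Nat.lt_succ_sqrt' r
      have h2 : r < (p + 2) ^ 2 := lt_of_lt_of_le h1 (Nat.pow_le_pow_left (by omega) 2)
      have h3 : S ^ 2 < ((p : ℝ) + 2) ^ 2 := by rw [hS2]; exact_mod_cast h2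
      have h4 : S < (p : ℝ) + 2 := lt_of_pow_lt_pow_left₀ 2 (by positivity) h3
      linarith
    have hp2' : 2 ≤ p := by
      have : (2 : ℝ) ≤ p := by linarith
      exact_mod_cast this
    apply exact_small hp2' hp1 hp2
    have hmm : (r : ℝ) * (m * (m + 1)) ≤ (p : ℝ) ^ 3 * ((p : ℝ) ^ 3 + 1) := by
      have h1 : (m : ℝ) + 1 ≤ 2 * S / δ := by
        rw [le_div_iff₀ hδ0]
        linarith
      have h2 : (m : ℝ) ≤ 2 * S / δ := by linarith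
      have h3 : (m : ℝ) * (m + 1) ≤ (2 * S / δ) * (2 * S / δ) :=
        mul_le_mul h2 h1 (by positivity) (by positivity)
      have h4 : (2 * S / δ) * (2 * S / δ) ≤ S ^ 4 / 64 := by
        have e1 : (2 * S / δ) * (2 * S / δ) = 4 * S ^ 2 / δ ^ 2 := by field_simp; ring
        rw [e1, div_le_iff₀ (by positivity)]
        have h5 : 256 ≤ S ^ 2 * δ ^ 2 := by
          have h6 : 1024 ≤ S * δ ^ 5 := by rwa [div_le_iff₀ (by positivity)] at hS5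
          have h7 : δ ^ 5 ≤ δ := by
            calc δ ^ 5 ≤ δ ^ 1 := pow_le_pow_of_le_one hδ0.le (by linarith) (by norm_num)
              _ = δ := pow_one δ
          have h8 : S * δ ^ 5 ≤ S * δ := mul_le_mul_of_nonneg_left h7 hS0.le
          have h9 : 1024 ≤ S * δ := by linarith
          have h10 : (S * δ) ^ 2 = S ^ 2 * δ ^ 2 := by ring
          rw [← h10]
          nlinarith
        have h11 : S ^ 2 * 256 ≤ S ^ 2 * (S ^ 2 * δ ^ 2) :=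
          mul_le_mul_of_nonneg_left h5 (by positivity)
        have e2 : S ^ 4 / 64 * δ ^ 2 = S ^ 2 * (S ^ 2 * δ ^ 2) / 64 := by ring
        rw [e2]
        linarith
      have h12 : (S / 2) ^ 6 ≤ (p : ℝ) ^ 6 := pow_le_pow_left₀ (by linarith) hpS 6
      have e3 : (S / 2) ^ 6 = S ^ 2 * (S ^ 4 / 64) := by ring
      have h13 : (r : ℝ) * (m * (m + 1)) ≤ S ^ 2 * (S ^ 4 / 64) := by
        rw [← hS2]
        exact mul_le_mul_of_nonneg_left (h3.trans h4) (by positivity)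
      have h14 : (0 : ℝ) ≤ (p : ℝ) ^ 3 := by positivity
      have e4 : (p : ℝ) ^ 3 * ((p : ℝ) ^ 3 + 1) = (p : ℝ) ^ 6 + (p : ℝ) ^ 3 := by ring
      rw [e4]
      linarith
    exact_mod_cast hmm

end Pool.Agent.Helper42.Eps
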