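import Pool.Agent.Helper7.FatShell
import Pool.Agent.Helper7.FineTune
import Pool.Agent.Helper42.EpsWindow

set_option autoImplicit false

namespace Pool.Agent.Helper42.AlmostAllChar0

open Pool.Agent.Helper7.Shell Pool.Agent.Helper42.Eps Pool.Agent.Helper41.Fat

theorem window (ε : ℝ) (hε : 0 < ε) (N : ℕ) :
    ∃ r0 : ℕ, ∀ r : ℕ, r0 ≤ r → ∀ (K : Type*) [Field K] [CharZero K] (m d : ℕ),
      ((d : ℝ) + 3 / 2 ≤ √(r : ℝ) * (m + 1 / 2) - ε - m / (r : ℝ) ^ N ∨
        √(r : ℝ) * (m + 1 / 2) + ε + m / (r : ℝ) ^ N ≤ (d : ℝ) + 3 / 2) →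
      Good K r m (fun b => d + 1 - b) (min ((d + 2).choose 2) (r * (m + 1).choose 2)) := by
  have h1 : 0 < min ε 1 / 16 := by
    have : 0 < min ε 1 := lt_min hε one_pos
    linarith
  have h2 : min ε 1 ≤ 1 := min_le_right _ _
  obtain ⟨r0, hr0⟩ := eps_window (ε := min ε 1) (δ := min ε 1 / 16) (N := N) h1 (by linarith) h2
    (Pool.Agent.Helper7.Nt.fine_tune (min ε 1 / 16) h1 (by linarith) (N + 1))
  refine ⟨r0, fun r hr K _ _ m d h => hr0 r hr K m d ?_⟩
  have h3 : min ε 1 ≤ ε := min_le_left _ _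
  rcases h with h | h
  · left; linarith
  · right; linarith

/-- **Maximal rank in all degrees but at most one, for large `r`.**  For every `ε > 0` and `N`
there is `r₀` such that for all `r ≥ r₀`, every field of characteristic zero, every `m` and every
degree `d` with `|d + 3/2 - √r (m + 1/2)| ≥ ε + m / r ^ N`, the general subscheme `Y` of the plane
isomorphic to `Spec K[x,y]/(y, x^r)^m` has the expected postulation in degree `d`. -/
theorem almost_all_char_zero (ε : ℝ) (hε : 0 < ε) (N : ℕ) :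
    ∃ r₀ : ℕ, ∀ r : ℕ, r₀ ≤ r → ∀ (K : Type*) [Field K] [CharZero K] (m d : ℕ),
      ε + m / (r : ℝ) ^ N ≤ |(d : ℝ) + 3 / 2 - √(r : ℝ) * (m + 1 / 2)| →
      ∃ Φ : MvPolynomial (Fin 2 × Idx r m) K, Φ ≠ 0 ∧
        ∀ α : Fin 2 × Idx r m → K, MvPolynomial.eval α Φ ≠ 0 →
          Function.Surjective (psi α) ∧
          Module.finrank K (H0 d α) = (d + 2).choose 2 - r * (m + 1).choose 2 := by
  obtain ⟨r₀, hr₀⟩ := window ε hε N
  refine ⟨r₀, fun r hr K _ _ m d h => ?_⟩
  apply shell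
  apply hr₀ r hr K m d
  rcases le_abs.mp h with h | h
  · right; linarith
  · left; linarith

end Pool.Agent.Helper42.AlmostAllChar0
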