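import Pool.Agent.Helper41.FatCore

set_option autoImplicit false

namespace Pool.Agent.Helper42.Game

open Pool.Agent.Helper41.Fat

/-- `n'` is dominated by the result of the move `k` applied to the row lengths `n`. -/
def Step (k : ℕ) (n n' : ℕ → ℕ) : Prop :=
  ∃ B : ℕ, ∀ i, ∃ U : Finset ℕ, n' i ≤ U.card ∧ ∀ u ∈ U, i < (act k B n u).card

/-- The lower envelope is transported by a move. -/
theorem lower_step {k : ℕ} {n : ℕ → ℕ} {D ρ ρ' : ℝ} (hρ : 0 < ρ) (hk : ρ * ρ' = k)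
    (hle : ρ ≤ ρ') (hn : ∀ c : ℕ, ρ * D - ρ ^ 2 * (c : ℝ) ≤ n c) :
    ∃ n' : ℕ → ℕ, Step k n n' ∧ ∀ i : ℕ, ρ' * (D - (ρ' - ρ)) - ρ' ^ 2 * (i : ℝ) ≤ n' i := by
  have hρ' : 0 < ρ' := lt_of_lt_of_le hρ hle
  have hk0 : (0 : ℝ) < k := by rw [← hk]; positivity
  have hkN : 0 < k := by exact_mod_cast hk0
  set β' : ℝ := ρ' * (D - (ρ' - ρ)) with hβ'
  refine ⟨fun i => ⌈β' - ρ' ^ 2 * (i : ℝ)⌉₊, ⟨⌈β'⌉₊ + 1, fun i => ?_⟩, fun i => Nat.le_ceil _⟩
  refine ⟨Finset.Ico (k * i) (k * i + ⌈β' - ρ' ^ 2 * (i : ℝ)⌉₊), by simp, fun u hu => ?_⟩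
  rw [Finset.mem_Ico] at hu
  obtain ⟨hu1, hu2⟩ := hu
  have hu3 : ((u - k * i : ℕ) : ℝ) < β' - ρ' ^ 2 * (i : ℝ) := by
    apply Nat.lt_ceil.1; omega
  have hu4 : (u : ℝ) < k * i + (β' - ρ' ^ 2 * (i : ℝ)) := by
    rw [Nat.cast_sub hu1] at hu3
    push_cast at hu3
    linarith
  have hi0 : (0 : ℝ) ≤ i := Nat.cast_nonneg i
  -- the quotient
  have hdiv1 : k * (u / k) ≤ u := Nat.mul_div_le u k
  have hdiv2 : u < k * (u / k) + k := by
    have := Nat.lt_mul_div_succ u hkN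
    rw [Nat.mul_add] at this
    simpa using this
  have hiu : i ≤ u / k := by
    rw [Nat.le_div_iff_mul_le hkN]; rw [mul_comm]; exact hu1
  have huβ : (u : ℝ) < β' := by
    have : (k : ℝ) * i ≤ ρ' ^ 2 * i := by
      rw [← hk]
      have : ρ * ρ' ≤ ρ' ^ 2 := by rw [sq]; exact mul_le_mul_of_nonneg_right hle hρ'.le
      exact mul_le_mul_of_nonneg_right this hi0
    linarith
  have huB : u < ⌈β'⌉₊ := Nat.lt_ceil.2 huβ
  have hsub : Finset.Icc (u / k - i) (u / k) ⊆ act k (⌈β'⌉₊ + 1) n u := by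
    intro c hc
    rw [Finset.mem_Icc] at hc
    obtain ⟨hc1, hc2⟩ := hc
    rw [mem_act]
    refine ⟨?_, ?_, ?_⟩
    · have : u / k ≤ u := Nat.div_le_self u k
      omega
    · calc k * c ≤ k * (u / k) := Nat.mul_le_mul_left k hc2
        _ ≤ u := hdiv1
    · have hreal : (u : ℝ) < k * c + n c := by
        have h1 := hn c
        have hc1' : ((u / k : ℕ) : ℝ) - i ≤ c := by
          have : u / k ≤ c + i := by omega
          have : ((u / k : ℕ) : ℝ) ≤ c + i := by exact_mod_cast this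
          linarith
        have hdiv2' : (u : ℝ) + 1 ≤ k * ((u / k : ℕ) : ℝ) + k := by exact_mod_cast hdiv2
        have hkc : (u : ℝ) + 1 - k - k * i ≤ k * c := by
          have := mul_le_mul_of_nonneg_left hc1' hk0.le
          linarith
        -- it suffices to compare after multiplication by ρ'
        have hkey : ρ' * u < ρ' * (k * c + n c) := by
          have h2 : ρ' * (ρ * D - ρ ^ 2 * (c : ℝ)) ≤ ρ' * n c := mul_le_mul_of_nonneg_left h1 hρ'.le
          have h3 : (ρ' - ρ) * ((u : ℝ) + 1 - k - k * i) ≤ (ρ' - ρ) * (k * c) :=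
            mul_le_mul_of_nonneg_left hkc (by linarith)
          have h4 : ρ * u < ρ * (k * i + (β' - ρ' ^ 2 * (i : ℝ))) := by
            exact mul_lt_mul_of_pos_left hu4 hρ
          have e1 : ρ' * (ρ * D - ρ ^ 2 * (c : ℝ)) = k * D - ρ * (k * c) := by
            rw [← hk]; ring
          have e2 : ρ * (k * i + (β' - ρ' ^ 2 * (i : ℝ)))
              = k * D - k * (ρ' - ρ) - (ρ' - ρ) * (k * i) := by
            rw [hβ', ← hk]; ring
          rw [e1] at h2
          rw [e2] at h4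
          have e3 : (ρ' - ρ) * ((u : ℝ) + 1 - k - k * i)
              = ρ' * u - ρ * u + (ρ' - ρ) - k * (ρ' - ρ) - (ρ' - ρ) * (k * i) := by ring
          have e4 : ρ' * (k * c + n c) = ρ' * n c + (ρ' - ρ) * (k * c) + ρ * (k * c) := by ring
          rw [e3] at h3
          rw [e4]
          linarith
        exact lt_of_mul_lt_mul_left hkey hρ'.le
      exact_mod_cast hreal
  have hcard := Finset.card_le_card hsub
  rw [Nat.card_Icc] at hcard
  omega

/-- The exact move. -/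
noncomputable def mv (k B : ℕ) (n : ℕ → ℕ) (i : ℕ) : ℕ :=
  ((Finset.range (k * B + ∑ c ∈ Finset.range B, n c)).filter
    (fun u => i < (act k B n u).card)).card

theorem mv_step (k B : ℕ) (n : ℕ → ℕ) : Step k n (mv k B n) :=
  ⟨B, fun i => ⟨(Finset.range (k * B + ∑ c ∈ Finset.range B, n c)).filter
    (fun u => i < (act k B n u).card), le_rfl, fun _ hu => (Finset.mem_filter.1 hu).2⟩⟩

theorem card_act_le (k B : ℕ) (n : ℕ → ℕ) (u : ℕ) : (act k B n u).card ≤ B := by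
  have := Finset.card_filter_le (Finset.range B) (fun c => k * c ≤ u ∧ u < k * c + n c)
  rw [Finset.card_range] at this
  exact this

theorem mv_support (k B : ℕ) (n : ℕ → ℕ) (i : ℕ) (hi : B ≤ i) : mv k B n i = 0 := by
  rw [mv, Finset.card_eq_zero, Finset.filter_eq_empty_iff]
  intro u _
  have := card_act_le k B n u
  omega

theorem mv_sum (k B : ℕ) (n : ℕ → ℕ) :
    ∑ i ∈ Finset.range B, mv k B n i = ∑ c ∈ Finset.range B, n c := by
  set M := k * B + ∑ c ∈ Finset.range B, n c with hM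
  have h1 : ∑ i ∈ Finset.range B, mv k B n i
      = ∑ u ∈ Finset.range M, (act k B n u).card := by
    have : ∀ i, mv k B n i = ∑ u ∈ Finset.range M, if i < (act k B n u).card then 1 else 0 := by
      intro i
      rw [mv, Finset.card_filter]
    simp only [this]
    rw [Finset.sum_comm]
    refine Finset.sum_congr rfl fun u _ => ?_
    rw [← Finset.card_filter]
    have h2 : (Finset.range B).filter (fun i => i < (act k B n u).card)
        = Finset.range (act k B n u).card := by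
      ext i
      have := card_act_le k B n u
      simp only [Finset.mem_filter, Finset.mem_range]
      omega
    rw [h2, Finset.card_range]
  rw [h1]
  have h3 : ∀ u, (act k B n u).card
      = ∑ c ∈ Finset.range B, if k * c ≤ u ∧ u < k * c + n c then 1 else 0 := by
    intro u
    rw [act, Finset.card_filter]
  simp only [h3]
  rw [Finset.sum_comm]
  refine Finset.sum_congr rfl fun c hc => ?_
  rw [← Finset.card_filter]
  have h4 : (Finset.range M).filter (fun u => k * c ≤ u ∧ u < k * c + n c)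
      = Finset.Ico (k * c) (k * c + n c) := by
    ext u
    have h5 : n c ≤ ∑ c ∈ Finset.range B, n c :=
      Finset.single_le_sum (f := n) (fun _ _ => Nat.zero_le _) hc
    have h6 : k * c ≤ k * B := Nat.mul_le_mul_left k (Finset.mem_range.1 hc).le
    simp only [Finset.mem_filter, Finset.mem_range, Finset.mem_Ico]
    omega
  rw [h4, Nat.card_Ico]
  omega

/-- An upper bound for the positions of depth `> i` bounds the new row. -/
theorem mv_le (k B : ℕ) (n : ℕ → ℕ) (i : ℕ) (w : ℝ)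
    (h : ∀ u : ℕ, i < (act k B n u).card → (u : ℝ) ≤ w) (h0 : mv k B n i ≠ 0) :
    (mv k B n i : ℝ) ≤ w - k * i + 1 := by
  have hsub : (Finset.range (k * B + ∑ c ∈ Finset.range B, n c)).filter
      (fun u => i < (act k B n u).card) ⊆ Finset.Ico (k * i) (⌊w⌋₊ + 1) := by
    intro u hu
    have hu2 := (Finset.mem_filter.1 hu).2
    rw [Finset.mem_Ico]
    refine ⟨le_of_lt_card_act hu2, ?_⟩
    have := h u hu2
    have := Nat.le_floor this
    omega
  obtain ⟨u, hu⟩ := Finset.card_pos.1 (Nat.pos_of_ne_zero h0)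
  have hu2 := (Finset.mem_filter.1 hu).2
  have hw : (0 : ℝ) ≤ w := le_trans (Nat.cast_nonneg u) (h u hu2)
  have huI := Finset.mem_Ico.1 (hsub hu)
  have hcard := Finset.card_le_card hsub
  rw [Nat.card_Ico] at hcard
  have h1 : mv k B n i + k * i ≤ ⌊w⌋₊ + 1 := by
    have : mv k B n i ≤ ⌊w⌋₊ + 1 - k * i := hcard
    omega
  have h2 : (mv k B n i : ℝ) + k * i ≤ (⌊w⌋₊ : ℝ) + 1 := by exact_mod_cast h1
  have h3 := Nat.floor_le hw
  linarith

/-- The upper envelope is transported by a move. -/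
theorem upper_bound {k B : ℕ} {n : ℕ → ℕ} {D ρ ρ' : ℝ} (hρ : 0 < ρ) (hk : ρ * ρ' = k)
    (hle : ρ ≤ ρ') (hn : ∀ c : ℕ, n c ≠ 0 → (n c : ℝ) ≤ ρ * D + 1 - ρ ^ 2 * (c : ℝ))
    {i u : ℕ} (h : i < (act k B n u).card) : (u : ℝ) ≤ ρ' * D - ρ' ^ 2 * i + k * i := by
  have hρ' : 0 < ρ' := lt_of_lt_of_le hρ hle
  have hne : (act k B n u).Nonempty := Finset.card_pos.1 (by omega)
  set c1 := (act k B n u).min' hne with hc1
  set c2 := (act k B n u).max' hne with hc2
  have hm1 := mem_act.1 ((act k B n u).min'_mem hne)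
  have hm2 := mem_act.1 ((act k B n u).max'_mem hne)
  rw [← hc1] at hm1
  rw [← hc2] at hm2
  have hsub : act k B n u ⊆ Finset.Icc c1 c2 := by
    intro c hc
    rw [Finset.mem_Icc]
    exact ⟨Finset.min'_le _ _ hc, Finset.le_max' _ _ hc⟩
  have hcard := Finset.card_le_card hsub
  rw [Nat.card_Icc] at hcard
  have h12 : c1 + i ≤ c2 := by omega
  have hn1 : n c1 ≠ 0 := by omega
  have h2 := hn c1 hn1
  have h3 : (u : ℝ) + 1 ≤ k * c1 + n c1 := by
    have : u + 1 ≤ k * c1 + n c1 := by omega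
    exact_mod_cast this
  have h4 : (k : ℝ) * (c1 + i) ≤ u := by
    have : k * (c1 + i) ≤ u := le_trans (Nat.mul_le_mul_left k h12) hm2.2.1
    exact_mod_cast this
  have h5 : (u : ℝ) ≤ ρ * D + (k - ρ ^ 2) * c1 := by
    have e : ((k : ℝ) - ρ ^ 2) * c1 = k * c1 - ρ ^ 2 * c1 := by ring
    rw [e]; linarith
  rw [← hk] at h4 h5 ⊢
  have h6 : ρ' * u ≤ ρ' * (ρ * D) + (ρ' - ρ) * (ρ * ρ' * c1) := by
    have h := mul_le_mul_of_nonneg_left h5 hρ'.le
    have e : ρ' * (ρ * D + (ρ * ρ' - ρ ^ 2) * (c1 : ℝ))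
        = ρ' * (ρ * D) + (ρ' - ρ) * (ρ * ρ' * c1) := by ring
    rw [e] at h
    exact h
  have h7 : (ρ' - ρ) * (ρ * ρ' * c1) ≤ (ρ' - ρ) * (u - ρ * ρ' * i) :=
    mul_le_mul_of_nonneg_left (by
      have e : ρ * ρ' * ((c1 : ℝ) + i) = ρ * ρ' * c1 + ρ * ρ' * i := by ring
      rw [e] at h4; linarith) (by linarith)
  have h8 : ρ * u ≤ ρ * (ρ' * D - ρ' ^ 2 * i + ρ * ρ' * i) := by
    have e1 : (ρ' - ρ) * ((u : ℝ) - ρ * ρ' * i)
        = ρ' * u - ρ * u - (ρ' - ρ) * (ρ * ρ' * i) := by ring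
    have e2 : ρ * (ρ' * D - ρ' ^ 2 * i + ρ * ρ' * i)
        = ρ' * (ρ * D) - (ρ' - ρ) * (ρ * ρ' * i) := by ring
    rw [e1] at h7
    rw [e2]
    linarith
  exact le_of_mul_le_mul_left h8 hρ

theorem upper_step {k B : ℕ} {n : ℕ → ℕ} {D ρ ρ' : ℝ} (hρ : 0 < ρ) (hk : ρ * ρ' = k)
    (hle : ρ ≤ ρ') (hn : ∀ c : ℕ, n c ≠ 0 → (n c : ℝ) ≤ ρ * D + 1 - ρ ^ 2 * (c : ℝ)) (i : ℕ)
    (h0 : mv k B n i ≠ 0) :
    (mv k B n i : ℝ) ≤ ρ' * D + 1 - ρ' ^ 2 * (i : ℝ) := by
  have := mv_le k B n i (ρ' * D - ρ' ^ 2 * i + k * i)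
    (fun u hu => upper_bound hρ hk hle hn hu) h0
  linarith

end Pool.Agent.Helper42.Game
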