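import Pool.Agent.Helper42.Start

set_option autoImplicit false

namespace Pool.Agent.Helper42.Game

theorem greedy_step {a ρ : ℝ} {n : ℕ} (ha : 0 < a) (hn : 6 ≤ n) (h : Chain a ρ)
    (h1 : (n : ℝ) ≤ ρ ^ 2) (h2 : ρ ^ 2 * ((n : ℝ) - 2) ≤ ((n : ℝ) - 1) ^ 2) :
    ∃ ρ', Chain a ρ' ∧ ((n + 2 : ℕ) : ℝ) ≤ ρ' ^ 2 ∧
      ρ' ^ 2 * (((n + 2 : ℕ) : ℝ) - 2) ≤ (((n + 2 : ℕ) : ℝ) - 1) ^ 2 := by
  have hρ : 0 < ρ := lt_of_lt_of_le ha h.le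
  have hn' : (6 : ℝ) ≤ n := by exact_mod_cast hn
  push_cast
  have hk : ρ ^ 2 ≤ ((n + 1 : ℕ) : ℝ) := by
    push_cast
    have h3 : ((n : ℝ) + 1) * ((n : ℝ) - 2) - ((n : ℝ) - 1) ^ 2 = n - 3 := by ring
    have h4 : ρ ^ 2 * ((n : ℝ) - 2) ≤ ((n : ℝ) + 1) * ((n : ℝ) - 2) := by linarith
    exact le_of_mul_le_mul_right h4 (by linarith)
  have c1 := h.div ha hk
  set ρ' := ((n + 1 : ℕ) : ℝ) / ρ with hρ'
  have hρ'pos : 0 < ρ' := by positivity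
  have e1 : ρ' * ρ = (n : ℝ) + 1 := by
    rw [hρ']; push_cast; field_simp
  have e2 : ρ' ^ 2 * ρ ^ 2 = ((n : ℝ) + 1) ^ 2 := by rw [← mul_pow, e1]
  have h5 : ρ' ^ 2 * (n : ℝ) ≤ ((n : ℝ) + 1) ^ 2 := by
    rw [← e2]; exact mul_le_mul_of_nonneg_left h1 (by positivity)
  by_cases h6 : (n : ℝ) + 2 ≤ ρ' ^ 2
  · refine ⟨ρ', c1, h6, ?_⟩
    have e3 : (n : ℝ) + 2 - 2 = n := by ring
    have e4 : (n : ℝ) + 2 - 1 = n + 1 := by ring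
    rw [e3, e4]; exact h5
  · push Not at h6
    have hk2 : ρ' ^ 2 ≤ ((n + 2 : ℕ) : ℝ) := by push_cast; exact h6.le
    have c2 := c1.div ha hk2
    set ρ'' := ((n + 2 : ℕ) : ℝ) / ρ' with hρ''
    have e3 : ρ'' * ρ' = (n : ℝ) + 2 := by
      rw [hρ'']; push_cast; field_simp
    have e4 : ρ'' ^ 2 * ρ' ^ 2 = ((n : ℝ) + 2) ^ 2 := by rw [← mul_pow, e3]
    refine ⟨ρ'', c2, ?_, ?_⟩
    · -- ρ''² ≥ n + 2
      have h7 : ((n : ℝ) + 2) * ρ' ^ 2 ≤ ρ'' ^ 2 * ρ' ^ 2 := by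
        calc ((n : ℝ) + 2) * ρ' ^ 2 ≤ ((n : ℝ) + 2) * ((n : ℝ) + 2) :=
              mul_le_mul_of_nonneg_left h6.le (by positivity)
          _ = ρ'' ^ 2 * ρ' ^ 2 := by rw [e4]; ring
      exact le_of_mul_le_mul_right h7 (by positivity)
    · have e5 : (n : ℝ) + 2 - 2 = n := by ring
      have e6 : (n : ℝ) + 2 - 1 = n + 1 := by ring
      rw [e5, e6]
      -- ρ''² (n+1)² = (n+2)² ρ²
      have e7 : ρ'' ^ 2 * ((n : ℝ) + 1) ^ 2 = ((n : ℝ) + 2) ^ 2 * ρ ^ 2 := by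
        rw [← e2, ← e4]; ring
      have h8 : (n : ℝ) * (((n : ℝ) + 2) ^ 2 * ((n : ℝ) - 1) ^ 2)
          ≤ ((n : ℝ) - 2) * ((n : ℝ) + 1) ^ 4 := by
        have e8 : ((n : ℝ) - 2) * ((n : ℝ) + 1) ^ 4 - (n : ℝ) * (((n : ℝ) + 2) ^ 2 * ((n : ℝ) - 1) ^ 2)
            = (n : ℝ) ^ 3 - 4 * n ^ 2 - 11 * n - 2 := by ring
        have h9 : 0 ≤ (n : ℝ) ^ 3 - 4 * n ^ 2 - 11 * n - 2 := by
          obtain ⟨t, ht⟩ : ∃ t : ℝ, (n : ℝ) = t + 6 := ⟨n - 6, by ring⟩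
          have ht0 : 0 ≤ t := by linarith
          rw [ht]
          have : (t + 6) ^ 3 - 4 * (t + 6) ^ 2 - 11 * (t + 6) - 2
              = t ^ 3 + 14 * t ^ 2 + 49 * t + 4 := by ring
          rw [this]; positivity
        linarith
      have hn2 : (0 : ℝ) < n - 2 := by linarith
      have h10 : ρ'' ^ 2 * n * (((n : ℝ) + 1) ^ 2 * ((n : ℝ) - 2))
          ≤ ((n : ℝ) + 1) ^ 2 * (((n : ℝ) + 1) ^ 2 * ((n : ℝ) - 2)) := by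
        calc ρ'' ^ 2 * n * (((n : ℝ) + 1) ^ 2 * ((n : ℝ) - 2))
            = (ρ'' ^ 2 * ((n : ℝ) + 1) ^ 2) * n * ((n : ℝ) - 2) := by ring
          _ = n * ((n : ℝ) + 2) ^ 2 * (ρ ^ 2 * ((n : ℝ) - 2)) := by rw [e7]; ring
          _ ≤ n * ((n : ℝ) + 2) ^ 2 * ((n : ℝ) - 1) ^ 2 :=
              mul_le_mul_of_nonneg_left h2 (by positivity)
          _ ≤ ((n : ℝ) - 2) * ((n : ℝ) + 1) ^ 4 := by linarith [h8]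
          _ = ((n : ℝ) + 1) ^ 2 * (((n : ℝ) + 1) ^ 2 * ((n : ℝ) - 2)) := by ring
      exact le_of_mul_le_mul_right h10 (by positivity)

theorem greedy {a : ℝ} (ha : 0 < a) (n : ℕ) (hn : 6 ≤ n)
    (h : ∃ ρ, Chain a ρ ∧ (n : ℝ) ≤ ρ ^ 2 ∧ ρ ^ 2 * ((n : ℝ) - 2) ≤ ((n : ℝ) - 1) ^ 2) (j : ℕ) :
    ∃ ρ, Chain a ρ ∧ ((n + 2 * j : ℕ) : ℝ) ≤ ρ ^ 2 ∧
      ρ ^ 2 * (((n + 2 * j : ℕ) : ℝ) - 2) ≤ (((n + 2 * j : ℕ) : ℝ) - 1) ^ 2 := by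
  induction j with
  | zero => simpa using h
  | succ j ih =>
    obtain ⟨ρ, h1, h2, h3⟩ := ih
    have := greedy_step ha (n := n + 2 * j) (by omega) h1 h2 h3
    have e : n + 2 * (j + 1) = n + 2 * j + 2 := by ring
    rw [e]
    exact this

/-- For every `r ≥ 10` and every integer `2 ≤ p ≤ √r` of the parity of `r` there is a chain,
starting at `p`, whose value is extremely close to `√r`. -/
theorem exists_chain (r p : ℕ) (hr : 10 ≤ r) (hp2 : 2 ≤ p) (hp : p ^ 2 ≤ r)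
    (hpar : p % 2 = r % 2) : ∃ ρ : ℝ, Chain p ρ ∧ (r : ℝ) ≤ ρ ^ 2 ∧
    ρ ^ 2 * ((r : ℝ) - 2) ≤ ((r : ℝ) - 1) ^ 2 := by
  have hpar2 : (p ^ 2) % 2 = r % 2 := by
    rw [Nat.pow_mod, hpar]
    rcases Nat.mod_two_eq_zero_or_one r with h | h <;> rw [h]
  by_cases h3 : p = 2
  · subst h3
    obtain ⟨j, rfl⟩ : ∃ j, r = 6 + 2 * j := ⟨(r - 6) / 2, by omega⟩
    have h4 : ∃ ρ, Chain (2 : ℕ) ρ ∧ ((6 : ℕ) : ℝ) ≤ ρ ^ 2 ∧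
        ρ ^ 2 * (((6 : ℕ) : ℝ) - 2) ≤ (((6 : ℕ) : ℝ) - 1) ^ 2 := by
      refine ⟨5 / 2, Chain.step (k := 5) Chain.base ?_ ?_, ?_, ?_⟩ <;> norm_num
    exact greedy (by norm_num) 6 le_rfl h4 j
  · have hp4 : 3 ≤ p := by omega
    have hp9 : 9 ≤ p ^ 2 := by nlinarith
    obtain ⟨j, hj⟩ : ∃ j, r = p ^ 2 + 2 * j := ⟨(r - p ^ 2) / 2, by omega⟩
    have hpR : (0 : ℝ) < (p : ℝ) := by
      have : 0 < p := by omega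
      exact_mod_cast this
    have h4 : ∃ ρ, Chain (p : ℝ) ρ ∧ ((p ^ 2 : ℕ) : ℝ) ≤ ρ ^ 2 ∧
        ρ ^ 2 * (((p ^ 2 : ℕ) : ℝ) - 2) ≤ (((p ^ 2 : ℕ) : ℝ) - 1) ^ 2 := by
      refine ⟨p, Chain.base, by push_cast; exact le_rfl, ?_⟩
      push_cast
      nlinarith
    obtain ⟨ρ, h5, h6, h7⟩ := greedy hpR (p ^ 2) (by omega) h4 j
    rw [← hj] at h6 h7
    exact ⟨ρ, h5, h6, h7⟩

end Pool.Agent.Helper42.Game
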