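import Pool.Agent.Helper42.StartTwo

set_option autoImplicit false

namespace Pool.Agent.Helper42.Game

open Pool.Agent.Helper41.Fat

variable {K : Type*} [Field K]

/-- The pour, for a real slope `σ`: a move `k ≤ σ` spreads the excess of the top row over all
rows. -/
theorem pour_real {k Q : ℕ} {n : ℕ → ℕ} {σ α q0 : ℝ} (hk : (k : ℝ) ≤ σ)
    (hn : ∀ c : ℕ, c < Q → (n c : ℝ) ≤ α - σ * c) (hQ : (n Q : ℝ) ≤ q0)
    (hX : q0 + σ * Q - α ≤ (σ - k) * (Q + 1)) (i : ℕ) (hi : mv k (Q + 1) n i ≠ 0) :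
    (mv k (Q + 1) n i : ℝ) ≤ α + (σ - k) - σ * i := by
  obtain ⟨g, hg⟩ : ∃ g : ℝ, σ = k + g := ⟨σ - k, by ring⟩
  have hg0 : 0 ≤ g := by linarith
  have hσk : σ - k = g := by linarith
  rw [hσk] at hX ⊢
  have key : ∀ u : ℕ, i < (act k (Q + 1) n u).card →
      (u : ℝ) ≤ α + g - 1 - g * i := by
    intro u hu
    set A := act k (Q + 1) n u with hA
    have hbound : ∀ c ∈ A, c < Q → (u : ℝ) + 1 ≤ α - g * c := by
      intro c hc hcQ
      have h1 := (mem_act.1 (hA ▸ hc)).2.2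
      have h2 : (u : ℝ) + 1 ≤ (k : ℝ) * c + n c := by
        have : u + 1 ≤ k * c + n c := by omega
        exact_mod_cast this
      have h3 := hn c hcQ
      rw [hg] at h3
      have e : ((k : ℝ) + g) * (c : ℝ) = k * c + g * c := by ring
      rw [e] at h3
      linarith
    have hlt : ∀ c ∈ A, c ≤ Q := by
      intro c hc
      have := (mem_act.1 (hA ▸ hc)).1
      omega
    by_cases hQA : Q ∈ A
    · rcases Nat.eq_zero_or_pos i with h0 | h0
      · subst h0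
        have h1 := (mem_act.1 (hA ▸ hQA)).2.2
        have h2 : (u : ℝ) + 1 ≤ (k : ℝ) * Q + n Q := by
          have : u + 1 ≤ k * Q + n Q := by omega
          exact_mod_cast this
        have e2 : g * ((Q : ℝ) + 1) = g * Q + g := by ring
        have e3 : σ * (Q : ℝ) = k * Q + g * Q := by rw [hg]; ring
        rw [e2, e3] at hX
        push_cast
        linarith
      · have hcard : i ≤ (A.erase Q).card := by
          rw [Finset.card_erase_of_mem hQA]; omega
        obtain ⟨c, hc, hci⟩ : ∃ c ∈ A.erase Q, i - 1 ≤ c := by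
          by_contra hcon
          push Not at hcon
          have hsub : A.erase Q ⊆ Finset.range (i - 1) := by
            intro c hc
            exact Finset.mem_range.2 (hcon c hc)
          have := Finset.card_le_card hsub
          rw [Finset.card_range] at this
          omega
        have hcA := Finset.mem_of_mem_erase hc
        have hcQ : c ≠ Q := Finset.ne_of_mem_erase hc
        have h1 := hbound c hcA (lt_of_le_of_ne (hlt c hcA) hcQ)
        have h2 : (i : ℝ) ≤ c + 1 := by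
          have : i ≤ c + 1 := by omega
          exact_mod_cast this
        have h3 : g * i ≤ g * (c + 1) := mul_le_mul_of_nonneg_left h2 hg0
        have e2 : g * ((c : ℝ) + 1) = g * c + g := by ring
        rw [e2] at h3
        linarith
    · obtain ⟨c, hc, hci⟩ : ∃ c ∈ A, i ≤ c := by
        by_contra hcon
        push Not at hcon
        have hsub : A ⊆ Finset.range i := by
          intro c hc
          exact Finset.mem_range.2 (hcon c hc)
        have := Finset.card_le_card hsub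
        rw [Finset.card_range] at this
        omega
      have hcQ : c < Q := lt_of_le_of_ne (hlt c hc) (fun h => hQA (h ▸ hc))
      have h1 := hbound c hc hcQ
      have h2 : (i : ℝ) ≤ c := by exact_mod_cast hci
      have h3 : g * i ≤ g * c := mul_le_mul_of_nonneg_left h2 hg0
      linarith
  have h1 := mv_le _ _ n i _ key hi
  have e2 : σ * (i : ℝ) = k * i + g * i := by rw [hg]; ring
  rw [e2]
  linarith

/-! ### The rows after the first move, in integers -/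

theorem strip_ge_nat (a d c : ℕ) : strip a d 0 ≤ strip a d c + a ^ 2 * c := by
  have h : strip a d 0 ≤ ∑ s ∈ Finset.range a, ((d + 1 - (c * a + s)) + c * a) := by
    rw [strip]
    apply Finset.sum_le_sum
    intro s _
    omega
  rw [Finset.sum_add_distrib, Finset.sum_const, Finset.card_range, smul_eq_mul] at h
  calc strip a d 0 ≤ _ := h
    _ = strip a d c + a ^ 2 * c := by rw [strip]; ring

theorem strip_le_nat (a d c : ℕ) (hc : (c + 1) * a ≤ d + 1) :
    strip a d c + a ^ 2 * c ≤ strip a d 0 := by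
  have h : ∑ s ∈ Finset.range a, ((d + 1 - (c * a + s)) + c * a) ≤ strip a d 0 := by
    rw [strip]
    apply Finset.sum_le_sum
    intro s hs
    rw [Finset.mem_range] at hs
    have : (c + 1) * a = c * a + a := by ring
    omega
  rw [Finset.sum_add_distrib, Finset.sum_const, Finset.card_range, smul_eq_mul] at h
  calc strip a d c + a ^ 2 * c = _ := by rw [strip]; ring
    _ ≤ _ := h

theorem strip_top_nat (a d Q : ℕ) (hQ : Q * a ≤ d + 1) :
    2 * (strip a d Q + a ^ 2 * Q) ≤ 2 * strip a d 0 + a ^ 2 := by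
  have h : ∑ s ∈ Finset.range a, ((d + 1 - (Q * a + s)) + Q * a)
      ≤ ∑ s ∈ Finset.range a, ((d + 1 - (0 * a + s)) + s) := by
    apply Finset.sum_le_sum
    intro s _
    omega
  rw [Finset.sum_add_distrib, Finset.sum_add_distrib, Finset.sum_const, Finset.card_range,
    smul_eq_mul] at h
  have h2 : 2 * ∑ s ∈ Finset.range a, s ≤ a ^ 2 := by
    rw [mul_comm, Finset.sum_range_id_mul_two, sq]
    exact Nat.mul_le_mul_left a (Nat.sub_le a 1)
  have e1 : strip a d Q + a ^ 2 * Q = ∑ s ∈ Finset.range a, (d + 1 - (Q * a + s)) + a * (Q * a) := by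
    rw [strip]; ring
  have e2 : strip a d 0 = ∑ s ∈ Finset.range a, (d + 1 - (0 * a + s)) := rfl
  rw [e1, e2]
  omega

/-- Regularity from a chain starting at `b / a`. -/
theorem twoStart_regular [CharZero K] {r m d a b : ℕ} {ρ : ℝ} (ha : 0 < a) (hab : a ^ 2 ≤ b)
    (h : Chain ((b : ℝ) / a) ρ)
    (h1 : m * ρ ≤ d + 3 / 2 + (b : ℝ) / a / 2 - (a : ℝ) ^ 2 / (8 * ((b : ℝ) / a)) - ρ)
    (h2 : r * m ≤ ρ * (d + 3 / 2 + (b : ℝ) / a / 2 - (a : ℝ) ^ 2 / (8 * ((b : ℝ) / a)) - ρ)) :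
    Good K r m (fun b => d + 1 - b) (r * (m + 1).choose 2) := by
  have ha' : (0 : ℝ) < a := by exact_mod_cast ha
  have hb : 0 < b := lt_of_lt_of_le (by positivity) hab
  have hb' : (0 : ℝ) < b := by exact_mod_cast hb
  set ρ0 : ℝ := (b : ℝ) / a with hρ0
  have hρ0pos : 0 < ρ0 := by positivity
  have hρ : 0 < ρ := lt_of_lt_of_le hρ0pos h.le
  set D : ℝ := (d : ℝ) + 3 / 2 - ρ0 / 2 - (a : ℝ) ^ 2 / (8 * ρ0) with hD
  have e : D - (ρ - ρ0) = d + 3 / 2 + ρ0 / 2 - (a : ℝ) ^ 2 / (8 * ρ0) - ρ := by rw [hD]; ring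
  apply good_start a d ha
  set α := strip a d 0 with hα
  have hstep : Step b (strip a d) (phi b (a ^ 2) α) :=
    step_phi (by positivity) hab (fun c => strip_ge_nat a d c)
  apply good_of_step hstep
  refine above_chain (K := K) (D := D) hρ0pos h
    (fun n hn => good_of_above hρ ?_ ?_ n hn) (phi b (a ^ 2) α) ?_
  · rw [e]; exact h1
  · rw [e]; exact h2
  · intro c
    have h3 := phi_ge b (a ^ 2) α c (by positivity)
    push_cast at h3
    refine le_trans ?_ h3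
    have hαr : (a : ℝ) * ((d : ℝ) + 1 - ((a : ℝ) - 1) / 2) ≤ α := by
      have h4 := strip_ge a d 0
      rw [hα]
      simpa using h4
    have h5 : (b : ℝ) / a ^ 2 * ((a : ℝ) * ((d : ℝ) + 1 - ((a : ℝ) - 1) / 2))
        ≤ (b : ℝ) / a ^ 2 * α := mul_le_mul_of_nonneg_left hαr (by positivity)
    have e2 : ρ0 * D - ρ0 ^ 2 * c = (b : ℝ) / a ^ 2 * ((a : ℝ) * ((d : ℝ) + 1 - ((a : ℝ) - 1) / 2))
        - (b : ℝ) / a ^ 2 * (b * c) - (b : ℝ) ^ 2 / (2 * a ^ 2) + b / 2 - a ^ 2 / 8 := by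
      rw [hD, hρ0]
      field_simp
      ring
    rw [e2]
    have e3 : (b : ℝ) / a ^ 2 * ((α : ℝ) - b * c) = (b : ℝ) / a ^ 2 * α
        - (b : ℝ) / a ^ 2 * (b * c) := by ring
    rw [e3]
    linarith

/-- Emptiness from a chain starting at `b / a`. -/
theorem twoStart_empty [CharZero K] {r m d a b : ℕ} {ρ D : ℝ} (ha : 0 < a) (hab : a ^ 2 ≤ b)
    (had : a ≤ d + 1) (h : Chain ((b : ℝ) / a) ρ)
    (hD : (d : ℝ) + 3 / 2 - (b : ℝ) / a / 2 + ((a : ℝ) ^ 2 + 1) / ((b : ℝ) / a)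
      + ((b : ℝ) / a) ^ 2 / (2 * ((d : ℝ) + 3 / 2 - a / 2)) ≤ D)
    (h1 : D < m * ρ) (h2 : ρ * D < r * m) :
    Good K r m (fun b => d + 1 - b) ((d + 2).choose 2) := by
  have ha' : (0 : ℝ) < a := by exact_mod_cast ha
  have ha1 : (1 : ℝ) ≤ a := by exact_mod_cast ha
  have hb : 0 < b := lt_of_lt_of_le (by positivity) hab
  have hb' : (0 : ℝ) < b := by exact_mod_cast hb
  have had' : (a : ℝ) ≤ d + 1 := by exact_mod_cast had
  set ρ0 : ℝ := (b : ℝ) / a with hρ0
  have hρ0pos : 0 < ρ0 := by positivity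
  have hρ : 0 < ρ := lt_of_lt_of_le hρ0pos h.le
  set x := a ^ 2 with hx
  have hx0 : 0 < x := by positivity
  have hxr : (x : ℝ) = (a : ℝ) ^ 2 := by rw [hx]; push_cast; ring
  set Q := (d + 1) / a with hQ
  have hQa : Q * a ≤ d + 1 := Nat.div_mul_le_self _ _
  have hQa2 : d + 1 < (Q + 1) * a := by
    have := Nat.lt_div_mul_add (a := d + 1) (b := a) ha
    rw [← hQ] at this
    linarith
  set α := strip a d 0 with hα
  set n1 := mv b (Q + 1) (strip a d) with hn1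
  -- the state after two moves
  have hrow : ∀ c < Q, strip a d c + x * c ≤ α := by
    intro c hc
    apply strip_le_nat
    exact le_trans (Nat.mul_le_mul_right a (by omega : c + 1 ≤ Q)) hQa
  have hn1le := mv_le_phi (n := strip a d) (q0 := strip a d Q) hx0 hab hrow le_rfl
  have hexc : 2 * (strip a d Q + x * Q - α) ≤ x := by
    have := strip_top_nat a d Q hQa
    rw [← hα, ← hx] at this
    omega
  have hαr : (α : ℝ) = (a : ℝ) * ((d : ℝ) + 3 / 2 - a / 2) := by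
    have h4 := strip_eq a d 0 (by omega)
    rw [hα, h4]
    push_cast
    ring
  set E : ℝ := (x : ℝ) / 2 with hE
  have hn1E : ∀ i, (n1 i : ℝ) ≤ phi b x α i + E := by
    intro i
    have h3 := hn1le i
    have h4 : n1 i ≤ phi b x α i + (strip a d Q + x * Q - α) := by
      refine le_trans h3 ?_
      split_ifs <;> omega
    have h5 : (n1 i : ℝ) ≤ phi b x α i + ((strip a d Q + x * Q - α : ℕ) : ℝ) := by
      exact_mod_cast h4
    have h6 : 2 * ((strip a d Q + x * Q - α : ℕ) : ℝ) ≤ x := by exact_mod_cast hexc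
    rw [hE]
    linarith
  set Q' := α / b with hQ'
  have hQ'1 : b * Q' ≤ α := Nat.mul_div_le _ _
  have hQ'2 : α < b * Q' + b := by
    have := Nat.lt_mul_div_succ α hb
    rw [Nat.mul_add, mul_one] at this
    exact this
  have hσ : (b : ℝ) ^ 2 / x = ρ0 ^ 2 := by rw [hρ0, hxr, div_pow]
  have hxpos : (0 : ℝ) < x := by exact_mod_cast hx0
  set α' : ℝ := (b : ℝ) / x * α - (b : ℝ) ^ 2 / (2 * x) + b / 2 + x / 8 + E with hα'
  set Z : ℝ := (α : ℝ) - b * Q' with hZ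
  have hZ0 : 0 ≤ Z := by
    have : (b : ℝ) * Q' ≤ α := by exact_mod_cast hQ'1
    rw [hZ]; linarith
  have hZb : Z ≤ b := by
    have : (α : ℝ) ≤ b * Q' + b := by exact_mod_cast hQ'2.le
    rw [hZ]; linarith
  set q1 : ℝ := (Z ^ 2 + Z * x) / (2 * x) + x / 8 + E with hq1
  have hfull : ∀ c : ℕ, c < Q' → (n1 c : ℝ) ≤ α' - ρ0 ^ 2 * c := by
    intro c hc
    have h3 : b * c + b ≤ α := by
      have h4 : b * (c + 1) ≤ b * Q' := Nat.mul_le_mul_left b hc
      rw [Nat.mul_add, mul_one] at h4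
      omega
    have h5 := phi_le b x α c hx0 h3
    have h6 := hn1E c
    have e1 : (b : ℝ) / x * ((α : ℝ) - b * c) = (b : ℝ) / x * α - ρ0 ^ 2 * c := by
      rw [← hσ]; ring
    rw [e1] at h5
    rw [hα']
    linarith
  have hlast : (n1 Q' : ℝ) ≤ q1 := by
    have h5 := phi_last b x α Q' hx0 hQ'1 hQ'2
    have h6 := hn1E Q'
    rw [← hZ] at h5
    have h7 : (phi b x α Q' : ℝ) ≤ (Z ^ 2 + Z * x) / (2 * x) + x / 8 := by
      have e1 : (Z ^ 2 + Z * x) / (2 * x) + x / 8 = (Z ^ 2 + Z * x + x ^ 2 / 4) / (2 * x) := by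
        field_simp
        ring
      rw [e1, le_div_iff₀ (by positivity)]
      linarith
    rw [hq1]
    linarith
  have hX : q1 + ρ0 ^ 2 * Q' - α' ≤ ρ0 ^ 2 / 2 := by
    have e1 : q1 + ρ0 ^ 2 * Q' - α' = ((b - Z) ^ 2 - x * (b - Z)) / (2 * x) := by
      have : (α : ℝ) = Z + b * Q' := by rw [hZ]; ring
      rw [hq1, hα', this, ← hσ]
      field_simp
      ring
    rw [e1, ← hσ, div_div, div_le_div_iff₀ (by positivity) (by positivity)]
    have h3 : (b - Z) ^ 2 - x * (b - Z) ≤ (b : ℝ) ^ 2 := by nlinarith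
    have h4 : ((b - Z) ^ 2 - x * (b - Z)) * (x * 2) ≤ (b : ℝ) ^ 2 * (x * 2) :=
      mul_le_mul_of_nonneg_right h3 (by positivity)
    linarith
  -- the pour
  set g := ⌈ρ0 ^ 2 / (2 * ((Q' : ℝ) + 1))⌉₊ with hg
  have hg1 : ρ0 ^ 2 / (2 * ((Q' : ℝ) + 1)) ≤ g := Nat.le_ceil _
  have hg2 : (g : ℝ) < ρ0 ^ 2 / (2 * ((Q' : ℝ) + 1)) + 1 := Nat.ceil_lt_add_one (by positivity)
  have hfl : (⌊ρ0 ^ 2⌋₊ : ℝ) ≤ ρ0 ^ 2 := Nat.floor_le (by positivity)
  have hfl2 : ρ0 ^ 2 < ⌊ρ0 ^ 2⌋₊ + 1 := Nat.lt_floor_add_one _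
  have hρ0x : (a : ℝ) ≤ ρ0 := by
    rw [hρ0, le_div_iff₀ ha']
    have : ((a ^ 2 : ℕ) : ℝ) ≤ b := by exact_mod_cast hab
    push_cast at this
    nlinarith
  have hρ01 : 1 ≤ ρ0 := le_trans ha1 hρ0x
  have hgfl : g ≤ ⌊ρ0 ^ 2⌋₊ := by
    rw [hg, Nat.ceil_le]
    have h3 : ρ0 ^ 2 / (2 * ((Q' : ℝ) + 1)) ≤ ρ0 ^ 2 / 2 := by
      apply div_le_div_of_nonneg_left (by positivity) (by norm_num)
      have : (0 : ℝ) ≤ Q' := Nat.cast_nonneg _
      linarith
    have h4 : (1 : ℝ) ≤ ⌊ρ0 ^ 2⌋₊ := by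
      have : 1 ≤ ⌊ρ0 ^ 2⌋₊ := by
        rw [Nat.le_floor_iff (by positivity)]
        push_cast
        nlinarith
      exact_mod_cast this
    rcases le_or_gt 2 (⌊ρ0 ^ 2⌋₊ : ℝ) with h5 | h5
    · linarith
    · have h6 : ρ0 ^ 2 < 2 := by
        have h7 : ⌊ρ0 ^ 2⌋₊ < 2 := by exact_mod_cast h5
        have h8 : (⌊ρ0 ^ 2⌋₊ : ℝ) ≤ 1 := by
          have : ⌊ρ0 ^ 2⌋₊ ≤ 1 := by omega
          exact_mod_cast this
        linarith
      linarith
  set k := ⌊ρ0 ^ 2⌋₊ - g with hk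
  have hkr : (k : ℝ) = (⌊ρ0 ^ 2⌋₊ : ℝ) - g := by rw [hk, Nat.cast_sub hgfl]
  have hkσ : (k : ℝ) ≤ ρ0 ^ 2 := by
    rw [hkr]
    have : (0 : ℝ) ≤ g := Nat.cast_nonneg g
    linarith
  have hpour := pour_real (n := n1) (σ := ρ0 ^ 2) (α := α') (q0 := q1) hkσ hfull hlast (by
    refine le_trans hX ?_
    have h3 : ρ0 ^ 2 / (2 * ((Q' : ℝ) + 1)) * ((Q' : ℝ) + 1) ≤ (ρ0 ^ 2 - k) * (Q' + 1) := by
      apply mul_le_mul_of_nonneg_right _ (by positivity)
      rw [hkr]
      linarith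
    have e1 : ρ0 ^ 2 / (2 * ((Q' : ℝ) + 1)) * ((Q' : ℝ) + 1) = ρ0 ^ 2 / 2 := by field_simp
    linarith)
  have hQ'd : ((d : ℝ) + 3 / 2 - a / 2) / ρ0 ≤ Q' + 1 := by
    rw [div_le_iff₀ hρ0pos]
    have h3 : (α : ℝ) ≤ b * Q' + b := by exact_mod_cast hQ'2.le
    rw [hαr] at h3
    have e1 : ((Q' : ℝ) + 1) * ρ0 = (b * Q' + b) / a := by rw [hρ0]; field_simp
    rw [e1, le_div_iff₀ ha']
    linarith
  have hda : 0 < (d : ℝ) + 3 / 2 - a / 2 := by linarith
  have hloss : ρ0 ^ 2 / (2 * ((Q' : ℝ) + 1)) ≤ ρ0 * (ρ0 ^ 2 / (2 * ((d : ℝ) + 3 / 2 - a / 2))) := by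
    have h3 : ρ0 ^ 2 / (2 * ((Q' : ℝ) + 1)) ≤ ρ0 ^ 2 / (2 * (((d : ℝ) + 3 / 2 - a / 2) / ρ0)) := by
      apply div_le_div_of_nonneg_left (by positivity) (by positivity)
      linarith
    refine le_trans h3 (le_of_eq ?_)
    field_simp
  have hb2 : Below ρ0 D (mv k (Q' + 1) n1) := by
    intro i hi
    have h3 := hpour i hi
    have h4 : α' + (ρ0 ^ 2 - k) ≤ ρ0 * D + 1 := by
      have h5 : ρ0 * ((d : ℝ) + 3 / 2 - ρ0 / 2 + ((a : ℝ) ^ 2 + 1) / ρ0
          + ρ0 ^ 2 / (2 * ((d : ℝ) + 3 / 2 - a / 2))) ≤ ρ0 * D :=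
        mul_le_mul_of_nonneg_left hD hρ0pos.le
      have e1 : ρ0 * ((d : ℝ) + 3 / 2 - ρ0 / 2 + ((a : ℝ) ^ 2 + 1) / ρ0
          + ρ0 ^ 2 / (2 * ((d : ℝ) + 3 / 2 - a / 2))) = ρ0 * ((d : ℝ) + 3 / 2 - ρ0 / 2)
          + ((a : ℝ) ^ 2 + 1) + ρ0 * (ρ0 ^ 2 / (2 * ((d : ℝ) + 3 / 2 - a / 2))) := by
        rw [mul_add, mul_add]
        congr 2
        field_simp
      rw [e1] at h5
      have e2 : α' = ρ0 * ((d : ℝ) + 3 / 2 - ρ0 / 2) + 5 / 8 * (a : ℝ) ^ 2 := by
        rw [hα', hE, hαr, hxr, hρ0]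
        field_simp
        ring
      rw [e2, hkr]
      have h6 : (0 : ℝ) ≤ (a : ℝ) ^ 2 := by positivity
      linarith
    linarith
  apply good_start a d ha
  have hfin := below_chain (K := K) (r := r) (m := m) (D := D) hρ0pos h (Q' + 1)
    (fun n hn hb => good_of_below hρ h1 h2 (Q' + 1) n hn hb) _
    (fun c hc => mv_support _ _ _ c hc) hb2
  rw [mv_sum] at hfin
  have hsum : ∑ c ∈ Finset.range (Q' + 1), n1 c = (d + 2).choose 2 := by
    have hB : ∀ i, Q' + 1 ≤ i → n1 i = 0 := by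
      intro i hi
      have h3 : phi b x α i = 0 := by
        apply phi_zero
        have : b * (Q' + 1) ≤ b * i := Nat.mul_le_mul_left b hi
        rw [Nat.mul_add, mul_one] at this
        omega
      have hi0 : i ≠ 0 := Nat.ne_of_gt (lt_of_lt_of_le (Nat.succ_pos _) hi)
      have h4 := hn1le i
      rw [h3, if_neg hi0] at h4
      exact Nat.le_zero.1 h4
    have h5 : ∑ c ∈ Finset.range (Q + 1), n1 c = (d + 2).choose 2 := by
      rw [hn1, mv_sum]
      exact sum_strip_total a d (Q + 1) (by omega)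
    rw [← h5]
    rcases le_total (Q' + 1) (Q + 1) with h | h
    · exact Finset.sum_subset (Finset.range_subset_range.2 h) (fun i _ hi =>
        hB i (by rw [Finset.mem_range] at hi; omega))
    · symm
      exact Finset.sum_subset (Finset.range_subset_range.2 h) (fun i _ hi =>
        mv_support _ _ _ i (by rw [Finset.mem_range] at hi; omega))
  rw [hsum] at hfin
  exact good_of_step (mv_step _ _ _) (good_of_step (mv_step _ _ _) hfin)

end Pool.Agent.Helper42.Game
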