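import Pool.Agent.Helper42.Window
import Pool.Agent.Helper7.NM.Large

set_option autoImplicit false

/-!
# Maximal rank outside a short interval of degrees, in every characteristic

The last, incomplete row of the strips of width `p` of the triangle is distributed over the rows
above it by one nodal move of degree `δ`, after which the chains of `Helper7.NM` (which need no
sorting, hence work in every characteristic) take over.
-/

namespace Pool.Agent.Helper42.WindowF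

open Pool.Agent.Helper41.Fat Pool.Agent.Helper42.Game Pool.Agent.Helper7.NM
  Pool.Agent.Helper7.Free

variable {K : Type*} [Field K]

/-- The greedy step with a fixed error. -/
theorem greedyE_step {a ρ e : ℝ} {n : ℕ} (ha : 0 < a) (hn : 1 ≤ n) (h : Chain a ρ)
    (h1 : (n : ℝ) ≤ ρ ^ 2) (h2 : ρ ^ 2 ≤ n + e) (he1 : 1 ≤ e * n) (he2 : e ≤ 1 / 2) :
    ∃ ρ', Chain a ρ' ∧ ((n + 2 : ℕ) : ℝ) ≤ ρ' ^ 2 ∧ ρ' ^ 2 ≤ ((n + 2 : ℕ) : ℝ) + e := by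
  have hρ : 0 < ρ := lt_of_lt_of_le ha h.le
  have hn' : (1 : ℝ) ≤ n := by exact_mod_cast hn
  have hn0 : (0 : ℝ) < n := by linarith
  have he0 : 0 < e := by
    by_contra hcon
    push Not at hcon
    have : e * n ≤ 0 := mul_nonpos_of_nonpos_of_nonneg hcon hn0.le
    linarith
  push_cast
  have hk : ρ ^ 2 ≤ ((n + 1 : ℕ) : ℝ) := by push_cast; linarith
  have c1 := h.div ha hk
  obtain ⟨ρ', hρ'⟩ : ∃ ρ' : ℝ, ρ' = ((n + 1 : ℕ) : ℝ) / ρ := ⟨_, rfl⟩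
  rw [← hρ'] at c1
  have hρ'pos : 0 < ρ' := by rw [hρ']; positivity
  have e1 : ρ' * ρ = (n : ℝ) + 1 := by
    rw [hρ']; push_cast; field_simp
  have e2 : ρ' ^ 2 * ρ ^ 2 = ((n : ℝ) + 1) ^ 2 := by rw [← mul_pow, e1]
  have h5 : ρ' ^ 2 * (n : ℝ) ≤ ((n : ℝ) + 1) ^ 2 := by
    rw [← e2]; exact mul_le_mul_of_nonneg_left h1 (by positivity)
  by_cases h6 : (n : ℝ) + 2 ≤ ρ' ^ 2
  · refine ⟨ρ', c1, h6, ?_⟩
    have h7 : ρ' ^ 2 * (n : ℝ) ≤ ((n : ℝ) + 2 + e) * n := by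
      have : ((n : ℝ) + 2 + e) * n = n ^ 2 + 2 * n + e * n := by ring
      rw [this]
      have : ((n : ℝ) + 1) ^ 2 = n ^ 2 + 2 * n + 1 := by ring
      linarith
    exact le_of_mul_le_mul_right h7 hn0
  · push Not at h6
    have hk2 : ρ' ^ 2 ≤ ((n + 2 : ℕ) : ℝ) := by push_cast; exact h6.le
    have c2 := c1.div ha hk2
    obtain ⟨ρ'', hρ''⟩ : ∃ ρ'' : ℝ, ρ'' = ((n + 2 : ℕ) : ℝ) / ρ' := ⟨_, rfl⟩
    rw [← hρ''] at c2
    have e3 : ρ'' * ρ' = (n : ℝ) + 2 := by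
      rw [hρ'']; push_cast; field_simp
    have e4 : ρ'' ^ 2 * ρ' ^ 2 = ((n : ℝ) + 2) ^ 2 := by rw [← mul_pow, e3]
    refine ⟨ρ'', c2, ?_, ?_⟩
    · have h7 : ((n : ℝ) + 2) * ρ' ^ 2 ≤ ρ'' ^ 2 * ρ' ^ 2 := by
        calc ((n : ℝ) + 2) * ρ' ^ 2 ≤ ((n : ℝ) + 2) * ((n : ℝ) + 2) :=
              mul_le_mul_of_nonneg_left h6.le (by positivity)
          _ = ρ'' ^ 2 * ρ' ^ 2 := by rw [e4]; ring
      exact le_of_mul_le_mul_right h7 (by positivity)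
    · have e7 : ρ'' ^ 2 * ((n : ℝ) + 1) ^ 2 = ((n : ℝ) + 2) ^ 2 * ρ ^ 2 := by
        rw [← e2, ← e4]; ring
      have h8 : ρ'' ^ 2 * ((n : ℝ) + 1) ^ 2 ≤ ((n : ℝ) + 2 + e) * ((n : ℝ) + 1) ^ 2 := by
        rw [e7]
        have h9 : ((n : ℝ) + 2) ^ 2 * ρ ^ 2 ≤ ((n : ℝ) + 2) ^ 2 * (n + e) :=
          mul_le_mul_of_nonneg_left h2 (by positivity)
        have e8 : ((n : ℝ) + 2 + e) * ((n : ℝ) + 1) ^ 2 - ((n : ℝ) + 2) ^ 2 * (n + e)
            = n + 2 - e * (2 * n + 3) := by ring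
        have h10 : e * (2 * (n : ℝ) + 3) ≤ 1 / 2 * (2 * n + 3) :=
          mul_le_mul_of_nonneg_right he2 (by linarith)
        linarith
      exact le_of_mul_le_mul_right h8 (by positivity)

theorem greedyE {a e : ℝ} (ha : 0 < a) (n : ℕ) (hn : 1 ≤ n) (he1 : 1 ≤ e * n) (he2 : e ≤ 1 / 2)
    (h : ∃ ρ, Chain a ρ ∧ (n : ℝ) ≤ ρ ^ 2 ∧ ρ ^ 2 ≤ n + e) (j : ℕ) :
    ∃ ρ, Chain a ρ ∧ ((n + 2 * j : ℕ) : ℝ) ≤ ρ ^ 2 ∧ ρ ^ 2 ≤ ((n + 2 * j : ℕ) : ℝ) + e := by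
  induction j with
  | zero => simpa using h
  | succ j ih =>
    obtain ⟨ρ, h1, h2, h3⟩ := ih
    have hn0 : (0 : ℝ) < n := by exact_mod_cast hn
    have he0 : 0 < e := by
      by_contra hcon
      push Not at hcon
      have : e * n ≤ 0 := mul_nonpos_of_nonpos_of_nonneg hcon hn0.le
      linarith
    have h4 : 1 ≤ e * ((n + 2 * j : ℕ) : ℝ) := by
      push_cast
      have : 0 ≤ e * (2 * (j : ℝ)) := by positivity
      linarith
    have := greedyE_step ha (n := n + 2 * j) (by omega) h1 h2 h3 h4 he2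
    have e' : n + 2 * (j + 1) = n + 2 * j + 2 := by ring
    rw [e']
    exact this

/-- The greedy step with an error growing linearly. -/
theorem greedyL_step {a ρ lam : ℝ} {n : ℕ} (ha : 0 < a) (hn : 2 ≤ n) (hl : 0 ≤ lam)
    (h : Chain a ρ) (h1 : (n : ℝ) ≤ ρ ^ 2) (h2 : ρ ^ 2 ≤ n + 1 / 2 + lam * n)
    (h3 : lam * n ≤ 1 / 2) :
    ∃ ρ', Chain a ρ' ∧ ((n + 2 : ℕ) : ℝ) ≤ ρ' ^ 2 ∧
      ρ' ^ 2 ≤ ((n + 2 : ℕ) : ℝ) + 1 / 2 + lam * ((n + 2 : ℕ) : ℝ) := by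
  have hρ : 0 < ρ := lt_of_lt_of_le ha h.le
  have hn' : (2 : ℝ) ≤ n := by exact_mod_cast hn
  have hn0 : (0 : ℝ) < n := by linarith
  have hln : 0 ≤ lam * n := by positivity
  push_cast
  have hk : ρ ^ 2 ≤ ((n + 1 : ℕ) : ℝ) := by push_cast; linarith
  have c1 := h.div ha hk
  obtain ⟨ρ', hρ'⟩ : ∃ ρ' : ℝ, ρ' = ((n + 1 : ℕ) : ℝ) / ρ := ⟨_, rfl⟩
  rw [← hρ'] at c1
  have hρ'pos : 0 < ρ' := by rw [hρ']; positivity
  have e1 : ρ' * ρ = (n : ℝ) + 1 := by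
    rw [hρ']; push_cast; field_simp
  have e2 : ρ' ^ 2 * ρ ^ 2 = ((n : ℝ) + 1) ^ 2 := by rw [← mul_pow, e1]
  have h5 : ρ' ^ 2 * (n : ℝ) ≤ ((n : ℝ) + 1) ^ 2 := by
    rw [← e2]; exact mul_le_mul_of_nonneg_left h1 (by positivity)
  by_cases h6 : (n : ℝ) + 2 ≤ ρ' ^ 2
  · refine ⟨ρ', c1, h6, ?_⟩
    have h7 : ρ' ^ 2 * (n : ℝ) ≤ ((n : ℝ) + 2 + 1 / 2 + lam * (n + 2)) * n := by
      have e3 : ((n : ℝ) + 2 + 1 / 2 + lam * (n + 2)) * n
          = n ^ 2 + 2 * n + n / 2 + lam * n * (n + 2) := by ring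
      rw [e3]
      have e4 : ((n : ℝ) + 1) ^ 2 = n ^ 2 + 2 * n + 1 := by ring
      have : 0 ≤ lam * n * ((n : ℝ) + 2) := by positivity
      linarith
    exact le_of_mul_le_mul_right h7 hn0
  · push Not at h6
    have hk2 : ρ' ^ 2 ≤ ((n + 2 : ℕ) : ℝ) := by push_cast; exact h6.le
    have c2 := c1.div ha hk2
    obtain ⟨ρ'', hρ''⟩ : ∃ ρ'' : ℝ, ρ'' = ((n + 2 : ℕ) : ℝ) / ρ' := ⟨_, rfl⟩
    rw [← hρ''] at c2
    have e3 : ρ'' * ρ' = (n : ℝ) + 2 := by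
      rw [hρ'']; push_cast; field_simp
    have e4 : ρ'' ^ 2 * ρ' ^ 2 = ((n : ℝ) + 2) ^ 2 := by rw [← mul_pow, e3]
    refine ⟨ρ'', c2, ?_, ?_⟩
    · have h7 : ((n : ℝ) + 2) * ρ' ^ 2 ≤ ρ'' ^ 2 * ρ' ^ 2 := by
        calc ((n : ℝ) + 2) * ρ' ^ 2 ≤ ((n : ℝ) + 2) * ((n : ℝ) + 2) :=
              mul_le_mul_of_nonneg_left h6.le (by positivity)
          _ = ρ'' ^ 2 * ρ' ^ 2 := by rw [e4]; ring
      exact le_of_mul_le_mul_right h7 (by positivity)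
    · have e7 : ρ'' ^ 2 * ((n : ℝ) + 1) ^ 2 = ((n : ℝ) + 2) ^ 2 * ρ ^ 2 := by
        rw [← e2, ← e4]; ring
      have h8 : ρ'' ^ 2 * ((n : ℝ) + 1) ^ 2
          ≤ ((n : ℝ) + 2 + 1 / 2 + lam * (n + 2)) * ((n : ℝ) + 1) ^ 2 := by
        rw [e7]
        have h9 : ((n : ℝ) + 2) ^ 2 * ρ ^ 2 ≤ ((n : ℝ) + 2) ^ 2 * (n + 1 / 2 + lam * n) :=
          mul_le_mul_of_nonneg_left h2 (by positivity)
        have e8 : ((n : ℝ) + 2 + 1 / 2 + lam * (n + 2)) * ((n : ℝ) + 1) ^ 2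
            - ((n : ℝ) + 2) ^ 2 * (n + 1 / 2 + lam * n) = 1 / 2 + lam * (n + 2) := by ring
        have h10 : 0 ≤ lam * ((n : ℝ) + 2) := by positivity
        linarith
      exact le_of_mul_le_mul_right h8 (by positivity)

theorem greedyL {a lam : ℝ} (ha : 0 < a) (n : ℕ) (hn : 2 ≤ n) (hl : 0 ≤ lam)
    (h : ∃ ρ, Chain a ρ ∧ (n : ℝ) ≤ ρ ^ 2 ∧ ρ ^ 2 ≤ n + 1 / 2 + lam * n) (j : ℕ)
    (hj : lam * ((n + 2 * j : ℕ) : ℝ) ≤ 1 / 2) :
    ∃ ρ, Chain a ρ ∧ ((n + 2 * j : ℕ) : ℝ) ≤ ρ ^ 2 ∧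
      ρ ^ 2 ≤ ((n + 2 * j : ℕ) : ℝ) + 1 / 2 + lam * ((n + 2 * j : ℕ) : ℝ) := by
  induction j with
  | zero => simpa using h
  | succ j ih =>
    have h4 : lam * ((n + 2 * j : ℕ) : ℝ) ≤ 1 / 2 := by
      refine le_trans (mul_le_mul_of_nonneg_left ?_ hl) hj
      exact_mod_cast (by omega : n + 2 * j ≤ n + 2 * (j + 1))
    obtain ⟨ρ, h1, h2, h3⟩ := ih h4
    have := greedyL_step ha (n := n + 2 * j) (by omega) hl h1 h2 h3 h4
    have e' : n + 2 * (j + 1) = n + 2 * j + 2 := by ring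
    rw [e']
    exact this

/-- The start of the chain after one nodal move of degree `δ`. -/
theorem exists_chain_delta (r p δ : ℕ) (hp : 2 ≤ p) (hδ : 1 ≤ δ) (h2 : 2 * δ ^ 2 ≤ p ^ 2)
    (hr : p ^ 2 + 2 * δ ≤ r) (hpar : p % 2 = r % 2) :
    ∃ ρ : ℝ, Chain (((p : ℝ) ^ 2 + δ) / p) ρ ∧ (r : ℝ) ≤ ρ ^ 2 ∧
      ρ ^ 2 ≤ r + (δ : ℝ) ^ 2 / (p : ℝ) ^ 2 := by
  have hpR : (2 : ℝ) ≤ p := by exact_mod_cast hp
  have hδR : (1 : ℝ) ≤ δ := by exact_mod_cast hδ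
  have h2R : 2 * (δ : ℝ) ^ 2 ≤ (p : ℝ) ^ 2 := by exact_mod_cast h2
  have hp0 : (0 : ℝ) < p := by linarith
  have hpar2 : (p ^ 2) % 2 = r % 2 := by
    rw [Nat.pow_mod, hpar]
    rcases Nat.mod_two_eq_zero_or_one r with h | h <;> rw [h]
  obtain ⟨j, hj⟩ : ∃ j, r = p ^ 2 + 2 * δ + 2 * j := ⟨(r - (p ^ 2 + 2 * δ)) / 2, by omega⟩
  have e1 : (((p : ℝ) ^ 2 + δ) / p) ^ 2 = (p : ℝ) ^ 2 + 2 * δ + (δ : ℝ) ^ 2 / (p : ℝ) ^ 2 := by
    field_simp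
    ring
  have h4 := greedyE (a := ((p : ℝ) ^ 2 + δ) / p) (e := (δ : ℝ) ^ 2 / (p : ℝ) ^ 2)
    (by positivity) (p ^ 2 + 2 * δ) (by omega) ?_ ?_ ?_ j
  · rw [← hj] at h4
    exact h4
  · push_cast
    rw [div_mul_eq_mul_div, le_div_iff₀ (by positivity)]
    nlinarith [mul_le_mul hδR hδR (by norm_num) (by linarith)]
  · rw [div_le_iff₀ (by positivity)]
    linarith
  · refine ⟨((p : ℝ) ^ 2 + δ) / p, Chain.base, ?_, ?_⟩
    · rw [e1]; push_cast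
      have : 0 ≤ (δ : ℝ) ^ 2 / (p : ℝ) ^ 2 := by positivity
      linarith
    · rw [e1]; push_cast; exact le_rfl

theorem delta_ineq {p δ : ℝ} (hδ : 1 ≤ δ) (h2 : δ + 2 ≤ p) :
    (2 * δ ^ 2 - p ^ 2) * (p + 5) ^ 2 ≤ p ^ 2 * (p ^ 2 + 2 * δ) := by
  obtain ⟨u, hu⟩ : ∃ u : ℝ, u = p - 2 - δ := ⟨_, rfl⟩
  have hu0 : 0 ≤ u := by linarith
  have hp : 3 ≤ p := by linarith
  have e1 : p ^ 2 * (p ^ 2 + 2 * δ) - (2 * δ ^ 2 - p ^ 2) * (p + 5) ^ 2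
      = (43 * p ^ 2 + 120 * p - 200) + u * ((2 * (p - 2) + 2 * δ) * (p + 5) ^ 2 - 2 * p ^ 2) := by
    rw [hu]; ring
  have h3 : 2 * p ^ 2 ≤ (2 * (p - 2) + 2 * δ) * (p + 5) ^ 2 := by
    calc 2 * p ^ 2 ≤ 2 * (p + 5) ^ 2 := by nlinarith
      _ ≤ (2 * (p - 2) + 2 * δ) * (p + 5) ^ 2 :=
          mul_le_mul_of_nonneg_right (by linarith) (by positivity)
  have h4 : 0 ≤ u * ((2 * (p - 2) + 2 * δ) * (p + 5) ^ 2 - 2 * p ^ 2) :=
    mul_nonneg hu0 (by linarith)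
  have h5 : 0 ≤ p ^ 2 := sq_nonneg p
  linarith

/-- The same for larger `δ`. -/
theorem exists_chain_delta' (r p δ : ℕ) (hδ : 1 ≤ δ) (h2 : δ + 2 ≤ p)
    (h2' : p ^ 2 < 2 * δ ^ 2) (hr : p ^ 2 + 2 * δ ≤ r) (hr5 : r ≤ (p + 5) ^ 2)
    (hpar : p % 2 = r % 2) :
    ∃ ρ : ℝ, Chain (((p : ℝ) ^ 2 + δ) / p) ρ ∧ (r : ℝ) ≤ ρ ^ 2 ∧ ρ ^ 2 ≤ r + 1 := by
  have hδR : (1 : ℝ) ≤ δ := by exact_mod_cast hδ
  have h2R : (δ : ℝ) + 2 ≤ p := by exact_mod_cast h2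
  have h2R' : (p : ℝ) ^ 2 < 2 * (δ : ℝ) ^ 2 := by exact_mod_cast h2'
  have hr5R : (r : ℝ) ≤ ((p : ℝ) + 5) ^ 2 := by exact_mod_cast hr5
  have hp0 : (0 : ℝ) < p := by linarith
  have hpar2 : (p ^ 2) % 2 = r % 2 := by
    rw [Nat.pow_mod, hpar]
    rcases Nat.mod_two_eq_zero_or_one r with h | h <;> rw [h]
  obtain ⟨j, hj⟩ : ∃ j, r = p ^ 2 + 2 * δ + 2 * j := ⟨(r - (p ^ 2 + 2 * δ)) / 2, by omega⟩
  have e1 : (((p : ℝ) ^ 2 + δ) / p) ^ 2 = (p : ℝ) ^ 2 + 2 * δ + (δ : ℝ) ^ 2 / (p : ℝ) ^ 2 := by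
    field_simp
    ring
  obtain ⟨N, hN⟩ : ∃ N : ℝ, N = (p : ℝ) ^ 2 + 2 * δ := ⟨_, rfl⟩
  have hN0 : 0 < N := by rw [hN]; positivity
  have hNn : (((p ^ 2 + 2 * δ : ℕ)) : ℝ) = N := by rw [hN]; push_cast; ring
  obtain ⟨lam, hlam⟩ : ∃ lam : ℝ, lam = ((δ : ℝ) ^ 2 / (p : ℝ) ^ 2 - 1 / 2) / N := ⟨_, rfl⟩
  have e0 : 1 / 2 ≤ (δ : ℝ) ^ 2 / (p : ℝ) ^ 2 := by
    rw [le_div_iff₀ (by positivity)]
    linarith
  have hl0 : 0 ≤ lam := by
    rw [hlam]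
    exact div_nonneg (by linarith) hN0.le
  have hlN : lam * N = (δ : ℝ) ^ 2 / (p : ℝ) ^ 2 - 1 / 2 := by
    rw [hlam]; exact div_mul_cancel₀ _ hN0.ne'
  have hlr : lam * r ≤ 1 / 2 := by
    have h3 : (2 * (δ : ℝ) ^ 2 - (p : ℝ) ^ 2) * r ≤ (p : ℝ) ^ 2 * N := by
      calc (2 * (δ : ℝ) ^ 2 - (p : ℝ) ^ 2) * r ≤ (2 * (δ : ℝ) ^ 2 - (p : ℝ) ^ 2) * ((p : ℝ) + 5) ^ 2 :=
            mul_le_mul_of_nonneg_left hr5R (by linarith)
        _ ≤ (p : ℝ) ^ 2 * ((p : ℝ) ^ 2 + 2 * δ) := delta_ineq hδR h2R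
        _ = (p : ℝ) ^ 2 * N := by rw [hN]
    have e3 : lam = (2 * (δ : ℝ) ^ 2 - (p : ℝ) ^ 2) / (2 * ((p : ℝ) ^ 2 * N)) := by
      rw [hlam]; field_simp
    rw [e3, div_mul_eq_mul_div, div_le_iff₀ (by positivity)]
    linarith
  have h4 := greedyL (a := ((p : ℝ) ^ 2 + δ) / p) (lam := lam) (by positivity)
    (p ^ 2 + 2 * δ) (by omega) hl0 ?_ j (by rw [← hj]; exact hlr)
  · rw [← hj] at h4
    obtain ⟨ρ, h5, h6, h7⟩ := h4
    exact ⟨ρ, h5, h6, by linarith⟩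
  · refine ⟨((p : ℝ) ^ 2 + δ) / p, Chain.base, ?_, ?_⟩
    · rw [e1, hNn, hN]
      have : 0 ≤ (δ : ℝ) ^ 2 / (p : ℝ) ^ 2 := by positivity
      linarith
    · rw [e1, hNn, hlN, hN]
      linarith

/-- The same with the best error, for `δ = 1`. -/
theorem exists_chain_one (r p : ℕ) (hp : 2 ≤ p) (hr : p ^ 2 < r) (hpar : p % 2 = r % 2) :
    ∃ ρ : ℝ, Chain (((p : ℝ) ^ 2 + (1 : ℕ)) / p) ρ ∧ (r : ℝ) ≤ ρ ^ 2 ∧
      ρ ^ 2 * ((r : ℝ) - 2) ≤ ((r : ℝ) - 1) ^ 2 := by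
  have hpR : (2 : ℝ) ≤ p := by exact_mod_cast hp
  have hp0 : (0 : ℝ) < p := by linarith
  have hp4 : 4 ≤ p ^ 2 := by nlinarith
  have hpar2 : (p ^ 2) % 2 = r % 2 := by
    rw [Nat.pow_mod, hpar]
    rcases Nat.mod_two_eq_zero_or_one r with h | h <;> rw [h]
  obtain ⟨j, hj⟩ : ∃ j, r = p ^ 2 + 2 + 2 * j := ⟨(r - (p ^ 2 + 2)) / 2, by omega⟩
  have e1 : (((p : ℝ) ^ 2 + (1 : ℕ)) / p) ^ 2 * (p : ℝ) ^ 2 = ((p : ℝ) ^ 2 + 1) ^ 2 := by
    push_cast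
    field_simp
  have h4 := greedy (a := ((p : ℝ) ^ 2 + (1 : ℕ)) / p) (by positivity) (p ^ 2 + 2) (by omega) ?_ j
  · rw [← hj] at h4
    exact h4
  · refine ⟨((p : ℝ) ^ 2 + (1 : ℕ)) / p, Chain.base, ?_, ?_⟩
    · have h5 : (((p ^ 2 + 2 : ℕ) : ℝ)) * (p : ℝ) ^ 2
          ≤ (((p : ℝ) ^ 2 + (1 : ℕ)) / p) ^ 2 * (p : ℝ) ^ 2 := by
        rw [e1]; push_cast
        nlinarith
      exact le_of_mul_le_mul_right h5 (by positivity)
    · push_cast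
      have e2 : (p : ℝ) ^ 2 + 2 - 2 = (p : ℝ) ^ 2 := by ring
      have e3 : (p : ℝ) ^ 2 + 2 - 1 = (p : ℝ) ^ 2 + 1 := by ring
      rw [e2, e3]
      push_cast at e1
      rw [e1]


theorem strip_antitone (p d : ℕ) : Antitone (strip p d) := by
  intro c c' h
  apply Finset.sum_le_sum
  intro s _
  have : c * p ≤ c' * p := Nat.mul_le_mul_right p h
  omega

/-- Emptiness below `p m`. -/
theorem low_empty [Infinite K] {r m d p : ℕ} (hp : 0 < p) (hpr : p ^ 2 ≤ r) (hd : d < m * p) :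
    Good K r m (fun b => d + 1 - b) ((d + 2).choose 2) := by
  apply good_stripF p d hp
  have h1 := Good.final (K := K) r m (strip p d)
  have h2 : ∑ c ∈ Finset.range m, min (strip p d c) (r * (m - c)) = (d + 2).choose 2 := by
    rw [← sum_strip_total p d m hd]
    refine Finset.sum_congr rfl fun c hc => min_eq_left ?_
    rw [Finset.mem_range] at hc
    exact (strip_le p d m c hc.le hd).trans (Nat.mul_le_mul_right _ hpr)
  rwa [h2] at h1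

/-- Emptiness from a chain starting at `p`, when the last row fits. -/
theorem flat_empty [Infinite K] {r m d p Q τ : ℕ} {ρ : ℝ} (hp : 0 < p) (hd : d + 1 = p * Q + τ)
    (hτ : τ < p) (hτ2 : τ = 0 ∨ τ + 1 = p) (h : Chain p ρ)
    (h1 : (d : ℝ) + 3 / 2 - p / 2 < m * ρ) (h2 : ρ * ((d : ℝ) + 3 / 2 - p / 2) < r * m) :
    Good K r m (fun b => d + 1 - b) ((d + 2).choose 2) := by
  have hp' : (0 : ℝ) < p := by exact_mod_cast hp
  have hρ : 0 < ρ := lt_of_lt_of_le hp' h.le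
  apply good_stripF p d hp
  have h5 := below_chainF (K := K) (r := r) (m := m) (D := (d : ℝ) + 3 / 2 - p / 2) hp' h
    (fun B n hn hb => good_of_below hρ h1 h2 B n hn hb) (Q + 1) (strip p d) ?_ ?_
  · rw [sum_strip_total p d (Q + 1) (by rw [Nat.add_mul, Nat.mul_comm Q p]; omega)] at h5
    exact h5
  · intro c hc
    apply strip_zero
    have : (Q + 1) * p ≤ c * p := Nat.mul_le_mul_right p hc
    rw [Nat.add_mul, Nat.mul_comm Q p] at this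
    omega
  · intro c hc
    have hcQ : c ≤ Q := by
      by_contra hcon
      apply hc
      apply strip_zero
      have : (Q + 1) * p ≤ c * p := Nat.mul_le_mul_right p (by omega)
      rw [Nat.add_mul, Nat.mul_comm Q p] at this
      omega
    have key : (strip p d c : ℝ) ≤ (p : ℝ) * ((d : ℝ) + 1 - ((p : ℝ) - 1) / 2)
        - (p : ℝ) ^ 2 * c := by
      rcases hcQ.lt_or_eq with hlt | heq
      · refine (strip_eq p d c ?_).le
        have : (c + 1) * p ≤ Q * p := Nat.mul_le_mul_right p hlt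
        rw [Nat.mul_comm Q p] at this
        omega
      · subst heq
        have h3 := strip_top_eq p c τ hτ.le (by omega)
        have h4 : p * c + τ - 1 = d := by omega
        rw [h4] at h3
        rcases hτ2 with h0 | h0
        · exfalso
          apply hc
          apply strip_zero
          rw [Nat.mul_comm c p]
          omega
        · rw [h3]
          have h6 : (d : ℝ) + 1 = p * c + τ := by exact_mod_cast hd
          have h7 : (τ : ℝ) + 1 = p := by exact_mod_cast h0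
          have h8 : (d : ℝ) = p * c + τ - 1 := by linarith
          rw [h8, ← h7]
          apply le_of_eq
          ring
    have e1 : (p : ℝ) * ((d : ℝ) + 1 - ((p : ℝ) - 1) / 2) = p * ((d : ℝ) + 3 / 2 - p / 2) := by
      ring
    rw [e1] at key
    linarith

/-- Emptiness from one nodal move of degree `δ` followed by a chain. -/
theorem tail_empty [Infinite K] {r m d p Q τ δ : ℕ} {ρ D : ℝ} (hp : 0 < p)
    (hd : d + 1 = p * Q + τ) (hτ : τ < p) (hτ0 : 0 < τ) (hδQ : τ * (τ + 1) ≤ 2 * (δ * Q))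
    (h : Chain (((p : ℝ) ^ 2 + δ) / p) ρ)
    (hD : (d : ℝ) + 3 / 2 - p / 2 + ((δ : ℝ) - 1) / (((p : ℝ) ^ 2 + δ) / p) ≤ D)
    (h1 : D < m * ρ) (h2 : ρ * D < r * m) :
    Good K r m (fun b => d + 1 - b) ((d + 2).choose 2) := by
  have hp' : (0 : ℝ) < p := by exact_mod_cast hp
  have hδ0 : (0 : ℝ) ≤ δ := Nat.cast_nonneg δ
  have hρ1 : 0 < ((p : ℝ) ^ 2 + δ) / p := by positivity
  have hρ : 0 < ρ := lt_of_lt_of_le hρ1 h.le
  apply good_stripF p d hp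
  apply nodal_move δ Q (fun c c' h _ => strip_antitone p d h)
  rw [← sum_strip_total p d (Q + 1) (by rw [Nat.add_mul, Nat.mul_comm Q p]; omega),
    ← nod_sum δ Q (strip p d)]
  have hfull : ∀ c : ℕ, c < Q → (strip p d c : ℝ)
      ≤ (p : ℝ) * ((d : ℝ) + 3 / 2 - p / 2) - (p : ℝ) ^ 2 * c := by
    intro c hc
    rw [strip_eq p d c]
    · apply le_of_eq; ring
    · have : (c + 1) * p ≤ Q * p := Nat.mul_le_mul_right p hc
      rw [Nat.mul_comm Q p] at this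
      omega
  have hQn : strip p d Q ≤ δ * Q := by
    have h3 := strip_top_eq p Q τ hτ.le (by omega)
    have h4 : p * Q + τ - 1 = d := by omega
    rw [h4] at h3
    have h5 : (strip p d Q : ℝ) ≤ ((δ * Q : ℕ) : ℝ) := by
      rw [h3]
      have h6 : ((τ * (τ + 1) : ℕ) : ℝ) ≤ ((2 * (δ * Q) : ℕ) : ℝ) := by exact_mod_cast hδQ
      push_cast at h6 ⊢
      linarith
    exact_mod_cast h5
  refine below_chainF (D := D) hρ1 h (fun B n hn hb => good_of_below hρ h1 h2 B n hn hb)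
    (Q + 1) (nod δ Q (strip p d)) (fun c hc => nod_of_lt _ (by omega)) ?_
  intro i hi
  obtain ⟨-, h4⟩ := nod_below (σ := (p : ℝ) ^ 2) (A := (p : ℝ) * ((d : ℝ) + 3 / 2 - p / 2))
    (by positivity) (strip_antitone p d) hfull hQn i hi
  refine le_trans h4 ?_
  have e3 : ((p : ℝ) * ((d : ℝ) + 3 / 2 - p / 2) - ((p : ℝ) ^ 2 + δ) * i)
      * (((p : ℝ) ^ 2 + δ) / (p : ℝ) ^ 2) + δ
      = (((p : ℝ) ^ 2 + δ) / p) * ((d : ℝ) + 3 / 2 - p / 2) + δ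
        - (((p : ℝ) ^ 2 + δ) / p) ^ 2 * i := by
    field_simp
    ring
  rw [e3]
  have h5 : (((p : ℝ) ^ 2 + δ) / p) * ((d : ℝ) + 3 / 2 - p / 2
      + ((δ : ℝ) - 1) / (((p : ℝ) ^ 2 + δ) / p)) ≤ (((p : ℝ) ^ 2 + δ) / p) * D :=
    mul_le_mul_of_nonneg_left hD hρ1.le
  have e4 : (((p : ℝ) ^ 2 + δ) / p) * ((d : ℝ) + 3 / 2 - p / 2
      + ((δ : ℝ) - 1) / (((p : ℝ) ^ 2 + δ) / p))
      = (((p : ℝ) ^ 2 + δ) / p) * ((d : ℝ) + 3 / 2 - p / 2) + (δ - 1) := by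
    rw [mul_add, mul_div_cancel₀ _ hρ1.ne']
  rw [e4] at h5
  linarith


/-- **Regularity above the window, in every characteristic.** -/
theorem windowF_regular [Infinite K] (r p m d : ℕ) (hr : 10 ≤ r) (hp2 : 2 ≤ p) (hpr : p ^ 2 ≤ r)
    (hpar : p % 2 = r % 2)
    (h : √(r : ℝ) * (m + 1 / 2) + (√(r : ℝ) - p) / 2 + (m + 1) / (2 * (r - 2) * √(r : ℝ))
      ≤ (d : ℝ) + 3 / 2) :
    Good K r m (fun b => d + 1 - b) (r * (m + 1).choose 2) := by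
  have hr' : (10 : ℝ) ≤ r := by exact_mod_cast hr
  have hm' : (0 : ℝ) ≤ m := Nat.cast_nonneg m
  obtain ⟨ρ, hch, hρ1, hρ2⟩ := exists_chain r p hr hp2 hpr hpar
  have hp : 0 < p := by omega
  have hpR : (0 : ℝ) < p := by exact_mod_cast hp
  have hρ : 0 < ρ := lt_of_lt_of_le hpR hch.le
  obtain ⟨hSρ, hρS, hSr⟩ := rho_bounds hr hρ hρ1 hρ2
  obtain ⟨S, hS⟩ : ∃ S : ℝ, S = √(r : ℝ) := ⟨_, rfl⟩
  rw [← hS] at hSρ hρS hSr h
  have e1 : ((m : ℝ) + 1) / (2 * (r - 2) * S) = (m + 1) * (1 / (2 * (r - 2) * S)) := by ring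
  rw [e1] at h
  have h1 : ((m : ℝ) + 1) * ρ ≤ (m + 1) * (S + 1 / (2 * (r - 2) * S)) :=
    mul_le_mul_of_nonneg_left hρS (by linarith)
  have h2 : (m : ℝ) * ρ ≤ d + 3 / 2 + p / 2 - ρ := by
    have e2 : ((m : ℝ) + 1) * (S + 1 / (2 * (r - 2) * S))
        = S * (m + 1 / 2) + (m + 1) * (1 / (2 * (r - 2) * S)) + S / 2 := by ring
    rw [e2] at h1
    have e3 : ((m : ℝ) + 1) * ρ = m * ρ + ρ := by ring
    rw [e3] at h1
    linarith
  have h3 : (r : ℝ) * m ≤ ρ * (d + 3 / 2 + p / 2 - ρ) := by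
    calc (r : ℝ) * m ≤ ρ ^ 2 * m := mul_le_mul_of_nonneg_right hρ1 hm'
      _ = ρ * (m * ρ) := by ring
      _ ≤ ρ * (d + 3 / 2 + p / 2 - ρ) := mul_le_mul_of_nonneg_left h2 hρ.le
  have e : (d : ℝ) + 1 - ((p : ℝ) - 1) / 2 - (ρ - p) = d + 3 / 2 + p / 2 - ρ := by ring
  apply good_stripF p d hp
  refine above_chainI (K := K) (D := (d : ℝ) + 1 - ((p : ℝ) - 1) / 2) hpR hch
    (fun n hn => good_of_above hρ ?_ ?_ n hn) (strip p d) ?_
  · rw [e]; exact h2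
  · rw [e]; exact h3
  · intro c
    exact strip_ge p d c

/-- The degree of the nodal move. -/
theorem exists_delta {r p m Q τ : ℕ} (hp2 : 2 ≤ p) (hpr : p ^ 2 < r) (hpar : p % 2 = r % 2)
    (hpm : p ≤ 2 * m + 1) (hmQ : m ≤ Q) (hτ2 : τ + 2 ≤ p)
    (hU : (p - 1) * (p - 2) ≤ m * (r - p ^ 2)) (hbig : 2 * Q < τ * (τ + 1)) :
    ∃ g : ℕ, τ * (τ + 1) ≤ 2 * ((g + 1) * Q) ∧ p ^ 2 + 2 * (g + 1) ≤ r ∧
      (2 * (g + 1) ^ 2 ≤ p ^ 2 ∨ ((g + 1) + 2 ≤ p ∧ m ≤ p)) ∧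
      2 * m * g < (p - 1) * (p - 2) ∧ 2 * m < (p - 1) * (p - 2) := by
  have hQ0 : 0 < 2 * Q := by omega
  obtain ⟨g, hg⟩ : ∃ g : ℕ, g = (τ * (τ + 1) - 1) / (2 * Q) := ⟨_, rfl⟩
  have hg1 : 2 * Q * g ≤ τ * (τ + 1) - 1 := by rw [hg]; exact Nat.mul_div_le _ _
  have hg2 : τ * (τ + 1) - 1 < 2 * Q * (g + 1) := by
    rw [hg]; exact Nat.lt_mul_div_succ _ hQ0
  have hUτ : τ * (τ + 1) ≤ (p - 1) * (p - 2) := by
    rw [Nat.mul_comm]; exact Nat.mul_le_mul (by omega) (by omega)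
  have hτpos : 0 < τ * (τ + 1) := by omega
  have hg3 : 2 * m * g < (p - 1) * (p - 2) := by
    calc 2 * m * g ≤ 2 * Q * g := Nat.mul_le_mul_right _ (by omega)
      _ < τ * (τ + 1) := by omega
      _ ≤ (p - 1) * (p - 2) := hUτ
  have hmU : 2 * m < (p - 1) * (p - 2) := by omega
  have hf : 2 * g < r - p ^ 2 := by
    have h1 : m * (2 * g) < m * (r - p ^ 2) := by
      calc m * (2 * g) = 2 * m * g := by ring
        _ < (p - 1) * (p - 2) := hg3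
        _ ≤ m * (r - p ^ 2) := hU
    exact lt_of_mul_lt_mul_left h1 (Nat.zero_le _)
  have hpar2 : (p ^ 2) % 2 = r % 2 := by
    rw [Nat.pow_mod, hpar]
    rcases Nat.mod_two_eq_zero_or_one r with h | h <;> rw [h]
  obtain ⟨q, hq⟩ : ∃ q : ℕ, p = q + 2 := ⟨p - 2, by omega⟩
  have hpp : (p - 1) * (p - 2) = (q + 1) * q := by rw [hq]; rfl
  refine ⟨g, ?_, by omega, ?_, hg3, hmU⟩
  · have e1 : 2 * ((g + 1) * Q) = 2 * Q * (g + 1) := by ring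
    rw [e1]
    omega
  · rw [hpp] at hg3
    by_cases hmp : m ≤ p
    · right
      refine ⟨?_, hmp⟩
      by_contra hcon
      have h1 : q ≤ g := by omega
      have h2 : (q + 1) * q ≤ (2 * m) * g := Nat.mul_le_mul (by omega) h1
      omega
    · left
      have h2δ : 2 * (g + 1) ≤ p := by
        by_contra hcon
        have h1 : q + 1 ≤ 2 * g := by omega
        have h2 : (q + 2) * (q + 1) ≤ m * (2 * g) := Nat.mul_le_mul (by omega) h1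
        have h3 : m * (2 * g) = 2 * m * g := by ring
        have h4 : (q + 1) * q ≤ (q + 2) * (q + 1) := by
          rw [Nat.mul_comm (q + 2)]; exact Nat.mul_le_mul_left _ (by omega)
        omega
      nlinarith

theorem err_one {S p m g δ : ℝ} (hp : 2 ≤ p) (hpS : p ≤ S) (hm : 1 ≤ m) (hg : 0 ≤ g)
    (hδ : δ = g + 1) (h : 2 * m * g < (p - 1) * (p - 2)) :
    (δ - 1) / ((p ^ 2 + δ) / p) ≤ S / m / 2 := by
  have hp0 : 0 < p := by linarith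
  have hρ : p ≤ (p ^ 2 + δ) / p := by
    rw [le_div_iff₀ hp0]
    have : p * p = p ^ 2 := by ring
    linarith
  have h1 : (δ - 1) / ((p ^ 2 + δ) / p) ≤ g / p := by
    have : δ - 1 = g := by linarith
    rw [this]
    exact div_le_div_of_nonneg_left hg hp0 hρ
  refine h1.trans ?_
  rw [div_div, div_le_div_iff₀ hp0 (by positivity)]
  have a1 : (p - 1) * (p - 2) = p * p - 3 * p + 2 := by ring
  have a2 : p * p ≤ S * p := mul_le_mul_of_nonneg_right hpS hp0.le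
  have a3 : g * (m * 2) = 2 * m * g := by ring
  rw [a3]
  linarith

theorem err_two {S p m g δ : ℝ} (hp : 2 ≤ p) (hpS : p ≤ S) (hm : 1 ≤ m) (hg : 0 ≤ g)
    (hδ : δ = g + 1) (h : 2 * m * g < (p - 1) * (p - 2)) (h' : 2 * m < (p - 1) * (p - 2)) :
    m * (δ ^ 2 / p ^ 2 / (2 * S)) ≤ S / m / 2 := by
  have hp0 : 0 < p := by linarith
  have hS0 : 0 < S := by linarith
  have hm0 : 0 < m := by linarith
  have hδ0 : 0 ≤ δ := by linarith
  have a1 : (p - 1) * (p - 2) = p * p - 3 * p + 2 := by ring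
  have a2 : p * p ≤ S * p := mul_le_mul_of_nonneg_right hpS hp0.le
  have h1 : m * δ ≤ S * p := by
    have : m * δ = m * g + m := by rw [hδ]; ring
    rw [this]
    linarith
  have h2 : (m * δ) ^ 2 ≤ (S * p) ^ 2 := pow_le_pow_left₀ (by positivity) h1 2
  rw [div_div, div_div, mul_div_assoc', div_le_div_iff₀ (by positivity) (by positivity)]
  have e1 : m * δ ^ 2 * (m * 2) = 2 * (m * δ) ^ 2 := by ring
  have e2 : S * (p ^ 2 * (2 * S)) = 2 * (S * p) ^ 2 := by ring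
  rw [e1, e2]
  linarith

theorem err_three {S m : ℝ} (hm : 1 ≤ m) (hmS : m ≤ S) : m * (1 / (2 * S)) ≤ S / m / 2 := by
  have hm0 : 0 < m := by linarith
  have hS0 : 0 < S := by linarith
  rw [div_div, mul_one_div, div_le_div_iff₀ (by positivity) (by positivity)]
  have : m * m ≤ S * S := mul_le_mul hmS hmS hm0.le hS0.le
  linarith

/-- The case `δ ≥ 2`: the end of the proof. -/
theorem big_end [Infinite K] {r p m d Q τ δ : ℕ} {S ρ e : ℝ} (hr : 10 ≤ r) (hp2 : 2 ≤ p)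
    (hpm : 1 ≤ m) (hS : S = √(r : ℝ)) (hd : d + 1 = p * Q + τ) (hτ0 : 0 < τ) (hτ : τ < p)
    (hδQ : τ * (τ + 1) ≤ 2 * (δ * Q)) (hB : (d : ℝ) + 3 / 2 - p / 2 < S * m - S / m)
    (hch : Chain (((p : ℝ) ^ 2 + δ) / p) ρ) (hρ1 : (r : ℝ) ≤ ρ ^ 2) (hρ2 : ρ ^ 2 ≤ r + e)
    (he : 0 ≤ e) (h1 : ((δ : ℝ) - 1) / (((p : ℝ) ^ 2 + δ) / p) ≤ S / m / 2)
    (h2 : m * (e / (2 * S)) ≤ S / m / 2) :
    Good K r m (fun b => d + 1 - b) ((d + 2).choose 2) := by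
  have hp : 0 < p := by omega
  have hr' : (10 : ℝ) ≤ r := by exact_mod_cast hr
  have hm' : (1 : ℝ) ≤ m := by exact_mod_cast hpm
  have hpR : (2 : ℝ) ≤ p := by exact_mod_cast hp2
  have hp0 : (0 : ℝ) < p := by linarith
  have hS2 : S ^ 2 = r := by rw [hS]; exact Real.sq_sqrt (by linarith)
  have hS0 : 0 < S := by rw [hS]; exact Real.sqrt_pos.2 (by linarith)
  have hρ : 0 < ρ := lt_of_lt_of_le (by positivity) hch.le
  obtain ⟨η, hη⟩ : ∃ η : ℝ, η = e / (2 * S) := ⟨_, rfl⟩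
  rw [← hη] at h2
  have hη0 : 0 ≤ η := by rw [hη]; positivity
  have e1 : e = 2 * S * η := by rw [hη]; field_simp
  have hSρ : S ≤ ρ := by
    rw [hS]; exact Real.sqrt_le_iff.2 ⟨hρ.le, hρ1⟩
  have hρS : ρ ≤ S + η := by
    refine le_of_sq_le_sq ?_ (by positivity)
    have e2 : (S + η) ^ 2 = S ^ 2 + 2 * S * η + η ^ 2 := by ring
    rw [e2, hS2, ← e1]
    have : 0 ≤ η ^ 2 := sq_nonneg η
    linarith
  have hSr : (S - η) * ρ ≤ r := by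
    rcases le_or_gt 0 (S - η) with h5 | h5
    · have h6 : (S - η) * ρ ≤ (S - η) * (S + η) := mul_le_mul_of_nonneg_left hρS h5
      have h7 : (S - η) * (S + η) = S ^ 2 - η ^ 2 := by ring
      have : 0 ≤ η ^ 2 := sq_nonneg η
      linarith
    · have h6 : (S - η) * ρ ≤ 0 := mul_nonpos_of_nonpos_of_nonneg h5.le hρ.le
      linarith
  have hmain : (d : ℝ) + 3 / 2 - p / 2 + ((δ : ℝ) - 1) / (((p : ℝ) ^ 2 + δ) / p)
      < m * (S - η) := by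
    have e2 : (m : ℝ) * (S - η) = S * m - m * η := by ring
    rw [e2]
    linarith
  refine tail_empty (δ := δ) hp hd hτ hτ0 hδQ hch le_rfl ?_ ?_
  · exact lt_of_lt_of_le hmain (mul_le_mul_of_nonneg_left (by linarith) (by linarith))
  · calc ρ * ((d : ℝ) + 3 / 2 - p / 2 + ((δ : ℝ) - 1) / (((p : ℝ) ^ 2 + δ) / p))
        < ρ * (m * (S - η)) := mul_lt_mul_of_pos_left hmain hρ
      _ = m * ((S - η) * ρ) := by ring
      _ ≤ m * r := mul_le_mul_of_nonneg_left hSr (by linarith)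
      _ = r * m := by ring

/-- The case `δ ≥ 2`. -/
theorem big_empty [Infinite K] {r p m d Q τ : ℕ} {S : ℝ} (hr : 10 ≤ r) (hp2 : 2 ≤ p)
    (hpr : p ^ 2 < r) (hr5 : r ≤ (p + 5) ^ 2) (hpar : p % 2 = r % 2) (hm : 1 ≤ m)
    (hpm : p ≤ 2 * m + 1)
    (hU : (p - 1) * (p - 2) ≤ m * (r - p ^ 2)) (hS : S = √(r : ℝ)) (hd : d + 1 = p * Q + τ)
    (hτ0 : 0 < τ) (hτ2 : τ + 2 ≤ p) (hmQ : m ≤ Q) (hbig : 2 * Q < τ * (τ + 1))
    (hB : (d : ℝ) + 3 / 2 - p / 2 < S * m - S / m) :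
    Good K r m (fun b => d + 1 - b) ((d + 2).choose 2) := by
  have hr' : (10 : ℝ) ≤ r := by exact_mod_cast hr
  have hm' : (1 : ℝ) ≤ m := by exact_mod_cast hm
  have hpR : (2 : ℝ) ≤ p := by exact_mod_cast hp2
  have hp0 : (0 : ℝ) < p := by linarith
  have hpS : (p : ℝ) ≤ S := by
    rw [hS]; apply Real.le_sqrt_of_sq_le; exact_mod_cast hpr.le
  obtain ⟨g, hδQ, hrδ, h2δ, hg1, hmU⟩ := exists_delta hp2 hpr hpar hpm hmQ hτ2 hU hbig
  obtain ⟨δ, hδ⟩ : ∃ δ : ℕ, δ = g + 1 := ⟨_, rfl⟩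
  rw [← hδ] at hδQ hrδ h2δ
  have hδpos : 1 ≤ δ := by omega
  obtain ⟨q, hq⟩ : ∃ q : ℕ, p = q + 2 := ⟨p - 2, by omega⟩
  have hpp : (p - 1) * (p - 2) = (q + 1) * q := by rw [hq]; rfl
  have hqR : (p : ℝ) = q + 2 := by rw [hq]; push_cast; ring
  have hgR : 2 * (m : ℝ) * g < (p - 1) * (p - 2) := by
    rw [hpp] at hg1
    have h1 : ((2 * m * g : ℕ) : ℝ) < (((q + 1) * q : ℕ) : ℝ) := by exact_mod_cast hg1
    push_cast at h1
    rw [hqR]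
    have e2 : ((q : ℝ) + 2 - 1) * (q + 2 - 2) = (q + 1) * q := by ring
    rw [e2]
    exact h1
  have hmR : 2 * (m : ℝ) < (p - 1) * (p - 2) := by
    rw [hpp] at hmU
    have h1 : ((2 * m : ℕ) : ℝ) < (((q + 1) * q : ℕ) : ℝ) := by exact_mod_cast hmU
    push_cast at h1
    rw [hqR]
    have e2 : ((q : ℝ) + 2 - 1) * (q + 2 - 2) = (q + 1) * q := by ring
    rw [e2]
    exact h1
  have hδg : (δ : ℝ) = g + 1 := by rw [hδ]; push_cast; ring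
  have herr1 := err_one hpR hpS hm' (Nat.cast_nonneg g) hδg hgR
  have herr2 := err_two hpR hpS hm' (Nat.cast_nonneg g) hδg hgR hmR
  by_cases hcase : 2 * δ ^ 2 ≤ p ^ 2
  · obtain ⟨ρ, hch, hρ1, hρ2⟩ := exists_chain_delta r p δ hp2 hδpos hcase hrδ hpar
    exact big_end hr hp2 hm hS hd hτ0 (by omega) hδQ hB hch hρ1 hρ2 (by positivity) herr1 herr2
  · rcases h2δ with h2δ | ⟨h2δ, hmp⟩
    · exact absurd h2δ hcase
    push Not at hcase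
    obtain ⟨ρ, hch, hρ1, hρ2⟩ := exists_chain_delta' r p δ hδpos h2δ hcase hrδ hr5 hpar
    have hmS : (m : ℝ) ≤ S := le_trans (by exact_mod_cast hmp) hpS
    exact big_end hr hp2 hm hS hd hτ0 (by omega) hδQ hB hch hρ1 hρ2 zero_le_one herr1
      (err_three hm' hmS)

/-- **Emptiness below the window, in every characteristic.** -/
theorem windowF_empty [Infinite K] (r p m d : ℕ) (hr : 10 ≤ r) (hp2 : 2 ≤ p) (hpr : p ^ 2 < r)
    (hr5 : r ≤ (p + 5) ^ 2) (hpar : p % 2 = r % 2) (hm : 1 ≤ m) (hpm : p ≤ 2 * m + 1)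
    (hU : (p - 1) * (p - 2) ≤ m * (r - p ^ 2))
    (h : (d : ℝ) + 3 / 2 ≤ √(r : ℝ) * (m + 1 / 2) - (√(r : ℝ) - p) / 2 - √(r : ℝ) / m
      - m / (2 * (r - 2) * √(r : ℝ))) :
    Good K r m (fun b => d + 1 - b) ((d + 2).choose 2) := by
  have hp : 0 < p := by omega
  by_cases hlow : d < m * p
  · exact low_empty hp hpr.le hlow
  push Not at hlow
  have hr' : (10 : ℝ) ≤ r := by exact_mod_cast hr
  have hm' : (1 : ℝ) ≤ m := by exact_mod_cast hm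
  have hpR : (2 : ℝ) ≤ p := by exact_mod_cast hp2
  have hp0 : (0 : ℝ) < p := by linarith
  obtain ⟨S, hS⟩ : ∃ S : ℝ, S = √(r : ℝ) := ⟨_, rfl⟩
  have hS2 : S ^ 2 = r := by rw [hS]; exact Real.sq_sqrt (by linarith)
  have hS0 : 0 < S := by rw [hS]; exact Real.sqrt_pos.2 (by linarith)
  have hr2 : (0 : ℝ) < r - 2 := by linarith
  have hpS : (p : ℝ) ≤ S := by
    rw [hS]; apply Real.le_sqrt_of_sq_le; exact_mod_cast hpr.le
  obtain ⟨ε, hε⟩ : ∃ ε : ℝ, ε = 1 / (2 * ((r : ℝ) - 2) * S) := ⟨_, rfl⟩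
  have hε0 : 0 < ε := by rw [hε]; positivity
  have hmε : (m : ℝ) / (2 * (r - 2) * S) = m * ε := by rw [hε]; ring
  have hmε0 : 0 < (m : ℝ) * ε := by positivity
  rw [← hS, hmε] at h
  have hSm : 0 < S / m := by positivity
  -- the extremal degree
  obtain ⟨T, hT⟩ : ∃ T : ℝ, T = S * ((m : ℝ) + 1 / 2) - (S - p) / 2 - S / m - m * ε - 3 / 2 :=
    ⟨_, rfl⟩
  have hdT : (d : ℝ) ≤ T := by rw [hT]; linarith
  have hT0 : 0 ≤ T := le_trans (Nat.cast_nonneg d) hdT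
  obtain ⟨d', hd'⟩ : ∃ d' : ℕ, d' = ⌊T⌋₊ := ⟨_, rfl⟩
  have hdd' : d ≤ d' := by rw [hd']; exact Nat.le_floor hdT
  have hd'1 : (d' : ℝ) ≤ T := by rw [hd']; exact Nat.floor_le hT0
  have hB : (d' : ℝ) + 3 / 2 - p / 2 ≤ S * m - S / m - m * ε := by rw [hT] at hd'1; linarith
  have hB2 : (d' : ℝ) + 3 / 2 - p / 2 < m * (S - ε) := by
    have : (m : ℝ) * (S - ε) = S * m - m * ε := by ring
    rw [this]; linarith
  have hd'good : Good K r m (fun b => d' + 1 - b) ((d' + 2).choose 2) := by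
    obtain ⟨Q, hQ⟩ : ∃ Q : ℕ, Q = (d' + 1) / p := ⟨_, rfl⟩
    obtain ⟨τ, hτ⟩ : ∃ τ : ℕ, τ = (d' + 1) % p := ⟨_, rfl⟩
    have hdiv : d' + 1 = p * Q + τ := by rw [hQ, hτ]; exact (Nat.div_add_mod _ _).symm
    have hτp : τ < p := by rw [hτ]; exact Nat.mod_lt _ hp
    have hmQ : m ≤ Q := by
      rw [hQ, Nat.le_div_iff_mul_le hp]; omega
    by_cases hflat : τ = 0 ∨ τ + 1 = p
    · obtain ⟨ρ, hch, hρ1, hρ2⟩ := exists_chain r p hr hp2 hpr.le hpar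
      have hρ : 0 < ρ := lt_of_lt_of_le hp0 hch.le
      obtain ⟨hSρ, hρS, hSr⟩ := rho_bounds hr hρ hρ1 hρ2
      rw [← hS] at hSρ hρS hSr
      rw [← hε] at hρS hSr
      refine flat_empty hp hdiv hτp hflat hch ?_ ?_
      · exact lt_of_lt_of_le hB2 (mul_le_mul_of_nonneg_left (by linarith) (by linarith))
      · calc ρ * ((d' : ℝ) + 3 / 2 - p / 2) < ρ * (m * (S - ε)) :=
              mul_lt_mul_of_pos_left hB2 hρ
          _ = m * ((S - ε) * ρ) := by ring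
          _ ≤ m * r := mul_le_mul_of_nonneg_left hSr (by linarith)
          _ = r * m := by ring
    · push Not at hflat
      have hτ0 : 0 < τ := by omega
      have hτ2 : τ + 2 ≤ p := by omega
      by_cases hsmall : τ * (τ + 1) ≤ 2 * Q
      · -- `δ = 1`
        obtain ⟨ρ, hch, hρ1, hρ2⟩ := exists_chain_one r p hp2 hpr hpar
        have hρ : 0 < ρ := lt_of_lt_of_le (by positivity) hch.le
        obtain ⟨hSρ, hρS, hSr⟩ := rho_bounds hr hρ hρ1 hρ2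
        rw [← hS] at hSρ hρS hSr
        rw [← hε] at hρS hSr
        refine tail_empty (δ := 1) (D := (d' : ℝ) + 3 / 2 - p / 2) hp hdiv hτp hτ0
          (by simpa using hsmall) hch ?_ ?_ ?_
        · rw [Nat.cast_one, sub_self, zero_div, add_zero]
        · exact lt_of_lt_of_le hB2 (mul_le_mul_of_nonneg_left (by linarith) (by linarith))
        · calc ρ * ((d' : ℝ) + 3 / 2 - p / 2) < ρ * (m * (S - ε)) :=
                mul_lt_mul_of_pos_left hB2 hρ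
            _ = m * ((S - ε) * ρ) := by ring
            _ ≤ m * r := mul_le_mul_of_nonneg_left hSr (by linarith)
            _ = r * m := by ring
      · -- `δ ≥ 2`
        push Not at hsmall
        exact big_empty hr hp2 hpr hr5 hpar hm hpm hU hS hdiv hτ0 hτ2 hmQ hsmall (by linarith)
  have h8 := Good.shrink (K := K) (d' + 1) (d + 1) (n := fun b => d' + 1 - b)
    (n' := fun b => d + 1 - b) (fun c hc => by omega) (fun c => by omega)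
    (by rw [sum_stair]; exact hd'good)
  rw [sum_stair] at h8
  exact h8

end Pool.Agent.Helper42.WindowF
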