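import Pool.Agent.Helper6.SQ.StripE
import Pool.Agent.Helper6.SQ.Two
import Pool.Agent.Helper6.SQ.Main
import Pool.Agent.Helper41.FatMainTwo
import Pool.Agent.Helper42.WindowF

set_option autoImplicit false

/-! # MP_e6aa12: the number of degrees left open

`Open K r m N`: outside some `N` consecutive degrees the general germ imposes the expected number
of conditions (below: no curve; above: independent conditions). -/

namespace Pool.Agent.Helper42.OpenDeg

open Pool.Agent.Helper41.Fat Pool.Agent.Helper6.SQ Pool.Agent.Helper42.WindowF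

variable (K : Type*) [Field K]

/-- no curve of degree `d` -/
def GE (r m d : ℕ) : Prop := Good K r m (fun b => d + 1 - b) ((d + 2).choose 2)

/-- independent conditions in degree `d` -/
def GR (r m d : ℕ) : Prop := Good K r m (fun b => d + 1 - b) (r * (m + 1).choose 2)

/-- outside `N` consecutive degrees everything is as expected -/
def Open (r m N : ℕ) : Prop :=
  ∃ a : ℕ, (∀ d < a, GE K r m d) ∧ ∀ d, a + N ≤ d → GR K r m d

/-- expected in degree `d` -/
def Ex (r m d : ℕ) : Prop :=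
  Good K r m (fun b => d + 1 - b) (min ((d + 2).choose 2) (r * (m + 1).choose 2))

variable {K}

theorem GE.pred {r m d : ℕ} (h : GE K r m (d + 1)) : GE K r m d := by
  unfold GE at h ⊢
  have h1 : ∑ b ∈ Finset.range (d + 2), (d + 1 + 1 - b) = (d + 1 + 2).choose 2 := sum_stair (d + 2)
  have h2 : ∑ b ∈ Finset.range (d + 1), (d + 1 - b) = (d + 2).choose 2 := sum_stair (d + 1)
  rw [← h1] at h
  rw [← h2]
  exact h.shrink (d + 2) (d + 1) (fun c hc => by omega) (fun c => by omega)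

theorem GE.of_le {r m d d' : ℕ} (h : GE K r m d) (hd : d' ≤ d) : GE K r m d' := by
  induction d, hd using Nat.le_induction with
  | base => exact h
  | succ d hd ih => exact ih h.pred

theorem GR.of_le {r m d d' : ℕ} (h : GR K r m d) (hd : d ≤ d') : GR K r m d' :=
  Good.mono (fun i => by omega) h

theorem typeE {r m d : ℕ} : (d + 2).choose 2 ≤ r * (m + 1).choose 2 ↔
    (d + 1) * (d + 2) ≤ r * (m * (m + 1)) := by
  have h1 : 2 * (d + 2).choose 2 = (d + 1) * (d + 2) := two_mul_choose (d + 1)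
  have h2 : 2 * (r * (m + 1).choose 2) = r * (m * (m + 1)) := by
    rw [← two_mul_choose m]; ring
  omega

theorem typeR {r m d : ℕ} : r * (m + 1).choose 2 ≤ (d + 2).choose 2 ↔
    r * (m * (m + 1)) ≤ (d + 1) * (d + 2) := by
  have h1 : 2 * (d + 2).choose 2 = (d + 1) * (d + 2) := two_mul_choose (d + 1)
  have h2 : 2 * (r * (m + 1).choose 2) = r * (m * (m + 1)) := by
    rw [← two_mul_choose m]; ring
  omega

theorem Ex.ge {r m d : ℕ} (h : Ex K r m d) (h1 : (d + 1) * (d + 2) ≤ r * (m * (m + 1))) :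
    GE K r m d := by
  unfold Ex at h
  rwa [min_eq_left (typeE.2 h1)] at h

theorem Ex.gr {r m d : ℕ} (h : Ex K r m d) (h1 : r * (m * (m + 1)) ≤ (d + 1) * (d + 2)) :
    GR K r m d := by
  unfold Ex at h
  rwa [min_eq_right (typeR.2 h1)] at h

theorem GE.ex {r m d : ℕ} (h : GE K r m d) : Ex K r m d := Good.le (min_le_left _ _) h

theorem GR.ex {r m d : ℕ} (h : GR K r m d) : Ex K r m d := Good.le (min_le_right _ _) h

theorem Open.mono {r m N N' : ℕ} (h : Open K r m N) (hN : N ≤ N') : Open K r m N' := by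
  obtain ⟨a, h1, h2⟩ := h
  exact ⟨a, h1, fun d hd => h2 d (by omega)⟩

/-- The critical degree. -/
theorem exists_crit (r m : ℕ) : ∃ c : ℕ, (∀ d < c, (d + 1) * (d + 2) < r * (m * (m + 1))) ∧
    r * (m * (m + 1)) ≤ (c + 1) * (c + 2) := by
  classical
  have hex : ∃ c : ℕ, r * (m * (m + 1)) ≤ (c + 1) * (c + 2) := by
    refine ⟨r * (m * (m + 1)), ?_⟩
    generalize r * (m * (m + 1)) = R
    have h1 : (R + 1) * (R + 2) = R * R + 3 * R + 2 := by ring
    have h2 : 0 ≤ R * R := Nat.zero_le _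
    omega
  refine ⟨Nat.find hex, fun d hd => ?_, Nat.find_spec hex⟩
  have := Nat.find_min hex hd
  omega

theorem lt_of_prod {x y : ℕ} (h : x * (x + 1) < y * (y + 1)) : x < y := by
  by_contra hcon
  push Not at hcon
  exact absurd h (not_lt.2 (Nat.mul_le_mul hcon (by omega)))

theorem le_of_prod {x y : ℕ} (h : x * (x + 1) ≤ y * (y + 1)) : x ≤ y := by
  by_contra hcon
  push Not at hcon
  have h1 : (y + 1) * (y + 1 + 1) ≤ x * (x + 1) := Nat.mul_le_mul hcon (by omega)
  linarith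

/-- If everything is as expected but for one degree. -/
theorem open_one_of {r m : ℕ} (d1 : ℕ) (h : ∀ d, d ≠ d1 → Ex K r m d) : Open K r m 1 := by
  obtain ⟨c, h1, h2⟩ := exists_crit r m
  have hR : ∀ d, c ≤ d → r * (m * (m + 1)) ≤ (d + 1) * (d + 2) := fun d hd =>
    h2.trans (Nat.mul_le_mul (by omega) (by omega))
  rcases lt_trichotomy (d1 + 1) c with hd | hd | hd
  · have hg : GE K r m (c - 1) := (h (c - 1) (by omega)).ge (h1 _ (by omega)).le
    exact ⟨c, fun d hd' => hg.of_le (by omega), fun d hd' =>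
      (h d (by omega)).gr (hR d (by omega))⟩
  · exact ⟨d1, fun d hd' => (h d (by omega)).ge (h1 d (by omega)).le, fun d hd' =>
      (h d (by omega)).gr (hR d (by omega))⟩
  · refine ⟨c, fun d hd' => (h d (by omega)).ge (h1 d (by omega)).le, fun d hd' => ?_⟩
    rcases eq_or_ne c d1 with he | he
    · exact (h d (by omega)).gr (hR d (by omega))
    · exact ((h c he).gr h2).of_le (by omega)

/-- Everything as expected. -/
theorem open_zero_of {r m : ℕ} (h : ∀ d, Ex K r m d) : Open K r m 0 := by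
  obtain ⟨c, h1, h2⟩ := exists_crit r m
  exact ⟨c, fun d hd => (h d).ge (h1 d hd).le, fun d hd => ((h c).gr h2).of_le hd⟩

/-- Everything as expected between two degrees of different types. -/
theorem open_zero_between {r m : ℕ} (x y : ℕ) (hrm : 0 < r * (m * (m + 1)))
    (hx : x * (x + 1) ≤ r * (m * (m + 1)))
    (hy : r * (m * (m + 1)) ≤ y * (y + 1)) (h : ∀ d, x ≤ d + 1 → d + 1 ≤ y → Ex K r m d) :
    Open K r m 0 := by
  obtain ⟨c, h1, h2⟩ := exists_crit r m
  have hcx : x ≤ c + 1 := le_of_prod (hx.trans h2)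
  have hcy : c + 1 ≤ y := by
    rcases Nat.eq_zero_or_pos c with hc | hc
    · subst hc
      rcases Nat.eq_zero_or_pos y with h0 | h0
      · subst h0; omega
      · exact h0
    · have h3 := h1 (c - 1) (by omega)
      have h4 : c * (c + 1) < y * (y + 1) := by
        refine lt_of_lt_of_le ?_ hy
        have e1 : c - 1 + 1 = c := by omega
        have e2 : c - 1 + 2 = c + 1 := by omega
        rwa [e1, e2] at h3
      exact lt_of_prod h4
  refine ⟨c, fun d hd => ?_, fun d hd => ((h c hcx hcy).gr h2).of_le hd⟩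
  rcases Nat.lt_or_ge c x with hxc | hxc
  · have hxe : x = c + 1 := by omega
    subst hxe
    exact ((h c le_rfl hcy).ge hx).of_le hd.le
  · have hg : GE K r m (c - 1) := by
      refine (h (c - 1) (by omega) (by omega)).ge (h1 _ (by omega)).le
    exact hg.of_le (by omega)

/-- The exact range of the strips. -/
theorem open_zero_strip [Infinite K] (p f m : ℕ) (hp : 0 < p) (hm : 1 ≤ m)
    (C1 : p * (p + 1) ≤ 2 * (f * m))
    (C2 : 2 * (f * m) * (m + 1) ≤ p ^ 2 * (5 * m + 9) + p * (m + 3))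
    (C3 : 2 * (m + 1) ≤ p * (p + 1)) : Open K (p ^ 2 + 2 * f) m 0 := by
  have hR : 0 < (p ^ 2 + 2 * f) * (m * (m + 1)) := by positivity
  refine open_zero_between (p * (m + 1)) (p * (m + 3)) hR ?_ ?_ ?_
  · linarith [Nat.mul_le_mul_right (m + 1) C1]
  · linarith
  · intro d h1 h2
    rcases Nat.lt_or_ge d (p * (m + 2)) with h3 | h3
    · exact strip_exact p f m d hp h1 h3
    · exact strip_exact2 p f m d hp (by omega) h2 C3

/-- The exact range of the strips, first part. -/
theorem open_zero_strip1 [Infinite K] (p f m : ℕ) (hp : 0 < p) (hm : 1 ≤ m)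
    (C1 : p * (p + 1) ≤ 2 * (f * m))
    (C2 : 2 * (f * m) * (m + 1) ≤ p ^ 2 * (3 * m + 4) + p * (m + 2)) :
    Open K (p ^ 2 + 2 * f) m 0 := by
  have hR : 0 < (p ^ 2 + 2 * f) * (m * (m + 1)) := by positivity
  refine open_zero_between (p * (m + 1)) (p * (m + 2)) hR ?_ ?_ ?_
  · linarith [Nat.mul_le_mul_right (m + 1) C1]
  · linarith
  · intro d h1 h2
    exact strip_exact p f m d hp h1 h2

/-- At most one degree. -/
theorem open_one_strip [Infinite K] (p f m : ℕ) (hp : 0 < p) (hm : 1 ≤ m)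
    (C1 : p * (p + 1) ≤ 2 * (f * m))
    (C2 : ∀ d, (d + 1) * (d + 2) ≤ (p ^ 2 + 2 * f) * (m * (m + 1)) →
      2 * m * (d + 2) ≤ p * (d + 2) + 2 * m * (p * (m + 1))) :
    Open K (p ^ 2 + 2 * f) m 1 := by
  have hR : 0 < (p ^ 2 + 2 * f) * (m * (m + 1)) := by positivity
  obtain ⟨c, h1, h2⟩ := exists_crit (p ^ 2 + 2 * f) m
  have hx : p * (m + 1) * (p * (m + 1) + 1) ≤ (p ^ 2 + 2 * f) * (m * (m + 1)) := by
    linarith [Nat.mul_le_mul_right (m + 1) C1]
  rcases Nat.lt_or_ge (p * (m + 2) * (p * (m + 2) + 1)) ((p ^ 2 + 2 * f) * (m * (m + 1)))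
    with hy | hy
  swap
  · refine (open_zero_between (p * (m + 1)) (p * (m + 2)) hR hx hy ?_).mono (by omega)
    intro d h3 h4
    exact strip_exact p f m d hp h3 h4
  have hcy : p * (m + 2) < c + 1 := lt_of_prod (lt_of_lt_of_le hy h2)
  have e2 : p * (m + 2) = p * (m + 1) + p := by ring
  obtain ⟨q, hq1, hq2⟩ : ∃ q, p * q ≤ c + 1 ∧ c + 1 < p * (q + 1) :=
    ⟨(c + 1) / p, Nat.mul_div_le _ _, Nat.lt_mul_div_succ _ hp⟩
  have hqm : m + 2 ≤ q := by
    by_contra hcon
    push Not at hcon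
    have : p * (q + 1) ≤ p * (m + 2) := Nat.mul_le_mul_left _ (by omega)
    omega
  obtain ⟨k, rfl⟩ : ∃ k, q = m + 1 + k := ⟨q - m - 1, by omega⟩
  have hk : 1 ≤ k := by omega
  -- the critical inequality
  have hkm : 2 * (k * m) ≤ c + 1 := by
    have h3 := C2 (c - 1) (by
      have := h1 (c - 1) (by omega)
      exact this.le)
    have e3 : c - 1 + 2 = c + 1 := by omega
    rw [e3] at h3
    have h4 : 2 * m * (p * (m + 1 + k)) ≤ 2 * m * (c + 1) := Nat.mul_le_mul_left _ hq1
    have h5 : p * (2 * (k * m)) ≤ p * (c + 1) := by linarith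
    exact Nat.le_of_mul_le_mul_left h5 hp
  have hg1 : c * (c + 1) < (p ^ 2 + 2 * f) * (m * (m + 1)) := by
    have := h1 (c - 1) (by omega)
    have e3 : c - 1 + 2 = c + 1 := by omega
    have e4 : c - 1 + 1 = c := by omega
    rwa [e3, e4] at this
  have e5 : p * (m + (k + 1) + 1) = p * (m + 1 + k + 1) := by ring
  have e6 : (c + 1) * (c + 2) = c * (c + 1) + 2 * (c + 1) := by ring
  have e7 : (c + 2) * (c + 3) = (c + 1) * (c + 2) + 2 * (c + 2) := by ring
  have e8 : 2 * ((k + 1) * m) = 2 * (k * m) + 2 * m := by ring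
  have hp1 : p * (m + 1) ≤ c - 1 := by omega
  rcases Nat.lt_or_ge ((p ^ 2 + 2 * f) * (m * (m + 1))) (c * (c + 1) + 2 * (k * m)) with h3 | h3
  · -- `c` is settled
    refine ⟨c - 1, fun d hd => ?_, fun d hd => ?_⟩
    · have hg : GE K (p ^ 2 + 2 * f) m (c - 2) := by
        refine strip_E p f m (c - 2) (k + 1) hp (by omega) (by omega) ?_
        obtain ⟨c', rfl⟩ : ∃ c', c = c' + 2 := ⟨c - 2, by omega⟩
        have e9 : c' + 2 - 2 = c' := by omega
        rw [e9, e8]
        have e10 : (c' + 2) * (c' + 2 + 1) = (c' + 1) * (c' + 2) + 2 * (c' + 2) := by ring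
        omega
      exact hg.of_le (by omega)
    · have hg : GR K (p ^ 2 + 2 * f) m c := by
        refine strip_R p f m c (k + 1) hp (by omega) (by omega) ?_
        rw [e8]
        omega
      exact hg.of_le (by omega)
  · refine ⟨c, fun d hd => ?_, fun d hd => ?_⟩
    · have hg : GE K (p ^ 2 + 2 * f) m (c - 1) := by
        refine strip_E p f m (c - 1) (k + 1) hp (by omega) (by omega) ?_
        have e3 : c - 1 + 2 = c + 1 := by omega
        have e4 : c - 1 + 1 = c := by omega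
        rw [e3, e4, e8]
        omega
      exact hg.of_le (by omega)
    · have hg : GR K (p ^ 2 + 2 * f) m (c + 1) := by
        refine strip_R p f m (c + 1) (k + 1) hp (by omega) (by omega) ?_
        rw [e8]
        have e9 : (c + 1 + 1) * (c + 1 + 2) = (c + 2) * (c + 3) := by ring
        omega
      exact hg.of_le (by omega)

/-- At most one degree, simple criterion. -/
theorem open_one_simple [Infinite K] (p f m : ℕ) (hp : 0 < p) (hm : 1 ≤ m)
    (C1 : p * (p + 1) ≤ 2 * (f * m)) (C2 : 2 * (f * m) ≤ p ^ 2 * (p + 1)) :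
    Open K (p ^ 2 + 2 * f) m 1 := by
  refine open_one_strip p f m hp hm C1 fun d hd => ?_
  have hf : 1 ≤ f := by
    rcases Nat.eq_zero_or_pos f with h | h
    · subst h
      have : 0 < p * (p + 1) := by positivity
      omega
    · exact h
  have h2m : 2 * m ≤ p ^ 2 * (p + 1) := by
    have := Nat.mul_le_mul_right m hf
    omega
  by_contra hcon
  push Not at hcon
  obtain ⟨X, hX⟩ : ∃ X : ℤ, X = d + 2 := ⟨_, rfl⟩
  obtain ⟨P, hP⟩ : ∃ P : ℤ, P = p := ⟨_, rfl⟩
  obtain ⟨M, hM⟩ : ∃ M : ℤ, M = m := ⟨_, rfl⟩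
  have hP1 : 1 ≤ P := by rw [hP]; exact_mod_cast hp
  have hM1 : 1 ≤ M := by rw [hM]; exact_mod_cast hm
  have hX2 : 2 ≤ X := by rw [hX]; omega
  have a1 : P * X + 2 * M * (P * (M + 1)) + 1 ≤ 2 * M * X := by
    rw [hX, hP, hM]; exact_mod_cast hcon
  have a2 : (X - 1) * X ≤ P ^ 2 * (M + P + 1) * (M + 1) := by
    have b1 : (d + 1) * (d + 2) ≤ (p ^ 2 * m + p ^ 2 * (p + 1)) * (m + 1) := by
      linarith [Nat.mul_le_mul_right (m + 1) C2]
    have b2 : ((d : ℤ) + 1) * (d + 2) ≤ (p ^ 2 * m + p ^ 2 * (p + 1)) * (m + 1) := by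
      exact_mod_cast b1
    rw [hX, hP, hM]
    linarith
  have a3 : 2 * M ≤ P ^ 2 * (P + 1) := by rw [hP, hM]; exact_mod_cast h2m
  obtain ⟨t, ht⟩ : ∃ t : ℤ, t = 2 * M - P := ⟨_, rfl⟩
  obtain ⟨Y, hY⟩ : ∃ Y : ℤ, Y = 2 * M * (P * (M + 1)) := ⟨_, rfl⟩
  have a4 : Y + 1 ≤ t * X := by rw [ht, hY]; linarith
  have hY0 : 0 < Y := by rw [hY]; positivity
  have ht0 : 0 < t := by
    by_contra h
    push Not at h
    have : t * X ≤ 0 := mul_nonpos_of_nonpos_of_nonneg h (by linarith)
    linarith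
  have htY : t ≤ Y := by
    rw [ht, hY]
    have h1 : 1 ≤ P * (M + 1) := by
      have := mul_le_mul hP1 (show (1 : ℤ) ≤ M + 1 by linarith) (by norm_num) (by linarith)
      linarith
    have h2 := mul_le_mul_of_nonneg_left h1 (show (0 : ℤ) ≤ 2 * M by linarith)
    linarith
  have a5 : (Y + 1) * (Y + 1 - t) ≤ (t * X) * (t * X - t) :=
    mul_le_mul a4 (by linarith) (by linarith) (by linarith)
  have a6 : (t * X) * (t * X - t) ≤ t ^ 2 * (P ^ 2 * (M + P + 1) * (M + 1)) := by
    have : (t * X) * (t * X - t) = t ^ 2 * ((X - 1) * X) := by ring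
    rw [this]
    exact mul_le_mul_of_nonneg_left a2 (by positivity)
  have a7 : (Y + 1) * (Y + 1 - t) - t ^ 2 * (P ^ 2 * (M + P + 1) * (M + 1))
      = P * (M + 1) * (P ^ 2 * (3 * M * P + 4 * M - P ^ 2 - P) + 4 * M - 4 * M ^ 2 + 2 * M * P)
        + (1 - t) := by
    rw [hY, ht]; ring
  have a8 : 2 ≤ P ^ 2 * (3 * M * P + 4 * M - P ^ 2 - P) + 4 * M - 4 * M ^ 2 + 2 * M * P := by
    rcases le_or_gt P M with hPM | hPM
    · have b1 : 2 * M * (2 * M) ≤ 2 * M * (P ^ 2 * (P + 1)) :=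
        mul_le_mul_of_nonneg_left a3 (by linarith)
      have b2 : P ^ 3 * P ≤ P ^ 3 * M := mul_le_mul_of_nonneg_left hPM (by positivity)
      have b3 : P ^ 2 * P ≤ P ^ 2 * M := mul_le_mul_of_nonneg_left hPM (by positivity)
      have b4 : 0 < M * P := by positivity
      have b5 : 0 < M * P ^ 2 := by positivity
      linarith
    · have b1 : P + 1 ≤ 2 * M := by linarith
      have b2 : P ^ 3 * (P + 1) ≤ P ^ 3 * (2 * M) := mul_le_mul_of_nonneg_left b1 (by positivity)
      have b3 : M * M ≤ M * P := mul_le_mul_of_nonneg_left hPM.le (by linarith)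
      have b4 : M * P * 1 ≤ M * P * P := mul_le_mul_of_nonneg_left hP1 (by positivity)
      have b5 : 0 < M * P ^ 2 := by positivity
      have b6 : 0 < M * P ^ 3 := by positivity
      linarith
  have a9 : P * (M + 1) * 2 ≤ P * (M + 1) *
      (P ^ 2 * (3 * M * P + 4 * M - P ^ 2 - P) + 4 * M - 4 * M ^ 2 + 2 * M * P) :=
    mul_le_mul_of_nonneg_left a8 (by positivity)
  have a10 : 0 < P * (M + 1) * 2 + (1 - t) := by
    rw [ht]
    have := mul_le_mul_of_nonneg_right hP1 (show (0 : ℤ) ≤ M by linarith)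
    linarith
  linarith

/-- The largest admissible width. -/
theorem exists_top (r m : ℕ) (hr : 10 ≤ r) (hm : 1 ≤ m) : ∃ p f : ℕ, 1 ≤ p ∧ r = p ^ 2 + 2 * f ∧
    p * (p + 1) ≤ 2 * (f * m) ∧ r * m < (p + 2) * (p + 3) + (p + 2) ^ 2 * m ∧
    ∀ q, q % 2 = r % 2 → q * (q + 1) + q ^ 2 * m ≤ r * m → q ≤ p := by
  classical
  let P : ℕ → Prop := fun p => p % 2 = r % 2 ∧ p * (p + 1) + p ^ 2 * m ≤ r * m
  have hPle : ∀ q, P q → q ≤ r := by
    rintro q ⟨-, h⟩
    by_contra hcon
    push Not at hcon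
    have h1 : r * m ≤ q * m := Nat.mul_le_mul_right _ hcon.le
    have h2 : q * m ≤ q ^ 2 * m := Nat.mul_le_mul_right _ (by nlinarith)
    have h3 : 0 < q * (q + 1) := by
      have : 0 < q := by omega
      positivity
    omega
  have hrm : 10 * m ≤ r * m := Nat.mul_le_mul_right _ hr
  have hbase : ∃ q, 1 ≤ q ∧ P q := by
    rcases Nat.mod_two_eq_zero_or_one r with h | h
    · exact ⟨2, by omega, by rw [h], by omega⟩
    · exact ⟨1, le_rfl, by rw [h], by omega⟩
  obtain ⟨q₀, hq₀, hPq₀⟩ := hbase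
  have hspec : P (Nat.findGreatest P r) := Nat.findGreatest_spec (hPle q₀ hPq₀) hPq₀
  have hle : ∀ q, P q → q ≤ Nat.findGreatest P r := fun q hq => Nat.le_findGreatest (hPle q hq) hq
  set p := Nat.findGreatest P r with hp
  obtain ⟨h1, h2⟩ := hspec
  have hp2 : p ^ 2 ≤ r := by
    have : p ^ 2 * m ≤ r * m := by omega
    exact Nat.le_of_mul_le_mul_right this (by omega)
  obtain ⟨f, hf⟩ : ∃ f, r = p ^ 2 + 2 * f := by
    refine ⟨(r - p ^ 2) / 2, ?_⟩
    have hpp : p ^ 2 % 2 = r % 2 := by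
      rw [Nat.pow_mod, h1]
      rcases Nat.mod_two_eq_zero_or_one r with h | h <;> rw [h]
    omega
  refine ⟨p, f, hq₀.trans (hle q₀ hPq₀), hf, ?_, ?_, fun q h3 h4 => hle q ⟨h3, h4⟩⟩
  · have : r * m = p ^ 2 * m + 2 * (f * m) := by rw [hf]; ring
    omega
  · by_contra hcon
    push Not at hcon
    have := hle (p + 2) ⟨by omega, by linarith⟩
    omega

end Pool.Agent.Helper42.OpenDeg
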