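import Pool.Agent.Helper42.OpenDeg

set_option autoImplicit false

/-! # MP_e6aa12: the number of degrees left open, part B (large `r`, and the windows) -/

namespace Pool.Agent.Helper42.OpenDeg

open Pool.Agent.Helper41.Fat Pool.Agent.Helper6.SQ Pool.Agent.Helper42.WindowF

variable {K : Type*} [Field K]

/-- No degree is left open if `(m + 3) ^ 2 ≤ r`. -/
theorem open_zero_large [Infinite K] (r m : ℕ) (hr : 10 ≤ r) (hm : 3 ≤ m) (h : (m + 3) ^ 2 ≤ r) :
    Open K r m 0 := by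
  obtain ⟨p, f, hp1, hf, C1, hlt, hmax⟩ := exists_top r m hr (by omega)
  have hrm : (m + 3) ^ 2 * m ≤ r * m := Nat.mul_le_mul_right _ h
  have hpm : m + 1 ≤ p := by
    rcases Nat.mod_two_eq_zero_or_one (r + m) with h2 | h2
    · have h3 := hmax (m + 2) (by omega) (by nlinarith)
      omega
    · exact hmax (m + 1) (by omega) (by nlinarith)
  obtain ⟨x, rfl⟩ : ∃ x, p = m + 1 + x := ⟨p - (m + 1), by omega⟩
  have e1 : r * m = (m + 1 + x) ^ 2 * m + 2 * (f * m) := by rw [hf]; ring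
  have h5 : 2 * (f * m) + 1 ≤ (m + 1 + x + 2) * (m + 1 + x + 3) + (4 * (m + 1 + x) + 4) * m := by
    nlinarith
  rw [hf]
  refine open_zero_strip (m + 1 + x) f m hp1 (by omega) C1 ?_ ?_
  · have h6 : (2 * (f * m) + 1) * (m + 1) ≤
        ((m + 1 + x + 2) * (m + 1 + x + 3) + (4 * (m + 1 + x) + 4) * m) * (m + 1) :=
      Nat.mul_le_mul_right _ h5
    nlinarith [mul_nonneg (Nat.zero_le x) (Nat.zero_le m),
      mul_nonneg (Nat.zero_le (x * x)) (Nat.zero_le m),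
      mul_nonneg (Nat.zero_le x) (Nat.zero_le (m * m))]
  · nlinarith [mul_nonneg (Nat.zero_le x) (Nat.zero_le m)]

/-- At most one degree is left open if `2 √m + 3/2 ≤ √r`. -/
theorem open_one_large [Infinite K] (r m : ℕ) (hr : 10 ≤ r) (hm : 9 ≤ m)
    (h : 2 * √(m : ℝ) + 3 / 2 ≤ √(r : ℝ)) : Open K r m 1 := by
  obtain ⟨p, f, hp1, hf, C1, hlt, hmax⟩ := exists_top r m hr (by omega)
  have h4 : 4 * m ≤ p * (p + 2) := by
    by_contra hcon
    push Not at hcon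
    have h1 : (p + 1) ^ 2 ≤ 4 * m := by nlinarith
    obtain ⟨u, hu⟩ : ∃ u : ℝ, u = 2 * √(m : ℝ) := ⟨_, rfl⟩
    have hu0 : 0 ≤ u := by rw [hu]; positivity
    have hu2 : u ^ 2 = 4 * m := by
      rw [hu, mul_pow, Real.sq_sqrt (Nat.cast_nonneg m)]; ring
    have hm' : (9 : ℝ) ≤ m := by exact_mod_cast hm
    have hu6 : 6 ≤ u := by nlinarith
    have hpu : (p : ℝ) + 1 ≤ u := by
      have h2 : ((p : ℝ) + 1) ^ 2 ≤ u ^ 2 := by
        rw [hu2]; exact_mod_cast h1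
      exact le_of_sq_le_sq h2 hu0
    have hr2 : (u + 3 / 2) ^ 2 ≤ r := by
      have h2 : u + 3 / 2 ≤ √(r : ℝ) := by rw [hu]; exact h
      have h3 : (u + 3 / 2) ^ 2 ≤ √(r : ℝ) ^ 2 := by
        apply pow_le_pow_left₀ (by linarith) h2
      rwa [Real.sq_sqrt (Nat.cast_nonneg r)] at h3
    have hlt' : (r : ℝ) * m < (p + 2) * (p + 3) + (p + 2) ^ 2 * m := by exact_mod_cast hlt
    have hp0 : (0 : ℝ) ≤ p := Nat.cast_nonneg p
    have h5 : ((p : ℝ) + 2) * (p + 3) ≤ (u + 1) * (u + 2) := by nlinarith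
    have h6 : ((p : ℝ) + 2) ^ 2 ≤ (u + 1) ^ 2 := by nlinarith
    have h7 : ((p : ℝ) + 2) ^ 2 * m ≤ (u + 1) ^ 2 * m :=
      mul_le_mul_of_nonneg_right h6 (by linarith)
    have h8 : (u + 3 / 2) ^ 2 * m ≤ r * m := mul_le_mul_of_nonneg_right hr2 (by linarith)
    have h9 : (m : ℝ) = u ^ 2 / 4 := by linarith
    have h10 : (u + 3 / 2) ^ 2 * (m : ℝ) < (u + 1) * (u + 2) + (u + 1) ^ 2 * m := by linarith
    rw [h9] at h10
    have h11 : 0 < (u + 3 / 2) ^ 2 * (u ^ 2 / 4) - ((u + 1) * (u + 2) + (u + 1) ^ 2 * (u ^ 2 / 4)) := by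
      have : (u + 3 / 2) ^ 2 * (u ^ 2 / 4) - ((u + 1) * (u + 2) + (u + 1) ^ 2 * (u ^ 2 / 4))
          = u * u * (u / 4 - 11 / 16) - 3 * u - 2 := by ring
      rw [this]
      have h12 : 6 * u * (13 / 16) ≤ u * u * (u / 4 - 11 / 16) := by
        have : 6 * u ≤ u * u := by nlinarith
        nlinarith
      linarith
    linarith
  rw [hf]
  refine open_one_strip p f m hp1 (by omega) C1 fun d hd => ?_
  -- `d + 2 ≤ (p + 2) (m + 1)`
  have h5 : d + 1 < (p + 2) * (m + 1) := by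
    refine lt_of_prod (lt_of_le_of_lt hd ?_)
    have h6 : (r * m) * (m + 1) < ((p + 2) * (p + 3) + (p + 2) ^ 2 * m) * (m + 1) :=
      Nat.mul_lt_mul_of_pos_right hlt (by omega)
    rw [hf] at h6
    nlinarith
  rcases Nat.lt_or_ge (2 * m) p with h6 | h6
  · have : 2 * m * (d + 2) ≤ p * (d + 2) := Nat.mul_le_mul_right _ h6.le
    omega
  · obtain ⟨t, ht⟩ : ∃ t, 2 * m = p + t := ⟨2 * m - p, by omega⟩
    have h7 : t * (d + 2) ≤ t * ((p + 2) * (m + 1)) := Nat.mul_le_mul_left _ h5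
    have h8 : t * (p + 2) ≤ 2 * m * p := by nlinarith
    have h9 : t * (p + 2) * (m + 1) ≤ 2 * m * p * (m + 1) := Nat.mul_le_mul_right _ h8
    rw [ht] at h9 ⊢
    nlinarith

/-- From real thresholds to the number of degrees. -/
theorem open_of_real {r m N : ℕ} (L U : ℝ) (hE : ∀ d : ℕ, (d : ℝ) + 3 / 2 ≤ L → GE K r m d)
    (hR : ∀ d : ℕ, U ≤ (d : ℝ) + 3 / 2 → GR K r m d) (h : U ≤ L + N) : Open K r m N := by
  refine ⟨⌊L - 1 / 2⌋₊, fun d hd => hE d ?_, fun d hd => hR d ?_⟩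
  · have h1 : 0 < ⌊L - 1 / 2⌋₊ := by omega
    have h2 : 0 ≤ L - 1 / 2 := by
      have := Nat.floor_pos.1 h1
      linarith
    have h3 := Nat.floor_le h2
    have h4 : (d : ℝ) + 1 ≤ ⌊L - 1 / 2⌋₊ := by exact_mod_cast hd
    linarith
  · have h1 := Nat.lt_floor_add_one (L - 1 / 2)
    have h2 : (⌊L - 1 / 2⌋₊ : ℝ) + N ≤ d := by exact_mod_cast hd
    linarith

/-- The windows. -/
theorem open_window [Infinite K] (r m N : ℕ) (hr : 10 ≤ r) (hm : 1 ≤ m)
    (hrm : r ≤ (2 * m + 1) ^ 2)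
    (hN : 2 + √(r : ℝ) / m + (2 * m + 1) / (2 * (r - 2) * √(r : ℝ)) ≤ N) : Open K r m N := by
  obtain ⟨p, hp2, hpar, hpr, hlt⟩ : ∃ p, 2 ≤ p ∧ p % 2 = r % 2 ∧ p ^ 2 ≤ r ∧ r < (p + 2) ^ 2 := by
    have h1 := Nat.sqrt_le' r
    have h2 := Nat.lt_succ_sqrt' r
    have h3 : 3 ≤ Nat.sqrt r := by
      rw [Nat.le_sqrt']; omega
    rcases Nat.mod_two_eq_zero_or_one (r + Nat.sqrt r) with h | h
    · exact ⟨Nat.sqrt r, by omega, by omega, h1, lt_of_lt_of_le h2 (Nat.pow_le_pow_left (by simp) 2)⟩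
    · refine ⟨Nat.sqrt r - 1, by omega, by omega, le_trans (Nat.pow_le_pow_left (by omega) 2) h1, ?_⟩
      have h4 : Nat.sqrt r - 1 + 2 = (Nat.sqrt r).succ := by omega
      rw [h4]
      exact h2
  have hr' : (10 : ℝ) ≤ r := by exact_mod_cast hr
  have hm' : (1 : ℝ) ≤ m := by exact_mod_cast hm
  have hs0 : 0 < √(r : ℝ) := Real.sqrt_pos.2 (by linarith)
  have hs2 : √(r : ℝ) ^ 2 = r := Real.sq_sqrt (by linarith)
  have hsp : √(r : ℝ) < p + 2 := by
    rw [Real.sqrt_lt' (by positivity)]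
    exact_mod_cast hlt
  have hpm : p ≤ 2 * m + 1 := by
    have : p ^ 2 ≤ (2 * m + 1) ^ 2 := hpr.trans hrm
    exact (Nat.pow_le_pow_iff_left (by norm_num)).1 this
  have e1 : (2 * (m : ℝ) + 1) / (2 * (r - 2) * √(r : ℝ))
      = m / (2 * (r - 2) * √(r : ℝ)) + (m + 1) / (2 * (r - 2) * √(r : ℝ)) := by ring
  rcases Nat.lt_or_ge (m * (r - p ^ 2)) ((p - 1) * (p - 2)) with hB | hA
  · -- case B: the width `p - 2` from below
    have hp3 : p ≠ 2 := by rintro rfl; simp at hB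
    have hp4 : p ≠ 3 := by
      rintro rfl
      have h1 : 2 ≤ r - 3 ^ 2 := by omega
      have h2 : 1 * 2 ≤ m * (r - 3 ^ 2) := Nat.mul_le_mul hm h1
      omega
    obtain ⟨q, rfl⟩ : ∃ q, p = q + 2 := ⟨p - 2, by omega⟩
    have e2 : q + 2 - 1 = q + 1 := by omega
    have e3 : q + 2 - 2 = q := by omega
    rw [e2, e3] at hB
    have hq1 : r < (q + 3) ^ 2 := by
      by_contra hcon
      push Not at hcon
      have h1 : 2 * q + 5 ≤ r - (q + 2) ^ 2 := by
        have : (q + 3) ^ 2 = (q + 2) ^ 2 + (2 * q + 5) := by ring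
        omega
      have h2 : m * (2 * q + 5) ≤ m * (r - (q + 2) ^ 2) := Nat.mul_le_mul_left _ h1
      nlinarith
    have hsq : √(r : ℝ) < q + 3 := by
      rw [Real.sqrt_lt' (by positivity)]
      exact_mod_cast hq1
    refine open_of_real (√(r : ℝ) * (m + 1 / 2) - (√(r : ℝ) - q) / 2 - √(r : ℝ) / m
        - m / (2 * (r - 2) * √(r : ℝ)))
      (√(r : ℝ) * (m + 1 / 2) + (√(r : ℝ) - ((q + 2 : ℕ) : ℝ)) / 2
        + (m + 1) / (2 * (r - 2) * √(r : ℝ))) ?_ ?_ ?_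
    · intro d hd
      refine windowF_empty r q m d hr (by omega) (by nlinarith) (by nlinarith) (by omega) hm
        (by omega) ?_ hd
      have h1 : 4 * q + 4 ≤ r - q ^ 2 := by
        have : (q + 2) ^ 2 = q ^ 2 + (4 * q + 4) := by ring
        omega
      have h2 : m * (4 * q + 4) ≤ m * (r - q ^ 2) := Nat.mul_le_mul_left _ h1
      have h3 : (q - 1) * (q - 2) ≤ q * q := Nat.mul_le_mul (by omega) (by omega)
      nlinarith
    · intro d hd
      exact windowF_regular r (q + 2) m d hr hp2 hpr hpar hd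
    · push_cast
      rw [e1] at hN
      linarith
  · -- case A
    have hpr' : p ^ 2 < r := by
      rcases lt_or_eq_of_le hpr with h | h
      · exact h
      · exfalso
        rw [h, Nat.sub_self, mul_zero] at hA
        have h4 : 4 ≤ p := by nlinarith
        have : 0 < (p - 1) * (p - 2) := Nat.mul_pos (by omega) (by omega)
        omega
    refine open_of_real (√(r : ℝ) * (m + 1 / 2) - (√(r : ℝ) - p) / 2 - √(r : ℝ) / m
        - m / (2 * (r - 2) * √(r : ℝ)))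
      (√(r : ℝ) * (m + 1 / 2) + (√(r : ℝ) - p) / 2
        + (m + 1) / (2 * (r - 2) * √(r : ℝ))) ?_ ?_ ?_
    · intro d hd
      exact windowF_empty r p m d hr hp2 hpr' (by nlinarith) hpar hm hpm hA hd
    · intro d hd
      exact windowF_regular r p m d hr hp2 hpr hpar hd
    · rw [e1] at hN
      linarith

end Pool.Agent.Helper42.OpenDeg
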