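import Pool.Agent.Helper1.SD.Defs2

set_option autoImplicit false

/-!
The data of the small instances: the pentagon system and the system of type `A₄`.
-/

namespace Pool.Agent.Helper1.SD

open Matrix

/-! ### The pentagon -/

/-- The first spanning set of the pentagon system. -/
def pentA : Set (Fin 3 → ℝ) := {![1, 0, 0], ![0, 1, 0], ![1, 0, 1], ![0, 1, 1]}

/-- The second spanning set of the pentagon system. -/
def pentB : Set (Fin 3 → ℝ) := {![1, 0, 0], ![0, 1, 0], ![0, 0, 1], ![1, 1, -1]}

theorem cover_of_four {N : ℕ} {v0 v1 v2 v3 : Fin N → ℝ} (h0 : LinearIndependent ℝ ![v1, v2, v3])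
    (h1 : LinearIndependent ℝ ![v0, v2, v3]) (h2 : LinearIndependent ℝ ![v0, v1, v3])
    (h3 : LinearIndependent ℝ ![v0, v1, v2]) {P : (Fin N → ℝ) → Prop} :
    Cover 1 {a | a ∈ ({v0, v1, v2, v3} : Set (Fin N → ℝ)) ∧ P a} := by
  have hr : ∀ a b c z : Fin N → ℝ, z = a ∨ z = b ∨ z = c → z ∈ Set.range ![a, b, c] := by
    intro a b c z hz
    rcases hz with rfl | rfl | rfl
    · exact ⟨0, rfl⟩
    · exact ⟨1, rfl⟩
    · exact ⟨2, rfl⟩
  by_cases c0 : P v0
  · by_cases c1 : P v1
    · by_cases c2 : P v2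
      · right
        refine ⟨![v0, v1, v2], h3, ?_⟩
        intro i
        fin_cases i
        · exact ⟨by simp, c0⟩
        · exact ⟨by simp, c1⟩
        · exact ⟨by simp, c2⟩
      · left
        refine ⟨3, _, h2, ?_⟩
        rintro z ⟨hz, hp⟩
        simp only [Set.mem_insert_iff, Set.mem_singleton_iff] at hz
        apply hr
        rcases hz with rfl | rfl | rfl | rfl
        · exact Or.inl rfl
        · exact Or.inr (Or.inl rfl)
        · exact absurd hp c2
        · exact Or.inr (Or.inr rfl)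
    · left
      refine ⟨3, _, h1, ?_⟩
      rintro z ⟨hz, hp⟩
      simp only [Set.mem_insert_iff, Set.mem_singleton_iff] at hz
      apply hr
      rcases hz with rfl | rfl | rfl | rfl
      · exact Or.inl rfl
      · exact absurd hp c1
      · exact Or.inr (Or.inl rfl)
      · exact Or.inr (Or.inr rfl)
  · left
    refine ⟨3, _, h0, ?_⟩
    rintro z ⟨hz, hp⟩
    simp only [Set.mem_insert_iff, Set.mem_singleton_iff] at hz
    apply hr
    rcases hz with rfl | rfl | rfl | rfl
    · exact absurd hp c0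
    · exact Or.inl rfl
    · exact Or.inr (Or.inl rfl)
    · exact Or.inr (Or.inr rfl)

theorem li3 (a b c : Fin 3 → ℝ)
    (h : ∀ x y z : ℝ, (∀ l, x * a l + y * b l + z * c l = 0) → x = 0 ∧ y = 0 ∧ z = 0) :
    LinearIndependent ℝ ![a, b, c] := by
  rw [Fintype.linearIndependent_iff]
  intro g hg
  have h1 : ∀ l, g 0 * a l + g 1 * b l + g 2 * c l = 0 := by
    intro l
    have := congrFun hg l
    simpa [Fin.sum_univ_three] using this
  obtain ⟨h2, h3, h4⟩ := h _ _ _ h1
  intro i
  fin_cases i
  · exact h2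
  · exact h3
  · exact h4

theorem finite_pentA : pentA.Finite := by
  unfold pentA; exact Set.toFinite _

theorem finite_pentB : pentB.Finite := by
  unfold pentB; exact Set.toFinite _

theorem span_pentA : Submodule.span ℝ pentA = ⊤ := by
  rw [eq_top_iff]
  rintro x -
  have h0 : (![1, 0, 0] : Fin 3 → ℝ) ∈ Submodule.span ℝ pentA :=
    Submodule.subset_span (by simp [pentA])
  have h1 : (![0, 1, 0] : Fin 3 → ℝ) ∈ Submodule.span ℝ pentA :=
    Submodule.subset_span (by simp [pentA])
  have h2 : (![1, 0, 1] : Fin 3 → ℝ) ∈ Submodule.span ℝ pentA :=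
    Submodule.subset_span (by simp [pentA])
  have hx : x = (x 0 - x 2) • (![1, 0, 0] : Fin 3 → ℝ) + x 1 • (![0, 1, 0] : Fin 3 → ℝ)
      + x 2 • (![1, 0, 1] : Fin 3 → ℝ) := by
    ext l; fin_cases l <;> simp
  rw [hx]
  exact Submodule.add_mem _ (Submodule.add_mem _ (Submodule.smul_mem _ _ h0)
    (Submodule.smul_mem _ _ h1)) (Submodule.smul_mem _ _ h2)

/-- The pentagon system (no reflections). -/
def pentSys : RefSys 3 where
  m := 0
  α := fun i => i.elim0
  ρ := 0
  pos := fun i => i.elim0
  A := pentA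
  B := pentB
  finA := finite_pentA
  finB := finite_pentB
  spanA := span_pentA
  reflA := fun i => i.elim0
  reflB := fun i => i.elim0

theorem good_pentSys : pentSys.Good 1 where
  nonneg := by
    intro a ha b hb
    change a ∈ pentA at ha
    change b ∈ pentB at hb
    simp only [pentA, pentB, Set.mem_insert_iff, Set.mem_singleton_iff] at ha hb
    rcases ha with rfl | rfl | rfl | rfl <;> rcases hb with rfl | rfl | rfl | rfl <;>
      simp [dotProduct, Fin.sum_univ_three]
  key := by
    intro x y _ _ hx hy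
    have x0 := hx ![1, 0, 0] (by simp [pentSys, pentB])
    have x1 := hx ![0, 1, 0] (by simp [pentSys, pentB])
    have x2 := hx ![0, 0, 1] (by simp [pentSys, pentB])
    have x3 := hx ![1, 1, -1] (by simp [pentSys, pentB])
    have y0 := hy ![1, 0, 0] (by simp [pentSys, pentA])
    have y1 := hy ![0, 1, 0] (by simp [pentSys, pentA])
    have y2 := hy ![1, 0, 1] (by simp [pentSys, pentA])
    have y3 := hy ![0, 1, 1] (by simp [pentSys, pentA])
    simp [dotProduct, Fin.sum_univ_three] at x0 x1 x2 x3 y0 y1 y2 y3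
    simp only [dotProduct, Fin.sum_univ_three]
    rcases le_or_gt 0 (y 2) with h | h
    · nlinarith [mul_nonneg x0 y0, mul_nonneg x1 y1, mul_nonneg x2 h]
    · nlinarith [mul_nonneg x0 y2, mul_nonneg x1 y3,
        mul_nonneg (sub_nonneg.2 x3) (neg_nonneg.2 h.le)]
  coverA := by
    intro y _ _
    apply cover_of_four
    all_goals
      apply li3
      intro u v w h
      have h0 := h 0
      have h1 := h 1
      have h2 := h 2
      simp at h0 h1 h2
      refine ⟨?_, ?_, ?_⟩ <;> linarith
  coverB := by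
    intro y _ _
    apply cover_of_four
    all_goals
      apply li3
      intro u v w h
      have h0 := h 0
      have h1 := h 1
      have h2 := h 2
      simp at h0 h1 h2
      refine ⟨?_, ?_, ?_⟩ <;> linarith

/-! ### Type `A₄` -/

/-- The vectors `e_i + e_j`, `i ≠ j`. -/
def fourA : Set (Fin 5 → ℝ) :=
  {a | ∃ i j : Fin 5, i ≠ j ∧ a = Pi.single i 1 + Pi.single j 1}

/-- The vectors `e_i` and `1 - 2 e_i`. -/
def fourB : Set (Fin 5 → ℝ) :=
  {b | ∃ i : Fin 5, b = Pi.single i 1 ∨ b = (fun _ => 1) - (2 : ℝ) • Pi.single i 1}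

/-- The simple roots. -/
def fourR (i : Fin 4) : Fin 5 → ℝ := Pi.single i.castSucc 1 - Pi.single i.succ 1

theorem finite_fourA : fourA.Finite := by
  have : fourA ⊆ Set.range (fun p : Fin 5 × Fin 5 =>
      (Pi.single p.1 1 + Pi.single p.2 1 : Fin 5 → ℝ)) := by
    rintro a ⟨i, j, -, rfl⟩
    exact ⟨(i, j), rfl⟩
  exact (Set.finite_range _).subset this

theorem finite_fourB : fourB.Finite := by
  have : fourB ⊆ Set.range (fun p : Fin 5 => (Pi.single p 1 : Fin 5 → ℝ)) ∪
      Set.range (fun p : Fin 5 => ((fun _ => 1) - (2 : ℝ) • Pi.single p 1 : Fin 5 → ℝ)) := by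
    rintro b ⟨i, rfl | rfl⟩
    · exact Or.inl ⟨i, rfl⟩
    · exact Or.inr ⟨i, rfl⟩
  exact ((Set.finite_range _).union (Set.finite_range _)).subset this

theorem dot_fourA (y : Fin 5 → ℝ) (i j : Fin 5) :
    y ⬝ᵥ (Pi.single i 1 + Pi.single j 1) = y i + y j := by
  simp [dotProduct_add]

theorem dot_fourB (y : Fin 5 → ℝ) (i : Fin 5) :
    y ⬝ᵥ ((fun _ => 1) - (2 : ℝ) • Pi.single i 1) = (y 0 + y 1 + y 2 + y 3 + y 4) - 2 * y i := by
  have h1 : y ⬝ᵥ (fun _ => (1 : ℝ)) = y 0 + y 1 + y 2 + y 3 + y 4 := by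
    simp [dotProduct, Fin.sum_univ_five]
  rw [dotProduct_sub, dotProduct_smul, h1]
  simp

theorem fourR_dot (i : Fin 4) (x : Fin 5 → ℝ) : fourR i ⬝ᵥ x = x i.castSucc - x i.succ := by
  simp [fourR, sub_dotProduct]

theorem refl_fourR (i : Fin 4) (x : Fin 5 → ℝ) :
    refl (fourR i) x = x ∘ (Equiv.swap i.castSucc i.succ) := by
  have h2 : fourR i ⬝ᵥ fourR i = 2 := by
    rw [fourR_dot]
    have hne : i.castSucc ≠ i.succ := by
      intro h
      have := congrArg Fin.val h
      simp at this
    have hne' := hne.symm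
    simp [fourR, hne, hne']
    norm_num
  have hne : i.castSucc ≠ i.succ := by
    intro h
    have := congrArg Fin.val h
    simp at this
  ext l
  unfold refl
  rw [h2, fourR_dot]
  by_cases h1 : l = i.castSucc
  · subst h1
    simp [fourR, hne.symm]
  · by_cases h3 : l = i.succ
    · subst h3
      simp [fourR, hne.symm]
    · simp [fourR, h1, h3, Equiv.swap_apply_of_ne_of_ne h1 h3]

theorem single_comp_swap (i j k : Fin 5) :
    (Pi.single k 1 : Fin 5 → ℝ) ∘ (Equiv.swap i j) = Pi.single (Equiv.swap i j k) 1 := by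
  ext l
  simp only [Function.comp, Pi.single_apply]
  have : (Equiv.swap i j l = k) ↔ (l = Equiv.swap i j k) := by
    constructor
    · rintro rfl; simp
    · rintro rfl; simp
  simp [this]

theorem span_fourA : Submodule.span ℝ fourA = ⊤ := by
  rw [eq_top_iff]
  have hm : ∀ i j : Fin 5, i ≠ j →
      (Pi.single i 1 + Pi.single j 1 : Fin 5 → ℝ) ∈ Submodule.span ℝ fourA :=
    fun i j h => Submodule.subset_span ⟨i, j, h, rfl⟩
  have hs : ∀ i : Fin 5, (Pi.single i 1 : Fin 5 → ℝ) ∈ Submodule.span ℝ fourA := by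
    intro i
    obtain ⟨j, k, hij, hik, hjk⟩ : ∃ j k : Fin 5, i ≠ j ∧ i ≠ k ∧ j ≠ k := by
      revert i; decide
    have h := Submodule.smul_mem _ (2⁻¹ : ℝ) (Submodule.sub_mem _
      (Submodule.add_mem _ (hm i j hij) (hm i k hik)) (hm j k hjk))
    convert h using 1
    ext l
    simp
    ring
  rintro x -
  have hx : x = ∑ i, x i • (Pi.single i 1 : Fin 5 → ℝ) := by
    ext l
    simp [Finset.sum_apply, Pi.single_apply]
  rw [hx]
  exact Submodule.sum_mem _ fun i _ => Submodule.smul_mem _ _ (hs i)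

/-- The system of type `A₄`. -/
noncomputable def fourSys : RefSys 5 where
  m := 4
  α := fourR
  ρ := ![4, 3, 2, 1, 0]
  pos := by
    intro i
    rw [fourR_dot]
    fin_cases i <;> simp <;> norm_num
  A := fourA
  B := fourB
  finA := finite_fourA
  finB := finite_fourB
  spanA := span_fourA
  reflA := by
    rintro k a ⟨i, j, hij, rfl⟩
    rw [refl_fourR]
    refine ⟨Equiv.swap k.castSucc k.succ i, Equiv.swap k.castSucc k.succ j, ?_, ?_⟩
    · intro h
      exact hij (Equiv.injective _ h)
    · rw [← single_comp_swap, ← single_comp_swap]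
      rfl
  reflB := by
    rintro k b ⟨i, rfl | rfl⟩
    · refine ⟨Equiv.swap k.castSucc k.succ i, Or.inl ?_⟩
      rw [refl_fourR, ← single_comp_swap]
    · refine ⟨Equiv.swap k.castSucc k.succ i, Or.inr ?_⟩
      rw [refl_fourR, ← single_comp_swap]
      rfl

theorem good_fourSys : fourSys.Good 2 where
  nonneg := by
    rintro a ⟨i, j, hij, rfl⟩ b ⟨k, rfl | rfl⟩
    · rw [dotProduct_comm, dot_fourA]
      simp only [Pi.single_apply]
      split_ifs <;> norm_num
    · rw [dotProduct_comm, dot_fourA]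
      simp only [Pi.sub_apply, Pi.smul_apply, Pi.single_apply, smul_eq_mul]
      split_ifs with h1 h2
      · exact absurd (h1.trans h2.symm) hij
      all_goals norm_num
  key := by
    intro x y hx hy hb ha
    have x1 := hx (0 : Fin 4)
    have x2 := hx (1 : Fin 4)
    have x3 := hx (2 : Fin 4)
    have x4 := hx (3 : Fin 4)
    have y1 := hy (0 : Fin 4)
    have y2 := hy (1 : Fin 4)
    have y3 := hy (2 : Fin 4)
    have y4 := hy (3 : Fin 4)
    have hb4 := hb _ ⟨4, Or.inl rfl⟩
    have hb0 := hb _ ⟨0, Or.inr rfl⟩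
    have ha0 := ha _ ⟨0, 1, by decide, rfl⟩
    simp only [fourSys, fourR_dot] at x1 x2 x3 x4 y1 y2 y3 y4
    rw [dot_fourB] at hb0
    rw [dot_fourA] at ha0
    simp at x1 x2 x3 x4 y1 y2 y3 y4 hb4
    simp only [dotProduct, Fin.sum_univ_five]
    have p3 : 0 ≤ x 3 := hb4.trans x4
    have p2 : 0 ≤ x 2 := p3.trans x3
    have p1 : 0 ≤ x 1 := p2.trans x2
    have p0 : 0 ≤ x 0 := p1.trans x1
    rcases le_or_gt 0 (y 0) with h | h
    · have r1 : 0 ≤ y 1 := h.trans y1
      have r2 : 0 ≤ y 2 := r1.trans y2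
      have r3 : 0 ≤ y 3 := r2.trans y3
      have r4 : 0 ≤ y 4 := r3.trans y4
      positivity
    · have r1 : 0 ≤ y 1 + y 0 := by linarith
      have r2 : 0 ≤ y 2 + y 0 := by linarith
      have r3 : 0 ≤ y 3 + y 0 := by linarith
      have r4 : 0 ≤ y 4 + y 0 := by linarith
      nlinarith [mul_nonneg p1 r1, mul_nonneg p2 r2, mul_nonneg p3 r3, mul_nonneg hb4 r4,
        mul_nonneg hb0 (neg_nonneg.2 h.le)]
  coverA := by
    intro y hy ha
    have y1 := hy (0 : Fin 4)
    have y2 := hy (1 : Fin 4)
    have y3 := hy (2 : Fin 4)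
    have y4 := hy (3 : Fin 4)
    have ha0 := ha _ ⟨0, 1, by decide, rfl⟩
    simp only [fourSys, fourR_dot] at y1 y2 y3 y4
    rw [dot_fourA] at ha0
    simp at y1 y2 y3 y4
    have key1 : (0 < y 1 ∨ 0 < y 2) → Cover 2 {a | a ∈ fourSys.A ∧ y ⬝ᵥ a = 0} := by
      intro h
      left
      refine ⟨4, fun j => Pi.single 0 1 + Pi.single j.succ 1, ?_, ?_⟩
      · rw [Fintype.linearIndependent_iff]
        intro g hg i
        have := congrFun hg i.succ
        simpa [Finset.sum_apply, Pi.single_apply, Fin.succ_ne_zero] using this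
      · rintro z ⟨⟨i, j, hij, rfl⟩, hz⟩
        rw [dot_fourA] at hz
        have hcase : i = 0 ∨ j = 0 := by
          by_contra hcon
          push Not at hcon
          obtain ⟨hi, hj⟩ := hcon
          fin_cases i <;> fin_cases j <;> simp at hi hj hij hz <;>
            rcases h with h | h <;> linarith
        rcases hcase with rfl | rfl
        · obtain ⟨l, rfl⟩ := Fin.exists_succ_eq.2 (Ne.symm hij)
          exact ⟨l, rfl⟩
        · obtain ⟨l, rfl⟩ := Fin.exists_succ_eq.2 hij
          exact ⟨l, add_comm _ _⟩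
    by_cases c1 : 0 < y 1
    · exact key1 (Or.inl c1)
    by_cases c2 : 0 < y 2
    · exact key1 (Or.inr c2)
    have z0 : y 0 = 0 := by linarith
    have z1 : y 1 = 0 := by linarith
    have z2 : y 2 = 0 := by linarith
    by_cases c3 : 0 < y 3
    · left
      refine ⟨3, ![Pi.single 0 1 + Pi.single 1 1, Pi.single 0 1 + Pi.single 2 1,
        Pi.single 1 1 + Pi.single 2 1], ?_, ?_⟩
      · rw [Fintype.linearIndependent_iff]
        intro g hg
        have g0 := congrFun hg 0
        have g1 := congrFun hg 1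
        have g2 := congrFun hg 2
        simp [Fin.sum_univ_three] at g0 g1 g2
        intro i
        fin_cases i <;> simp <;> linarith
      · rintro z ⟨⟨i, j, hij, rfl⟩, hz⟩
        rw [dot_fourA] at hz
        have hcase : (i = 0 ∧ j = 1) ∨ (i = 0 ∧ j = 2) ∨ (i = 1 ∧ j = 2) ∨ (i = 1 ∧ j = 0) ∨
            (i = 2 ∧ j = 0) ∨ (i = 2 ∧ j = 1) := by
          fin_cases i <;> fin_cases j <;> simp at hij hz ⊢ <;> linarith
        rcases hcase with ⟨rfl, rfl⟩ | ⟨rfl, rfl⟩ | ⟨rfl, rfl⟩ | ⟨rfl, rfl⟩ | ⟨rfl, rfl⟩ |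
          ⟨rfl, rfl⟩
        · exact ⟨0, rfl⟩
        · exact ⟨1, rfl⟩
        · exact ⟨2, rfl⟩
        · exact ⟨0, add_comm _ _⟩
        · exact ⟨1, add_comm _ _⟩
        · exact ⟨2, add_comm _ _⟩
    · have z3 : y 3 = 0 := by linarith
      right
      refine ⟨![Pi.single 0 1 + Pi.single 1 1, Pi.single 0 1 + Pi.single 2 1,
        Pi.single 1 1 + Pi.single 2 1, Pi.single 0 1 + Pi.single 3 1], ?_, ?_⟩
      · rw [Fintype.linearIndependent_iff]
        intro g hg
        have g0 := congrFun hg 0
        have g1 := congrFun hg 1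
        have g2 := congrFun hg 2
        have g3 := congrFun hg 3
        simp [Fin.sum_univ_four] at g0 g1 g2 g3
        intro i
        fin_cases i <;> simp <;> linarith
      · intro i
        fin_cases i
        · exact ⟨⟨0, 1, by decide, rfl⟩, by simp only [Fin.zero_eta]; exact (dot_fourA _ _ _).trans (by rw [z0, z1, add_zero])⟩
        · exact ⟨⟨0, 2, by decide, rfl⟩, (dot_fourA _ _ _).trans (by rw [z0, z2, add_zero])⟩
        · exact ⟨⟨1, 2, by decide, rfl⟩, (dot_fourA _ _ _).trans (by rw [z1, z2, add_zero])⟩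
        · exact ⟨⟨0, 3, by decide, rfl⟩, (dot_fourA _ _ _).trans (by rw [z0, z3, add_zero])⟩
  coverB := by
    intro x hx hb
    have x1 := hx (0 : Fin 4)
    have x2 := hx (1 : Fin 4)
    have x3 := hx (2 : Fin 4)
    have x4 := hx (3 : Fin 4)
    have hb4 := hb _ ⟨4, Or.inl rfl⟩
    have hb0 := hb _ ⟨0, Or.inr rfl⟩
    simp only [fourSys, fourR_dot] at x1 x2 x3 x4
    rw [dot_fourB] at hb0
    simp at x1 x2 x3 x4 hb4
    by_cases c : 0 < x 2
    · left
      refine ⟨3, ![(fun _ => 1) - (2 : ℝ) • Pi.single 0 1, Pi.single 3 1, Pi.single 4 1], ?_, ?_⟩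
      · rw [Fintype.linearIndependent_iff]
        intro g hg
        have g0 := congrFun hg 0
        have g3 := congrFun hg 3
        have g4 := congrFun hg 4
        simp [Fin.sum_univ_three] at g0 g3 g4
        replace g0 : g 0 = 0 := by
          rcases g0 with h | h
          · exact h
          · norm_num at h
        intro i
        fin_cases i <;> simp <;> linarith
      · rintro z ⟨⟨i, rfl | rfl⟩, hz⟩
        · simp only [dotProduct_single, mul_one] at hz
          fin_cases i <;> simp at hz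
          · exfalso; linarith
          · exfalso; linarith
          · exfalso; linarith
          · exact ⟨1, rfl⟩
          · exact ⟨2, rfl⟩
        · rw [dot_fourB] at hz
          fin_cases i <;> simp at hz
          · exact ⟨0, rfl⟩
          · exfalso; linarith
          · exfalso; linarith
          · exfalso; linarith
          · exfalso; linarith
    · right
      have z2 : x 2 = 0 := by linarith
      have z3 : x 3 = 0 := by linarith
      have z4 : x 4 = 0 := by linarith
      have z1 : x 1 = x 0 := by linarith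
      refine ⟨![(fun _ => 1) - (2 : ℝ) • Pi.single 0 1, Pi.single 2 1, Pi.single 3 1,
        Pi.single 4 1], ?_, ?_⟩
      · rw [Fintype.linearIndependent_iff]
        intro g hg
        have g0 := congrFun hg 0
        have g2 := congrFun hg 2
        have g3 := congrFun hg 3
        have g4 := congrFun hg 4
        simp [Fin.sum_univ_four] at g0 g2 g3 g4
        replace g0 : g 0 = 0 := by
          rcases g0 with h | h
          · exact h
          · norm_num at h
        intro i
        fin_cases i <;> simp <;> linarith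
      · intro i
        fin_cases i
        · exact ⟨⟨0, Or.inr rfl⟩, (dot_fourB _ _).trans (by rw [z1, z2, z3, z4]; ring)⟩
        · exact ⟨⟨2, Or.inl rfl⟩, by simpa using z2⟩
        · exact ⟨⟨3, Or.inl rfl⟩, by simpa using z3⟩
        · exact ⟨⟨4, Or.inl rfl⟩, by simpa using z4⟩

end Pool.Agent.Helper1.SD
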