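import Pool.Agent.Helper42.Envelope

set_option autoImplicit false

namespace Pool.Agent.Helper42.Game

open Pool.Agent.Helper41.Fat

variable {K : Type*} [Field K]

/-- The pour: a move `p ^ 2 - g` spreads the excess of the top row over all rows. -/
theorem pour_below {p g Q : ℕ} {n : ℕ → ℕ} {α q0 : ℝ} (hp : 0 < p) (hg : g ≤ p ^ 2)
    (hn : ∀ c : ℕ, c < Q → (n c : ℝ) ≤ α - (p : ℝ) ^ 2 * c) (hQ : (n Q : ℝ) ≤ q0)
    (hX : q0 + (p : ℝ) ^ 2 * Q - α ≤ g * (Q + 1)) :
    Below p ((α + g - 1) / p) (mv (p ^ 2 - g) (Q + 1) n) := by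
  intro i hi
  have hp' : (0 : ℝ) < p := by exact_mod_cast hp
  have hk : ((p ^ 2 - g : ℕ) : ℝ) = (p : ℝ) ^ 2 - g := by
    rw [Nat.cast_sub hg]; push_cast; ring
  have hg0 : (0 : ℝ) ≤ g := Nat.cast_nonneg g
  have key : ∀ u : ℕ, i < (act (p ^ 2 - g) (Q + 1) n u).card →
      (u : ℝ) ≤ α + g - 1 - g * i := by
    intro u hu
    set A := act (p ^ 2 - g) (Q + 1) n u with hA
    have hbound : ∀ c ∈ A, c < Q → (u : ℝ) + 1 ≤ α - g * c := by
      intro c hc hcQ
      have h1 := (mem_act.1 (hA ▸ hc)).2.2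
      have h2 : (u : ℝ) + 1 ≤ ((p ^ 2 - g : ℕ) : ℝ) * c + n c := by
        have : u + 1 ≤ (p ^ 2 - g) * c + n c := by omega
        exact_mod_cast this
      rw [hk] at h2
      have h3 := hn c hcQ
      have e : ((p : ℝ) ^ 2 - g) * (c : ℝ) = (p : ℝ) ^ 2 * c - g * c := by ring
      rw [e] at h2
      linarith
    have hlt : ∀ c ∈ A, c ≤ Q := by
      intro c hc
      have := (mem_act.1 (hA ▸ hc)).1
      omega
    -- an element of `A` below `Q` and at least `i - 1`
    by_cases hQA : Q ∈ A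
    · rcases Nat.eq_zero_or_pos i with h0 | h0
      · subst h0
        have h1 := (mem_act.1 (hA ▸ hQA)).2.2
        have h2 : (u : ℝ) + 1 ≤ ((p ^ 2 - g : ℕ) : ℝ) * Q + n Q := by
          have : u + 1 ≤ (p ^ 2 - g) * Q + n Q := by omega
          exact_mod_cast this
        rw [hk] at h2
        have e : ((p : ℝ) ^ 2 - g) * (Q : ℝ) = (p : ℝ) ^ 2 * Q - g * Q := by ring
        rw [e] at h2
        have e2 : (g : ℝ) * (Q + 1) = g * Q + g := by ring
        rw [e2] at hX
        push_cast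
        linarith
      · have hcard : i ≤ (A.erase Q).card := by
          rw [Finset.card_erase_of_mem hQA]; omega
        obtain ⟨c, hc, hci⟩ : ∃ c ∈ A.erase Q, i - 1 ≤ c := by
          by_contra hcon
          push Not at hcon
          have hsub : A.erase Q ⊆ Finset.range (i - 1) := by
            intro c hc
            exact Finset.mem_range.2 (hcon c hc)
          have := Finset.card_le_card hsub
          rw [Finset.card_range] at this
          omega
        have hcA := Finset.mem_of_mem_erase hc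
        have hcQ : c ≠ Q := Finset.ne_of_mem_erase hc
        have h1 := hbound c hcA (lt_of_le_of_ne (hlt c hcA) hcQ)
        have h2 : (i : ℝ) ≤ c + 1 := by
          have : i ≤ c + 1 := by omega
          exact_mod_cast this
        have h3 : (g : ℝ) * i ≤ g * (c + 1) := mul_le_mul_of_nonneg_left h2 hg0
        have e2 : (g : ℝ) * (c + 1) = g * c + g := by ring
        rw [e2] at h3
        linarith
    · obtain ⟨c, hc, hci⟩ : ∃ c ∈ A, i ≤ c := by
        by_contra hcon
        push Not at hcon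
        have hsub : A ⊆ Finset.range i := by
          intro c hc
          exact Finset.mem_range.2 (hcon c hc)
        have := Finset.card_le_card hsub
        rw [Finset.card_range] at this
        omega
      have hcQ : c < Q := lt_of_le_of_ne (hlt c hc) (fun h => hQA (h ▸ hc))
      have h1 := hbound c hc hcQ
      have h2 : (i : ℝ) ≤ c := by exact_mod_cast hci
      have h3 : (g : ℝ) * i ≤ g * c := mul_le_mul_of_nonneg_left h2 hg0
      linarith
  have h1 := mv_le _ _ n i _ key hi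
  rw [hk] at h1
  have e1 : (p : ℝ) * ((α + g - 1) / p) = α + g - 1 := by field_simp
  rw [e1]
  have e2 : ((p : ℝ) ^ 2 - g) * (i : ℝ) = (p : ℝ) ^ 2 * i - g * i := by ring
  rw [e2] at h1
  linarith

theorem Below.mono {ρ D D' : ℝ} {n : ℕ → ℕ} (hρ : 0 ≤ ρ) (h : Below ρ D n) (hD : D ≤ D') :
    Below ρ D' n := by
  intro c hc
  have := h c hc
  have := mul_le_mul_of_nonneg_left hD hρ
  linarith

theorem strip_ge (p d c : ℕ) :
    (p : ℝ) * ((d : ℝ) + 1 - ((p : ℝ) - 1) / 2) - (p : ℝ) ^ 2 * c ≤ strip p d c := by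
  have h1 : ∀ P : ℕ, ∑ s ∈ Finset.range P, ((d : ℝ) + 1 - (c * p + s))
      = (P : ℝ) * ((d : ℝ) + 1 - ((P : ℝ) - 1) / 2 - c * p) := by
    intro P
    induction P with
    | zero => simp
    | succ P ih => rw [Finset.sum_range_succ, ih]; push_cast; ring
  have h2 : ∑ s ∈ Finset.range p, ((d : ℝ) + 1 - (c * p + s)) ≤ strip p d c := by
    rw [strip]
    push_cast
    refine Finset.sum_le_sum fun s _ => ?_
    have : d + 1 ≤ (d + 1 - (c * p + s)) + (c * p + s) := by omega
    have h3 : (d : ℝ) + 1 ≤ ((d + 1 - (c * p + s) : ℕ) : ℝ) + (c * p + s) := by exact_mod_cast this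
    linarith
  rw [h1] at h2
  have e : (p : ℝ) * ((d : ℝ) + 1 - ((p : ℝ) - 1) / 2 - c * p)
      = (p : ℝ) * ((d : ℝ) + 1 - ((p : ℝ) - 1) / 2) - (p : ℝ) ^ 2 * c := by ring
  rw [e] at h2
  exact h2

theorem strip_eq (p d c : ℕ) (h : (c + 1) * p ≤ d + 1) :
    (strip p d c : ℝ) = (p : ℝ) * ((d : ℝ) + 1 - ((p : ℝ) - 1) / 2) - (p : ℝ) ^ 2 * c := by
  have h1 : ∀ P : ℕ, ∑ s ∈ Finset.range P, ((d : ℝ) + 1 - (c * p + s))
      = (P : ℝ) * ((d : ℝ) + 1 - ((P : ℝ) - 1) / 2 - c * p) := by
    intro P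
    induction P with
    | zero => simp
    | succ P ih => rw [Finset.sum_range_succ, ih]; push_cast; ring
  have h2 : (strip p d c : ℝ) = ∑ s ∈ Finset.range p, ((d : ℝ) + 1 - (c * p + s)) := by
    rw [strip]
    push_cast
    refine Finset.sum_congr rfl fun s hs => ?_
    rw [Finset.mem_range] at hs
    have : c * p + s ≤ d + 1 := by
      have : (c + 1) * p = c * p + p := by ring
      omega
    rw [Nat.cast_sub this]
    push_cast
    ring
  rw [h2, h1]
  ring

/-- The top row of the triangle after the first move. -/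
theorem strip_top_eq (p Q τ : ℕ) (hτ : τ ≤ p) (hd : 0 < p * Q + τ) :
    (strip p (p * Q + τ - 1) Q : ℝ) = τ * (τ + 1) / 2 := by
  have h0 : p * Q + τ - 1 + 1 = p * Q + τ := by omega
  have h1 : strip p (p * Q + τ - 1) Q = ∑ s ∈ Finset.range τ, (τ - s) := by
    rw [strip, h0]
    have hsub : Finset.range τ ⊆ Finset.range p := Finset.range_subset_range.2 hτ
    rw [← Finset.sum_subset hsub]
    · refine Finset.sum_congr rfl fun s _ => ?_
      rw [mul_comm Q p]
      omega
    · intro s _ hs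
      rw [Finset.mem_range] at hs
      rw [mul_comm Q p]
      omega
  rw [h1, sum_stair]
  have := two_mul_choose τ
  have h2 : 2 * (((τ + 1).choose 2 : ℕ) : ℝ) = τ * (τ + 1) := by exact_mod_cast this
  linarith

/-- Emptiness from a chain starting at `p`. -/
theorem chainFrom_empty [CharZero K] {r m d p : ℕ} {ρ : ℝ} (hp : 0 < p) (h : Chain p ρ)
    (h1 : (d : ℝ) + 3 / 2 - p / 2 + (p - 1) * (p - 2) / (2 * (d + 2)) < m * ρ)
    (h2 : ρ * ((d : ℝ) + 3 / 2 - p / 2 + (p - 1) * (p - 2) / (2 * (d + 2))) < r * m) :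
    Good K r m (fun b => d + 1 - b) ((d + 2).choose 2) := by
  have hp' : (0 : ℝ) < p := by exact_mod_cast hp
  have hρ : 0 < ρ := lt_of_lt_of_le hp' h.le
  set D : ℝ := (d : ℝ) + 3 / 2 - p / 2 + (p - 1) * (p - 2) / (2 * (d + 2)) with hD
  set Q := (d + 1) / p with hQ
  set τ := (d + 1) % p with hτ
  have hdiv : p * Q + τ = d + 1 := Nat.div_add_mod (d + 1) p
  have hτp : τ < p := Nat.mod_lt _ hp
  have hdR : (p : ℝ) * Q + τ = d + 1 := by exact_mod_cast hdiv
  set α : ℝ := (p : ℝ) * ((d : ℝ) + 1 - ((p : ℝ) - 1) / 2) with hα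
  have hchain := below_chain (K := K) (r := r) (m := m) (D := D) hp' h
  apply good_start p d hp
  have hrow : ∀ c : ℕ, c < Q → (strip p d c : ℝ) ≤ α - (p : ℝ) ^ 2 * c := by
    intro c hc
    refine (strip_eq p d c ?_).le
    have : (c + 1) * p ≤ Q * p := Nat.mul_le_mul_right p hc
    rw [mul_comm Q p] at this
    omega
  have hcorr : 0 ≤ ((p : ℝ) - 1) * (p - 2) / (2 * (d + 2)) := by
    apply div_nonneg
    · rcases Nat.lt_or_ge p 2 with h | h
      · have : p = 1 := by omega
        subst this; norm_num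
      · have h3 : (2 : ℝ) ≤ p := by exact_mod_cast h
        apply mul_nonneg <;> linarith
    · positivity
  rcases Nat.eq_zero_or_pos τ with h0 | h0
  · -- no remainder: no pour
    have hQ1 : ∀ c, Q ≤ c → strip p d c = 0 := by
      intro c hc
      apply strip_zero
      rw [h0] at hdiv
      have : Q * p ≤ c * p := Nat.mul_le_mul_right p hc
      rw [mul_comm Q p] at this
      omega
    have hb : Below p D (strip p d) := by
      intro c hc
      have hcQ : c < Q := by
        by_contra hcon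
        exact hc (hQ1 c (by omega))
      have h3 := hrow c hcQ
      have h4 : α ≤ p * D + 1 := by
        have : (p : ℝ) * ((d : ℝ) + 1 - ((p : ℝ) - 1) / 2) ≤ p * D := by
          apply mul_le_mul_of_nonneg_left _ hp'.le
          rw [hD]; linarith
        linarith
      linarith
    have h5 := hchain Q (fun n hn hb => good_of_below hρ h1 h2 Q n hn hb) (strip p d) hQ1 hb
    have h6 : d + 1 ≤ Q * p := by rw [mul_comm, ← hdiv, h0]; simp
    rw [sum_strip_total p d Q h6] at h5
    exact h5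
  · -- pour
    set g := ⌈((p : ℝ) - 1) * (p - 2) / (2 * (Q + 1))⌉₊ with hg
    have hp1 : (1 : ℝ) ≤ p := by exact_mod_cast hp
    have hp2 : (2 : ℝ) ≤ p := by
      have : 2 ≤ p := by omega
      exact_mod_cast this
    have hnum : 0 ≤ ((p : ℝ) - 1) * (p - 2) := mul_nonneg (by linarith) (by linarith)
    have hg1 : ((p : ℝ) - 1) * (p - 2) / (2 * (Q + 1)) ≤ g := Nat.le_ceil _
    have hg2 : (g : ℝ) < ((p : ℝ) - 1) * (p - 2) / (2 * (Q + 1)) + 1 :=
      Nat.ceil_lt_add_one (by positivity)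
    have hQ0 : (0 : ℝ) ≤ Q := Nat.cast_nonneg Q
    have hgp : g ≤ p ^ 2 := by
      have h3 : ((p : ℝ) - 1) * (p - 2) / (2 * (Q + 1)) ≤ ((p : ℝ) - 1) * (p - 2) / 2 := by
        apply div_le_div_of_nonneg_left hnum (by norm_num) (by linarith)
      have h4 : (g : ℝ) < (p : ℝ) ^ 2 + 1 := by nlinarith
      have h5 : (g : ℝ) < ((p ^ 2 + 1 : ℕ) : ℝ) := by push_cast; exact h4
      have h6 : g < p ^ 2 + 1 := by exact_mod_cast h5
      omega
    have htop : (strip p d Q : ℝ) ≤ (τ : ℝ) * (τ + 1) / 2 := by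
      have h3 := strip_top_eq p Q τ hτp.le (by omega)
      have h4 : p * Q + τ - 1 = d := by omega
      rw [h4] at h3
      exact h3.le
    have hX : (τ : ℝ) * (τ + 1) / 2 + (p : ℝ) ^ 2 * Q - α ≤ g * (Q + 1) := by
      have e1 : (τ : ℝ) * (τ + 1) / 2 + (p : ℝ) ^ 2 * Q - α
          = ((p : ℝ) - τ) * (p - τ - 1) / 2 := by
        rw [hα]
        have : (d : ℝ) = p * Q + τ - 1 := by linarith
        rw [this]; ring
      rw [e1]
      have hτ1 : (1 : ℝ) ≤ τ := by exact_mod_cast h0
      have hτ2 : (τ : ℝ) + 1 ≤ p := by exact_mod_cast hτp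
      have h3 : ((p : ℝ) - τ) * (p - τ - 1) ≤ ((p : ℝ) - 1) * (p - 2) :=
        mul_le_mul (by linarith) (by linarith) (by linarith) (by linarith)
      have h4 : ((p : ℝ) - 1) * (p - 2) / (2 * (Q + 1)) * (Q + 1) ≤ g * (Q + 1) :=
        mul_le_mul_of_nonneg_right hg1 (by linarith)
      have e2 : ((p : ℝ) - 1) * (p - 2) / (2 * (Q + 1)) * (Q + 1)
          = ((p : ℝ) - 1) * (p - 2) / 2 := by
        field_simp
      rw [e2] at h4
      linarith
    have hb := pour_below (n := strip p d) hp hgp hrow htop hX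
    have hDD : (α + g - 1) / p ≤ D := by
      rw [div_le_iff₀ hp']
      have h3 : ((p : ℝ) - 1) * (p - 2) / (2 * (Q + 1)) ≤ ((p : ℝ) - 1) * (p - 2) / (2 * (d + 2)) * p := by
        rw [div_mul_eq_mul_div, div_le_div_iff₀ (by positivity) (by positivity)]
        have h4 : (d : ℝ) + 2 ≤ p * (Q + 1) := by
          have h5 : d + 2 ≤ p * (Q + 1) := by rw [mul_add]; omega
          exact_mod_cast h5
        have h6 := mul_le_mul_of_nonneg_left h4 hnum
        nlinarith
      rw [hD, hα]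
      nlinarith
    have hb' := hb.mono hp'.le hDD
    have h5 := hchain (Q + 1) (fun n hn hb => good_of_below hρ h1 h2 (Q + 1) n hn hb) _
      (fun c hc => mv_support _ _ _ c hc) hb'
    rw [mv_sum] at h5
    have h6 : d + 1 ≤ (Q + 1) * p := by rw [add_mul, mul_comm Q p]; omega
    rw [sum_strip_total p d (Q + 1) h6] at h5
    exact good_of_step (mv_step _ _ _) h5

/-- Regularity from a chain starting at `p`. -/
theorem chainFrom_regular [CharZero K] {r m d p : ℕ} {ρ : ℝ} (hp : 0 < p) (h : Chain p ρ)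
    (h1 : m * ρ ≤ d + 3 / 2 + p / 2 - ρ) (h2 : r * m ≤ ρ * (d + 3 / 2 + p / 2 - ρ)) :
    Good K r m (fun b => d + 1 - b) (r * (m + 1).choose 2) := by
  have hp' : (0 : ℝ) < p := by exact_mod_cast hp
  have hρ : 0 < ρ := lt_of_lt_of_le hp' h.le
  have e : (d : ℝ) + 1 - ((p : ℝ) - 1) / 2 - (ρ - p) = d + 3 / 2 + p / 2 - ρ := by ring
  apply good_start p d hp
  refine above_chain (K := K) (D := (d : ℝ) + 1 - ((p : ℝ) - 1) / 2) hp' h
    (fun n hn => good_of_above hρ ?_ ?_ n hn) (strip p d) ?_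
  · rw [e]; exact h1
  · rw [e]; exact h2
  · intro c
    exact strip_ge p d c

end Pool.Agent.Helper42.Game
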