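import Pool.Agent.Helper42.Start

set_option autoImplicit false

namespace Pool.Agent.Helper42.Game

open Pool.Agent.Helper41.Fat

variable {K : Type*} [Field K]

/-! ### The second move, exactly -/

/-- The rows obtained by the move `b` from the rows `α - x c`. -/
def phi (b x α i : ℕ) : ℕ := ∑ l ∈ Finset.range (α + 1), min b (α - (b * i + x * l))

/-- The positions of the row `i`. -/
def posn (b x α i : ℕ) : Finset ℕ :=
  ((Finset.range (α + 1)).sigma (fun l => Finset.range (min b (α - (b * i + x * l))))).image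
    (fun p : (_ : ℕ) × ℕ => b * (i + p.1) + p.2)

theorem mem_posn {b x α i u : ℕ} : u ∈ posn b x α i ↔
    ∃ l v, l < α + 1 ∧ v < b ∧ v < α - (b * i + x * l) ∧ b * (i + l) + v = u := by
  rw [posn, Finset.mem_image]
  constructor
  · rintro ⟨⟨l, v⟩, hp, rfl⟩
    simp only [Finset.mem_sigma, Finset.mem_range, lt_min_iff] at hp
    exact ⟨l, v, hp.1, hp.2.1, hp.2.2, rfl⟩
  · rintro ⟨l, v, h1, h2, h3, rfl⟩
    refine ⟨⟨l, v⟩, ?_, rfl⟩
    simp only [Finset.mem_sigma, Finset.mem_range, lt_min_iff]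
    exact ⟨h1, h2, h3⟩

theorem card_posn (b x α i : ℕ) : (posn b x α i).card = phi b x α i := by
  rw [posn, Finset.card_image_of_injOn]
  · rw [Finset.card_sigma]
    simp only [Finset.card_range, phi]
  · rintro ⟨l, v⟩ h1 ⟨l', v'⟩ h2 h3
    simp only [Finset.coe_sigma, Set.mem_sigma_iff, Finset.coe_range, Set.mem_Iio,
      lt_min_iff] at h1 h2 h3
    have hb : 0 < b := by omega
    have h4 : (i + l) = (i + l') := by
      have e1 : (b * (i + l) + v) / b = i + l := by
        rw [Nat.mul_add_div hb, Nat.div_eq_of_lt h1.2.1, add_zero]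
      have e2 : (b * (i + l') + v') / b = i + l' := by
        rw [Nat.mul_add_div hb, Nat.div_eq_of_lt h2.2.1, add_zero]
      rw [← e1, ← e2, h3]
    have h5 : l = l' := by omega
    subst h5
    have h6 : v = v' := by omega
    rw [h6]

/-- The lower bound for the second move. -/
theorem step_phi {b x α : ℕ} {n : ℕ → ℕ} (hx : 0 < x) (hxb : x ≤ b)
    (hn : ∀ c, α ≤ n c + x * c) : Step b n (phi b x α) := by
  refine ⟨α + 1, fun i => ⟨posn b x α i, (card_posn b x α i).ge, fun u hu => ?_⟩⟩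
  obtain ⟨l, v, _, hvb, hv, rfl⟩ := mem_posn.1 hu
  apply lt_card_act_of_Ico l
  intro c hc1 hc2
  obtain ⟨t, rfl⟩ : ∃ t, c = l + t := ⟨c - l, by omega⟩
  have hti : t ≤ i := by omega
  obtain ⟨y, rfl⟩ : ∃ y, b = x + y := ⟨b - x, by omega⟩
  have h1 : (x + y) * i + x * l < α := by omega
  have h2 : i ≤ (x + y) * i := Nat.le_mul_of_pos_left _ (by omega)
  have h3 : l ≤ x * l := Nat.le_mul_of_pos_left _ hx
  refine ⟨by omega, ?_, ?_⟩
  · have : (x + y) * (l + t) ≤ (x + y) * (i + l) := Nat.mul_le_mul_left _ (by omega)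
    omega
  · have h4 := hn (l + t)
    have e1 : (x + y) * (i + l) = (x + y) * i + x * l + y * l := by ring
    have e2 : (x + y) * (l + t) = x * (l + t) + y * l + y * t := by ring
    omega

/-- The upper bound for the second move. -/
theorem mv_le_phi {b x α Q q0 : ℕ} {n : ℕ → ℕ} (hx : 0 < x) (hxb : x ≤ b)
    (hn : ∀ c < Q, n c + x * c ≤ α) (hQ : n Q ≤ q0) (i : ℕ) :
    mv b (Q + 1) n i ≤ phi b x α i + (if i = 0 then q0 + x * Q - α else 0) := by
  classical
  obtain ⟨y, hy⟩ : ∃ y, b = x + y := ⟨b - x, by omega⟩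
  have hb : 0 < b := by omega
  have hsub : (Finset.range (b * (Q + 1) + ∑ c ∈ Finset.range (Q + 1), n c)).filter
      (fun u => i < (act b (Q + 1) n u).card) ⊆
      posn b x α i ∪ (if i = 0 then Finset.Ico (α + y * Q) (b * Q + q0) else ∅) := by
    intro u hu
    have hu2 := (Finset.mem_filter.1 hu).2
    have hne : (act b (Q + 1) n u).Nonempty := Finset.card_pos.1 (by omega)
    set c1 := (act b (Q + 1) n u).min' hne with hc1
    set c2 := (act b (Q + 1) n u).max' hne with hc2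
    have hm1 := mem_act.1 ((act b (Q + 1) n u).min'_mem hne)
    have hm2 := mem_act.1 ((act b (Q + 1) n u).max'_mem hne)
    rw [← hc1] at hm1
    rw [← hc2] at hm2
    have hIcc : act b (Q + 1) n u ⊆ Finset.Icc c1 c2 := by
      intro c hc
      rw [Finset.mem_Icc]
      exact ⟨Finset.min'_le _ _ hc, Finset.le_max' _ _ hc⟩
    have hcard := Finset.card_le_card hIcc
    rw [Nat.card_Icc] at hcard
    have h12 : c1 + i ≤ c2 := by omega
    have hdiv := Nat.div_add_mod u b
    have hmod := Nat.mod_lt u hb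
    have hj : c2 ≤ u / b := by
      rw [Nat.le_div_iff_mul_le hb, mul_comm]
      exact hm2.2.1
    obtain ⟨l, hl⟩ : ∃ l, u / b = i + l := ⟨u / b - i, by omega⟩
    rw [hl] at hdiv
    have hlc : c1 ≤ l := by omega
    have hmem : u < α + y * l → u ∈ posn b x α i := by
      intro h
      rw [mem_posn]
      have e1 : b * (i + l) = b * i + x * l + y * l := by rw [hy]; ring
      have h3 : l ≤ x * l := Nat.le_mul_of_pos_left _ hx
      exact ⟨l, u % b, by omega, hmod, by omega, hdiv⟩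
    rw [Finset.mem_union]
    by_cases hcQ : c1 < Q
    · left
      apply hmem
      have h1 := hn c1 hcQ
      have e1 : b * c1 = x * c1 + y * c1 := by rw [hy]; ring
      have h2 : y * c1 ≤ y * l := Nat.mul_le_mul_left _ hlc
      omega
    · have hc1Q : c1 = Q := by omega
      have hi0 : i = 0 := by omega
      by_cases h3 : u < α + y * Q
      · left
        apply hmem
        have h2 : y * Q ≤ y * l := Nat.mul_le_mul_left _ (by omega)
        omega
      · right
        rw [if_pos hi0, Finset.mem_Ico]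
        rw [hc1Q] at hm1
        omega
  have hcard := Finset.card_le_card hsub
  refine le_trans hcard ?_
  refine le_trans (Finset.card_union_le _ _) ?_
  rw [card_posn]
  split_ifs with hi
  · rw [Nat.card_Ico]
    have e1 : b * Q = x * Q + y * Q := by rw [hy]; ring
    omega
  · simp

/-! ### Arithmetic of `phi` -/

theorem psi_eq (x : ℕ) : ∀ J ρ L : ℕ, ρ ≤ x → J < L →
    2 * ∑ l ∈ Finset.range L, (x * J + ρ - x * l) = 2 * ((J + 1) * ρ) + x * (J * (J + 1)) := by
  intro J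
  induction J with
  | zero =>
    intro ρ L hρ hL
    obtain ⟨L', rfl⟩ : ∃ L', L = L' + 1 := ⟨L - 1, by omega⟩
    rw [Finset.sum_range_succ']
    have : ∑ k ∈ Finset.range L', (x * 0 + ρ - x * (k + 1)) = 0 := by
      apply Finset.sum_eq_zero
      intro k _
      have : x * (k + 1) = x * k + x := by ring
      omega
    rw [this]
    simp
  | succ J ih =>
    intro ρ L hρ hL
    obtain ⟨L', rfl⟩ : ∃ L', L = L' + 1 := ⟨L - 1, by omega⟩
    rw [Finset.sum_range_succ']
    have h1 : ∑ k ∈ Finset.range L', (x * (J + 1) + ρ - x * (k + 1))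
        = ∑ k ∈ Finset.range L', (x * J + ρ - x * k) := by
      refine Finset.sum_congr rfl fun k _ => ?_
      have e1 : x * (J + 1) = x * J + x := by ring
      have e2 : x * (k + 1) = x * k + x := by ring
      omega
    rw [h1, mul_add, ih ρ L' hρ (by omega)]
    have e3 : x * (J + 1) + ρ - x * 0 = x * (J + 1) + ρ := by simp
    rw [e3]
    ring

theorem psi_bounds (x Z L : ℕ) (hx : 0 < x) (hL : Z < x * L) :
    (Z : ℝ) ^ 2 + Z * x ≤ 2 * x * (∑ l ∈ Finset.range L, (Z - x * l) : ℕ) ∧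
    2 * x * ((∑ l ∈ Finset.range L, (Z - x * l) : ℕ) : ℝ) ≤ (Z : ℝ) ^ 2 + Z * x + x ^ 2 / 4 := by
  obtain ⟨J, ρ, hZ, hρ⟩ : ∃ J ρ, Z = x * J + ρ ∧ ρ < x :=
    ⟨Z / x, Z % x, (Nat.div_add_mod Z x).symm, Nat.mod_lt _ hx⟩
  have hJ : J < L := by
    by_contra hcon
    have : x * L ≤ x * J := Nat.mul_le_mul_left x (by omega)
    omega
  have h1 := psi_eq x J ρ L hρ.le hJ
  rw [← hZ] at h1
  have h2 : 2 * ((∑ l ∈ Finset.range L, (Z - x * l) : ℕ) : ℝ)
      = 2 * (((J : ℝ) + 1) * ρ) + x * (J * (J + 1)) := by exact_mod_cast h1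
  have hZr : (Z : ℝ) = x * J + ρ := by exact_mod_cast hZ
  have h3 : 2 * (x : ℝ) * ((∑ l ∈ Finset.range L, (Z - x * l) : ℕ) : ℝ)
      = (Z : ℝ) ^ 2 + Z * x + ρ * (x - ρ) := by
    have : 2 * (x : ℝ) * ((∑ l ∈ Finset.range L, (Z - x * l) : ℕ) : ℝ)
        = x * (2 * ((∑ l ∈ Finset.range L, (Z - x * l) : ℕ) : ℝ)) := by ring
    rw [this, h2, hZr]
    ring
  have hρr : (ρ : ℝ) ≤ x := by exact_mod_cast hρ.le
  have hρ0 : (0 : ℝ) ≤ ρ := Nat.cast_nonneg ρ
  constructor
  · rw [h3]
    have : 0 ≤ (ρ : ℝ) * (x - ρ) := mul_nonneg hρ0 (by linarith)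
    linarith
  · rw [h3]
    nlinarith [sq_nonneg ((x : ℝ) - 2 * ρ)]

theorem phi_eq_psi (b x α i : ℕ) : phi b x α i =
    ∑ l ∈ Finset.range (α + 1), ((α - b * i) - x * l)
      - ∑ l ∈ Finset.range (α + 1), ((α - b * i - b) - x * l) := by
  rw [phi, ← Finset.sum_tsub_distrib]
  · refine Finset.sum_congr rfl fun l _ => ?_
    omega
  · intro l _
    omega

theorem phi_add_psi (b x α i : ℕ) : phi b x α i
      + ∑ l ∈ Finset.range (α + 1), ((α - b * i - b) - x * l) =
    ∑ l ∈ Finset.range (α + 1), ((α - b * i) - x * l) := by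
  rw [phi, ← Finset.sum_add_distrib]
  refine Finset.sum_congr rfl fun l _ => ?_
  omega

/-- The lower bound. -/
theorem phi_ge (b x α i : ℕ) (hx : 0 < x) :
    (b : ℝ) / x * (α - b * i) - (b : ℝ) ^ 2 / (2 * x) + b / 2 - x / 8 ≤ phi b x α i := by
  have hx' : (0 : ℝ) < x := by exact_mod_cast hx
  have hb0 : (0 : ℝ) ≤ b := Nat.cast_nonneg b
  suffices h : 2 * (b : ℝ) * (α - b * i) - (b : ℝ) ^ 2 + b * x - x ^ 2 / 4
      ≤ 2 * x * (phi b x α i : ℝ) by
    have e : (b : ℝ) / x * (α - b * i) - (b : ℝ) ^ 2 / (2 * x) + b / 2 - x / 8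
        = (2 * (b : ℝ) * (α - b * i) - (b : ℝ) ^ 2 + b * x - x ^ 2 / 4) / (2 * x) := by
      field_simp
      ring
    rw [e, div_le_iff₀ (by positivity)]
    linarith
  have hL : ∀ Z : ℕ, Z ≤ α → Z < x * (α + 1) := by
    intro Z hZ
    have : α + 1 ≤ x * (α + 1) := Nat.le_mul_of_pos_left _ hx
    omega
  have hadd : (phi b x α i : ℝ)
      + ((∑ l ∈ Finset.range (α + 1), ((α - b * i - b) - x * l) : ℕ) : ℝ)
      = ((∑ l ∈ Finset.range (α + 1), ((α - b * i) - x * l) : ℕ) : ℝ) := by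
    exact_mod_cast phi_add_psi b x α i
  have hlow := (psi_bounds x (α - b * i) (α + 1) hx (hL _ (by omega))).1
  have hup := (psi_bounds x (α - b * i - b) (α + 1) hx (hL _ (by omega))).2
  rcases Nat.lt_or_ge α (b * i) with h | h
  · have h1 : (α : ℝ) ≤ b * i := by exact_mod_cast h.le
    have h2 : (b : ℝ) * (α - b * i) ≤ 0 := mul_nonpos_of_nonneg_of_nonpos hb0 (by linarith)
    have h3 : (0 : ℝ) ≤ 2 * x * (phi b x α i : ℝ) := by positivity
    nlinarith [sq_nonneg ((b : ℝ) - x / 2)]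
  · have e1 : ((α - b * i : ℕ) : ℝ) = (α : ℝ) - b * i := by
      rw [Nat.cast_sub h]; push_cast; ring
    rw [e1] at hlow
    rcases Nat.lt_or_ge (α - b * i) b with h2 | h2
    · have h3 : ∑ l ∈ Finset.range (α + 1), ((α - b * i - b) - x * l) = 0 := by
        apply Finset.sum_eq_zero
        intro l _
        omega
      rw [h3] at hadd
      rw [← hadd] at hlow
      simp only [Nat.cast_zero, add_zero] at hlow
      nlinarith [sq_nonneg (((α : ℝ) - b * i) - b + x / 2)]
    · have e2 : ((α - b * i - b : ℕ) : ℝ) = (α : ℝ) - b * i - b := by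
        rw [Nat.cast_sub h2, e1]
      rw [e2] at hup
      rw [← hadd] at hlow
      have e3 : 2 * (x : ℝ) * ((phi b x α i : ℝ)
          + ((∑ l ∈ Finset.range (α + 1), ((α - b * i - b) - x * l) : ℕ) : ℝ))
          = 2 * x * (phi b x α i : ℝ) + 2 * x *
            ((∑ l ∈ Finset.range (α + 1), ((α - b * i - b) - x * l) : ℕ) : ℝ) := by ring
      rw [e3] at hlow
      nlinarith

/-- The upper bound for a full row. -/
theorem phi_le (b x α i : ℕ) (hx : 0 < x) (h : b * i + b ≤ α) :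
    (phi b x α i : ℝ) ≤ (b : ℝ) / x * (α - b * i) - (b : ℝ) ^ 2 / (2 * x) + b / 2 + x / 8 := by
  have hx' : (0 : ℝ) < x := by exact_mod_cast hx
  suffices h : 2 * x * (phi b x α i : ℝ)
      ≤ 2 * (b : ℝ) * (α - b * i) - (b : ℝ) ^ 2 + b * x + x ^ 2 / 4 by
    have e : (b : ℝ) / x * (α - b * i) - (b : ℝ) ^ 2 / (2 * x) + b / 2 + x / 8
        = (2 * (b : ℝ) * (α - b * i) - (b : ℝ) ^ 2 + b * x + x ^ 2 / 4) / (2 * x) := by
      field_simp
      ring
    rw [e, le_div_iff₀ (by positivity)]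
    linarith
  have hL : ∀ Z : ℕ, Z ≤ α → Z < x * (α + 1) := by
    intro Z hZ
    have : α + 1 ≤ x * (α + 1) := Nat.le_mul_of_pos_left _ hx
    omega
  have hadd : (phi b x α i : ℝ)
      + ((∑ l ∈ Finset.range (α + 1), ((α - b * i - b) - x * l) : ℕ) : ℝ)
      = ((∑ l ∈ Finset.range (α + 1), ((α - b * i) - x * l) : ℕ) : ℝ) := by
    exact_mod_cast phi_add_psi b x α i
  have hup := (psi_bounds x (α - b * i) (α + 1) hx (hL _ (by omega))).2
  have hlow := (psi_bounds x (α - b * i - b) (α + 1) hx (hL _ (by omega))).1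
  have e1 : ((α - b * i : ℕ) : ℝ) = (α : ℝ) - b * i := by
    rw [Nat.cast_sub (by omega)]; push_cast; ring
  have e2 : ((α - b * i - b : ℕ) : ℝ) = (α : ℝ) - b * i - b := by
    rw [Nat.cast_sub (by omega), e1]
  rw [e1] at hup
  rw [e2] at hlow
  rw [← hadd] at hup
  have e3 : 2 * (x : ℝ) * ((phi b x α i : ℝ)
      + ((∑ l ∈ Finset.range (α + 1), ((α - b * i - b) - x * l) : ℕ) : ℝ))
      = 2 * x * (phi b x α i : ℝ) + 2 * x *
        ((∑ l ∈ Finset.range (α + 1), ((α - b * i - b) - x * l) : ℕ) : ℝ) := by ring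
  rw [e3] at hup
  nlinarith

/-- The upper bound for the last row. -/
theorem phi_last (b x α i : ℕ) (hx : 0 < x) (h : b * i ≤ α) (h2 : α < b * i + b) :
    2 * x * (phi b x α i : ℝ) ≤ ((α : ℝ) - b * i) ^ 2 + (α - b * i) * x + x ^ 2 / 4 := by
  have hL : ∀ Z : ℕ, Z ≤ α → Z < x * (α + 1) := by
    intro Z hZ
    have : α + 1 ≤ x * (α + 1) := Nat.le_mul_of_pos_left _ hx
    omega
  have hup := (psi_bounds x (α - b * i) (α + 1) hx (hL _ (by omega))).2
  have e1 : ((α - b * i : ℕ) : ℝ) = (α : ℝ) - b * i := by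
    rw [Nat.cast_sub h]; push_cast; ring
  have h3 : ∑ l ∈ Finset.range (α + 1), ((α - b * i - b) - x * l) = 0 := by
    apply Finset.sum_eq_zero
    intro l _
    omega
  have h4 := phi_add_psi b x α i
  rw [h3, add_zero] at h4
  rw [← h4, e1] at hup
  exact hup

theorem phi_zero (b x α i : ℕ) (h : α ≤ b * i) : phi b x α i = 0 := by
  apply Finset.sum_eq_zero
  intro l _
  have : α - (b * i + x * l) = 0 := by omega
  rw [this]
  simp

end Pool.Agent.Helper42.Game
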