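import Pool.Agent.Helper42.Canon

set_option autoImplicit false

namespace Pool.Agent.Helper42.Canon

open Pool.Agent.Helper41.Fat Pool.Agent.Helper42.Game

variable {K : Type*} [Field K]

/-- Spreading the excess `X` of the top row over `X` rows. -/
theorem spread_step (y q a X : ℕ) (n : ℕ → ℕ) (h1 : ∀ c ≤ q, (y + 1) * (q - c) + a ≤ n c)
    (h2 : a + X ≤ n q) :
    Step y n (fun i => if i ≤ q then (y + 1) * (q - i) + a + (if q < X + i then 1 else 0)
      else 0) := by
  refine ⟨q + 1, fun i => ?_⟩
  by_cases hi : i ≤ q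
  · simp only [if_pos hi]
    have hrow : ∀ c ≤ q, (y + 1) * q + a - c ≤ y * c + n c := by
      intro c hc
      have h3 := h1 c hc
      have e : (y + 1) * q = y * c + c + (y + 1) * (q - c) := by
        obtain ⟨j, rfl⟩ : ∃ j, q = c + j := ⟨q - c, by omega⟩
        rw [Nat.add_sub_cancel_left]; ring
      omega
    refine ⟨Finset.Ico (y * i) ((y + 1) * q + a - i + (if q < X + i then 1 else 0)), ?_, ?_⟩
    · rw [Nat.card_Ico]
      have e : (y + 1) * q = y * i + i + (y + 1) * (q - i) := by
        obtain ⟨j, rfl⟩ : ∃ j, q = i + j := ⟨q - i, by omega⟩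
        rw [Nat.add_sub_cancel_left]; ring
      omega
    · intro u hu
      rw [Finset.mem_Ico] at hu
      by_cases hlt : u < (y + 1) * q + a - i
      · have hsub : Finset.range (i + 1) ⊆ act y (q + 1) n u := by
          intro c hc
          rw [Finset.mem_range] at hc
          rw [mem_act]
          have h3 := hrow c (by omega)
          have h4 : y * c ≤ y * i := Nat.mul_le_mul_left y (by omega)
          refine ⟨by omega, by omega, by omega⟩
        have := Finset.card_le_card hsub
        rw [Finset.card_range] at this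
        omega
      · have hX : q < X + i := by
          by_contra hcon
          rw [if_neg hcon] at hu
          omega
        rw [if_pos hX] at hu
        have hq1 : i ≤ (y + 1) * q := by
          have : (y + 1) * q = y * q + q := by ring
          omega
        have hsub : insert q (Finset.range i) ⊆ act y (q + 1) n u := by
          intro c hc
          rw [Finset.mem_insert, Finset.mem_range] at hc
          rw [mem_act]
          have e : (y + 1) * q = y * q + q := by ring
          rcases hc with rfl | hc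
          · refine ⟨by omega, by omega, by omega⟩
          · have h3 := hrow c (by omega)
            have h4 : y * c ≤ y * i := Nat.mul_le_mul_left y (by omega)
            refine ⟨by omega, by omega, by omega⟩
        have h5 := Finset.card_le_card hsub
        rw [Finset.card_insert_of_notMem (by simp; omega), Finset.card_range] at h5
        omega
  · simp only [if_neg hi]
    exact ⟨∅, by simp, by simp⟩

/-- Spread and sort. -/
theorem good_spread [CharZero K] {r m ρ : ℕ} (x q a X : ℕ) (n : ℕ → ℕ) (hx : 0 < x)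
    (hX : X ≤ q) (h1 : ∀ c ≤ q, x * (q - c) + a ≤ n c) (h2 : a + X ≤ n q)
    (h : Good K r m (S x q a X) ρ) : Good K r m n ρ := by
  obtain ⟨y, rfl⟩ : ∃ y, x = y + 1 := ⟨x - 1, by omega⟩
  apply good_of_step (spread_step y q a X n h1 h2)
  apply good_of_step (sort_step (y + 1) q a X _ ?_ ?_) h
  · intro c hc
    simp only [if_pos hc]
    omega
  · have hsub : Finset.Ico (q + 1 - X) (q + 1) ⊆ (Finset.range (q + 1)).filter (fun c =>
        (y + 1) * (q - c) + a + 1 ≤ if c ≤ q then (y + 1) * (q - c) + a
          + (if q < X + c then 1 else 0) else 0) := by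
      intro c hc
      rw [Finset.mem_Ico] at hc
      rw [Finset.mem_filter, Finset.mem_range, if_pos (by omega), if_pos (by omega)]
      exact ⟨hc.2, le_rfl⟩
    have := Finset.card_le_card hsub
    rw [Nat.card_Ico] at this
    omega

/-- The top row lies below the line: a block of `b ≤ v` cells in row `q + 1` is moved to
row `q`. -/
theorem drop_step (k v q b : ℕ) (n : ℕ → ℕ) (hb : b ≤ v)
    (h1 : ∀ c ≤ q, (k + v) * (q + 1 - c) ≤ n c + v) (h2 : b ≤ n (q + 1)) :
    Step k n (fun i => if i ≤ q then (k + v) * (q - i) + k + (if i = q then b else 0)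
      else 0) := by
  refine ⟨q + 2, fun i => ?_⟩
  by_cases hi : i ≤ q
  · simp only [if_pos hi]
    have hrow : ∀ c ≤ q, k * (q + 1) + v * (q - c) ≤ k * c + n c := by
      intro c hc
      have h3 := h1 c hc
      obtain ⟨j, rfl⟩ : ∃ j, q = c + j := ⟨q - c, by omega⟩
      have e1 : (k + v) * (c + j + 1 - c) = k * j + k + (v * j + v) := by
        have : c + j + 1 - c = j + 1 := by omega
        rw [this]; ring
      have e2 : k * (c + j + 1) = k * c + k * j + k := by ring
      have e3 : v * (c + j - c) = v * j := by rw [Nat.add_sub_cancel_left]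
      omega
    refine ⟨Finset.Ico (k * i) (k * (q + 1) + v * (q - i) + (if i = q then b else 0)), ?_, ?_⟩
    · rw [Nat.card_Ico]
      obtain ⟨j, rfl⟩ : ∃ j, q = i + j := ⟨q - i, by omega⟩
      have e1 : (k + v) * (i + j - i) = k * j + v * j := by
        rw [Nat.add_sub_cancel_left]; ring
      have e2 : k * (i + j + 1) = k * i + k * j + k := by ring
      have e3 : v * (i + j - i) = v * j := by rw [Nat.add_sub_cancel_left]
      omega
    · intro u hu
      rw [Finset.mem_Ico] at hu
      by_cases hlt : u < k * (q + 1) + v * (q - i)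
      · have hsub : Finset.range (i + 1) ⊆ act k (q + 2) n u := by
          intro c hc
          rw [Finset.mem_range] at hc
          rw [mem_act]
          have h3 := hrow c (by omega)
          have h4 : k * c ≤ k * i := Nat.mul_le_mul_left k (by omega)
          have h5 : v * (q - i) ≤ v * (q - c) := Nat.mul_le_mul_left v (by omega)
          refine ⟨by omega, by omega, by omega⟩
        have := Finset.card_le_card hsub
        rw [Finset.card_range] at this
        omega
      · have hiq : i = q := by
          by_contra hcon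
          rw [if_neg hcon] at hu
          omega
        rw [if_pos hiq] at hu
        subst hiq
        rw [Nat.sub_self, mul_zero, add_zero] at hu hlt
        have hsub : insert (i + 1) (Finset.range i) ⊆ act k (i + 2) n u := by
          intro c hc
          rw [Finset.mem_insert, Finset.mem_range] at hc
          rw [mem_act]
          rcases hc with rfl | hc
          · refine ⟨by omega, by omega, by omega⟩
          · have h3 := hrow c (by omega)
            have h4 : k * c ≤ k * i := Nat.mul_le_mul_left k (by omega)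
            have h5 : v * 1 ≤ v * (i - c) := Nat.mul_le_mul_left v (by omega)
            have h6 : k * (i + 1) = k * i + k := by ring
            refine ⟨by omega, by omega, by omega⟩
        have h5 := Finset.card_le_card hsub
        rw [Finset.card_insert_of_notMem (by simp), Finset.card_range] at h5
        omega
  · simp only [if_neg hi]
    exact ⟨∅, by simp, by simp⟩

/-- The top row lies below the line: its cells are spread directly. -/
theorem spread_neg_step (y v q b : ℕ) (n : ℕ → ℕ)
    (hbv : b + v ≤ q + 2) (h1 : ∀ c ≤ q, (y + 1) * (q + 1 - c) ≤ n c + v) (hvy : v ≤ y + 1)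
    (h2 : b ≤ n (q + 1)) :
    Step y n (fun i => if i ≤ q then (y + 1) * (q - i) + (y + 1 - v)
      + (if q + 1 < v + b + i ∧ v + i ≤ q + 1 then 1 else 0) else 0) := by
  refine ⟨q + 2, fun i => ?_⟩
  by_cases hi : i ≤ q
  · simp only [if_pos hi]
    have hrow : ∀ c ≤ q, (y + 1) * (q + 1) ≤ y * c + n c + v + c := by
      intro c hc
      have h3 := h1 c hc
      obtain ⟨j, rfl⟩ : ∃ j, q = c + j := ⟨q - c, by omega⟩
      have e1 : (y + 1) * (c + j + 1 - c) = y * j + y + j + 1 := by
        have : c + j + 1 - c = j + 1 := by omega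
        rw [this]; ring
      have e2 : (y + 1) * (c + j + 1) = y * c + y * j + y + c + j + 1 := by ring
      omega
    have hbig : (y + 1) * (q + 1) = y * q + y + q + 1 := by ring
    refine ⟨Finset.Ico (y * i) ((y + 1) * (q + 1) - v - i
      + (if q + 1 < v + b + i ∧ v + i ≤ q + 1 then 1 else 0)), ?_, ?_⟩
    · rw [Nat.card_Ico]
      obtain ⟨j, rfl⟩ : ∃ j, q = i + j := ⟨q - i, by omega⟩
      have e1 : (y + 1) * (i + j - i) = y * j + j := by
        rw [Nat.add_sub_cancel_left]; ring
      have e2 : (y + 1) * (i + j + 1) = y * i + y * j + y + i + j + 1 := by ring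
      omega
    · intro u hu
      rw [Finset.mem_Ico] at hu
      by_cases hlt : u < (y + 1) * (q + 1) - v - i
      · have hsub : Finset.range (i + 1) ⊆ act y (q + 2) n u := by
          intro c hc
          rw [Finset.mem_range] at hc
          rw [mem_act]
          have h3 := hrow c (by omega)
          have h4 : y * c ≤ y * i := Nat.mul_le_mul_left y (by omega)
          refine ⟨by omega, by omega, by omega⟩
        have := Finset.card_le_card hsub
        rw [Finset.card_range] at this
        omega
      · have hX : q + 1 < v + b + i ∧ v + i ≤ q + 1 := by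
          by_contra hcon
          rw [if_neg hcon] at hu
          omega
        rw [if_pos hX] at hu
        have hsub : insert (q + 1) (Finset.range i) ⊆ act y (q + 2) n u := by
          intro c hc
          rw [Finset.mem_insert, Finset.mem_range] at hc
          rw [mem_act]
          have e : y * (q + 1) = y * q + y := by ring
          have e4 : y * i ≤ y * q := Nat.mul_le_mul_left y hi
          rcases hc with rfl | hc
          · refine ⟨by omega, by omega, by omega⟩
          · have h3 := hrow c (by omega)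
            have h4 : y * c ≤ y * i := Nat.mul_le_mul_left y (by omega)
            refine ⟨by omega, by omega, by omega⟩
        have h5 := Finset.card_le_card hsub
        rw [Finset.card_insert_of_notMem (by simp; omega), Finset.card_range] at h5
        omega
  · simp only [if_neg hi]
    exact ⟨∅, by simp, by simp⟩

theorem good_spread_neg [CharZero K] {r m ρ : ℕ} (x v q b : ℕ) (n : ℕ → ℕ) (hv : 0 < v)
    (hvx : v ≤ x) (hbv : b + v ≤ q + 2) (h1 : ∀ c ≤ q, x * (q + 1 - c) ≤ n c + v)
    (h2 : b ≤ n (q + 1)) (h : Good K r m (S x q (x - v) b) ρ) : Good K r m n ρ := by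
  obtain ⟨y, rfl⟩ : ∃ y, x = y + 1 := ⟨x - 1, by omega⟩
  apply good_of_step (spread_neg_step y v q b n hbv h1 hvx h2)
  apply good_of_step (sort_step (y + 1) q (y + 1 - v) b _ ?_ ?_) h
  · intro c hc
    simp only [if_pos hc]
    omega
  · have hsub : Finset.Ico (q + 2 - v - b) (q + 2 - v) ⊆ (Finset.range (q + 1)).filter (fun c =>
        (y + 1) * (q - c) + (y + 1 - v) + 1 ≤ if c ≤ q then (y + 1) * (q - c) + (y + 1 - v)
          + (if q + 1 < v + b + c ∧ v + c ≤ q + 1 then 1 else 0) else 0) := by
      intro c hc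
      rw [Finset.mem_Ico] at hc
      rw [Finset.mem_filter, Finset.mem_range, if_pos (by omega), if_pos (by omega)]
      exact ⟨by omega, le_rfl⟩
    have := Finset.card_le_card hsub
    rw [Nat.card_Ico] at this
    omega

theorem strip_line (p Q τ d c : ℕ) (hd : d + 1 = p * Q + τ) (hc : c + 1 ≤ Q) :
    2 * strip p d c + p * p = 2 * (p ^ 2 * (Q - c) + p * τ) + p := by
  obtain ⟨e, rfl⟩ : ∃ e, Q = c + 1 + e := ⟨Q - (c + 1), by omega⟩
  have h1 : strip p d c = ∑ s ∈ Finset.range p, ((e * p + τ) + (p - s)) := by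
    rw [strip]
    refine Finset.sum_congr rfl fun s hs => ?_
    rw [Finset.mem_range] at hs
    have e1 : p * (c + 1 + e) = c * p + p + e * p := by ring
    omega
  rw [h1, Finset.sum_add_distrib, sum_stair, Finset.sum_const, Finset.card_range, smul_eq_mul]
  have h2 := two_mul_choose p
  have e2 : c + 1 + e - c = e + 1 := by omega
  rw [e2]
  nlinarith

theorem strip_last (p Q τ d : ℕ) (hd : d + 1 = p * Q + τ) (hτ : τ ≤ p) :
    2 * strip p d Q = τ * (τ + 1) := by
  have h1 : strip p d Q = ∑ s ∈ Finset.range τ, (τ - s) := by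
    rw [strip, hd]
    have hsub : Finset.range τ ⊆ Finset.range p := Finset.range_subset_range.2 hτ
    rw [← Finset.sum_subset hsub]
    · refine Finset.sum_congr rfl fun s _ => ?_
      rw [mul_comm Q p]
      omega
    · intro s _ hs
      rw [Finset.mem_range] at hs
      rw [mul_comm Q p]
      omega
  rw [h1, sum_stair]
  exact two_mul_choose τ

/-- **Exactness for the triangle**, under explicit conditions on the first move `p`. -/
theorem good_triangle [CharZero K] {r m ρ p Q τ e d : ℕ} (hd : d + 1 = p * Q + τ) (hτ : τ < p)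
    (hr : p ^ 2 + 2 * e = r) (hQ : Q ≤ p ^ 2 + 1)
    (hA : p ≤ 2 * τ + 1 → (p - τ) * (p - τ - 1) ≤ 2 * Q)
    (hB : 2 * τ + 1 < p → τ * (τ + 1) + 2 ≤ 2 * Q ∧
      (τ * (τ + 1) + 2 * (p * τ) + p ≤ p * p ∨ (p - τ) * (p - τ - 1) ≤ 2 * (Q + 1)))
    (h1 : 2 * ρ ≤ (d + 1) * (d + 2)) (h2 : ρ ≤ r * (m + 1).choose 2) :
    Good K r m (fun b => d + 1 - b) ρ := by
  have hp : 0 < p := by omega
  obtain ⟨f, rfl⟩ : ∃ f, p = τ + 1 + f := ⟨p - τ - 1, by omega⟩
  obtain ⟨w, hw⟩ : ∃ w, (τ + 1 + f) * (τ + 1 + f) = (τ + 1 + f) + 2 * w := by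
    have h3 := (Nat.even_mul_succ_self (τ + f)).two_dvd
    obtain ⟨w, hw⟩ := h3
    exact ⟨w, by nlinarith⟩
  obtain ⟨X, hX⟩ : ∃ X, (f + 1) * f = 2 * X := by
    obtain ⟨w, hw⟩ := (Nat.even_mul_succ_self f).two_dvd
    exact ⟨w, by nlinarith⟩
  obtain ⟨b, hb⟩ : ∃ b, τ * (τ + 1) = 2 * b := by
    obtain ⟨w, hw⟩ := (Nat.even_mul_succ_self τ).two_dvd
    exact ⟨w, by nlinarith⟩
  have e1 : τ + 1 + f - τ = f + 1 := by omega
  have e2 : τ + 1 + f - τ - 1 = f := by omega
  rw [e2, e1, hX] at hA hB
  apply good_start (τ + 1 + f) d hp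
  have hline : ∀ c, c + 1 ≤ Q → strip (τ + 1 + f) d c + w
      = (τ + 1 + f) ^ 2 * (Q - c) + (τ + 1 + f) * τ := by
    intro c hc
    have := strip_line (τ + 1 + f) Q τ d c hd hc
    omega
  have hlast := strip_last (τ + 1 + f) Q τ d hd (by omega)
  rw [hb] at hlast
  have hdd : (d + 1) * (d + 2)
      = ((τ + 1 + f) * Q + τ) * ((τ + 1 + f) * Q + τ + 1) := by
    rw [show d + 2 = d + 1 + 1 by ring, hd]
  rw [hdd] at h1
  have hsq : (τ + 1 + f) ^ 2 = (τ + 1 + f) + 2 * w := by rw [sq]; exact hw
  by_cases hcase : τ + 1 + f ≤ 2 * τ + 1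
  · -- the line is nonnegative at row `Q`
    have hA' := hA hcase
    obtain ⟨a, ha⟩ : ∃ a, (τ + 1 + f) * τ = w + a := by
      refine ⟨(τ + 1 + f) * τ - w, ?_⟩
      have : (τ + 1 + f) * (τ + f) ≤ (τ + 1 + f) * (2 * τ) := Nat.mul_le_mul_left _ (by omega)
      have h5 : (τ + 1 + f) * (τ + f) + (τ + 1 + f) = (τ + 1 + f) * (τ + 1 + f) := by ring
      have h6 : (τ + 1 + f) * (2 * τ) = 2 * ((τ + 1 + f) * τ) := by ring
      omega
    have haX : a + X = b := by
      have h5 : 2 * ((τ + 1 + f) * τ) + (f + 1) * f + (τ + 1 + f)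
          = (τ + 1 + f) * (τ + 1 + f) + τ * (τ + 1) := by ring
      omega
    have hax : a < (τ + 1 + f) ^ 2 := by
      have h5 : (τ + 1 + f) * τ ≤ (τ + 1 + f) * (τ + f) := Nat.mul_le_mul_left _ (by omega)
      have h6 : (τ + 1 + f) * (τ + f) + (τ + 1 + f) = (τ + 1 + f) * (τ + 1 + f) := by ring
      omega
    apply good_spread ((τ + 1 + f) ^ 2) Q a X _ (by positivity) (by omega)
    · intro c hc
      rcases Nat.lt_or_ge c Q with h | h
      · have := hline c h
        omega
      · have : c = Q := by omega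
        subst this
        rw [Nat.sub_self, mul_zero]
        omega
    · omega
    · apply canon_good h2 e _ Q a X hr hax (by omega) hQ
      have e3 : (Q + 1) * ((τ + 1 + f) ^ 2 * Q + 2 * a) + 2 * X
          = ((τ + 1 + f) * Q + τ) * ((τ + 1 + f) * Q + τ + 1) := by
        have h5 : 2 * a + 2 * w = 2 * ((τ + 1 + f) * τ) := by omega
        have h6 : 2 * X + 2 * ((τ + 1 + f) * τ) = τ * (τ + 1) + 2 * w := by
          have h7 : 2 * ((τ + 1 + f) * τ) + (f + 1) * f + (τ + 1 + f)
            = (τ + 1 + f) * (τ + 1 + f) + τ * (τ + 1) := by ring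
          omega
        zify at h5 h6 hsq ⊢
        linear_combination ((Q : ℤ) + 1) * h5 + h6 + (Q : ℤ) * hsq
      rw [e3]
      exact h1
  · -- the line is negative at row `Q`
    have hcase' : 2 * τ + 1 < τ + 1 + f := by omega
    obtain ⟨hB1, hB2⟩ := hB hcase'
    rw [hb] at hB1 hB2
    obtain ⟨q, rfl⟩ : ∃ q, Q = q + 1 := ⟨Q - 1, by omega⟩
    obtain ⟨v, hv⟩ : ∃ v, w = (τ + 1 + f) * τ + v := by
      refine ⟨w - (τ + 1 + f) * τ, ?_⟩
      have : (τ + 1 + f) * (2 * τ) ≤ (τ + 1 + f) * (τ + f) := Nat.mul_le_mul_left _ (by omega)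
      have h5 : (τ + 1 + f) * (τ + f) + (τ + 1 + f) = (τ + 1 + f) * (τ + 1 + f) := by ring
      have h6 : (τ + 1 + f) * (2 * τ) = 2 * ((τ + 1 + f) * τ) := by ring
      omega
    have hv0 : 0 < v := by
      have : (τ + 1 + f) * (2 * τ + 1) ≤ (τ + 1 + f) * (τ + f) := Nat.mul_le_mul_left _ (by omega)
      have h5 : (τ + 1 + f) * (τ + f) + (τ + 1 + f) = (τ + 1 + f) * (τ + 1 + f) := by ring
      have h6 : (τ + 1 + f) * (2 * τ + 1) = 2 * ((τ + 1 + f) * τ) + (τ + 1 + f) := by ring
      omega
    have hvx : v < (τ + 1 + f) ^ 2 := by omega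
    have hbX : b + v = X := by
      have h5 : 2 * ((τ + 1 + f) * τ) + (f + 1) * f + (τ + 1 + f)
          = (τ + 1 + f) * (τ + 1 + f) + τ * (τ + 1) := by ring
      omega
    have hrow : ∀ c ≤ q, (τ + 1 + f) ^ 2 * (q + 1 - c) ≤ strip (τ + 1 + f) d c + v := by
      intro c hc
      have := hline c (by omega)
      omega
    have hfin : Good K r m (S ((τ + 1 + f) ^ 2) q ((τ + 1 + f) ^ 2 - v) b) ρ := by
      apply canon_good h2 e _ q _ b hr (by omega) (by omega) (by omega)
      obtain ⟨k, hk⟩ : ∃ k, (τ + 1 + f) ^ 2 = k + v := ⟨(τ + 1 + f) ^ 2 - v, by omega⟩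
      have e4 : (τ + 1 + f) ^ 2 - v = k := by omega
      rw [e4]
      have e3 : (q + 1) * ((τ + 1 + f) ^ 2 * q + 2 * k) + 2 * b
          = ((τ + 1 + f) * (q + 1) + τ) * ((τ + 1 + f) * (q + 1) + τ + 1) := by
        zify at hk hv hb hsq ⊢
        linear_combination (-2 * ((q : ℤ) + 1)) * hk - ((q : ℤ) + 1) * (-2) * hv * 1
          - hb * 1 + ((q : ℤ) + 1) * hsq
      rw [e3]
      exact h1
    by_cases hbv : b ≤ v
    · obtain ⟨k, hk⟩ : ∃ k, (τ + 1 + f) ^ 2 = k + v := ⟨(τ + 1 + f) ^ 2 - v, by omega⟩
      have e4 : (τ + 1 + f) ^ 2 - v = k := by omega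
      rw [e4] at hfin
      rw [hk] at hrow hfin
      apply good_of_step (drop_step k v q b _ hbv hrow (by omega))
      apply good_spread (k + v) q k b _ (by omega) (by omega) _ _ hfin
      · intro c hc
        simp only [if_pos hc]
        omega
      · simp
    · apply good_spread_neg ((τ + 1 + f) ^ 2) v q b _ hv0 hvx.le _ hrow (by omega) hfin
      rcases hB2 with h | h
      · exfalso
        have h5 : (τ + 1 + f) * (τ + 1 + f) = τ + 1 + f + 2 * w := hw
        omega
      · omega

end Pool.Agent.Helper42.Canon
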